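import Pool.Agent.P.MP_11f821_pr.Core

/-!
Choice of the parameters and asymptotic estimates.
-/

namespace Pool.Agent.P.MP_11f821_pr

open Filter

theorem ev_small (C : ℝ) {c : ℝ} (hc : 0 < c) (k : ℕ) {η : ℝ} (hη : 0 < η) :
    ∀ᶠ y : ℝ in atTop, C * y ^ k * Real.exp (-(c * y)) ≤ η := by
  have h1 := (tendsto_rpow_mul_exp_neg_mul_atTop_nhds_zero k c hc).const_mul C
  rw [mul_zero] at h1
  filter_upwards [h1.eventually (eventually_le_nhds hη)] with y hy
  rwa [Real.rpow_natCast, neg_mul, ← mul_assoc] at hy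

/-- Constants depending only on `ε`. -/
structure Cst (ε : ℝ) where
  K : ℕ
  R : ℕ
  h : ℕ
  ℓ : ℕ
  τ : ℝ
  m : ℝ
  γ : ℝ
  hε : 0 < ε
  hε1 : ε ≤ 1
  hK : 32 ≤ ε ^ 2 * K
  hR : 16 * (K + 1) ≤ ε * R
  hτ : τ = ε ^ 2 / (32 * R)
  mpos : 0 < m
  hm1 : m * Real.exp (512 / ε ^ 2) ≤ 1
  hm2 : m * (8 * R * (K + 1)) ≤ ε
  hh : 64 ≤ τ * ε * h
  hℓ1 : 8 * (h : ℝ) ≤ ε * ℓ
  hℓ2 : 49152 ≤ ε ^ 2 * τ * ℓ
  hγ : γ = τ * ε ^ 2 / 16384

theorem exists_cst {ε : ℝ} (hε : 0 < ε) (hε1 : ε ≤ 1) : Nonempty (Cst ε) := by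
  obtain ⟨K, hK⟩ := exists_nat_ge (32 / ε ^ 2)
  obtain ⟨R, hR⟩ := exists_nat_ge (16 * (K + 1) / ε)
  have hR0 : (0 : ℝ) < R := lt_of_lt_of_le (by positivity) hR
  obtain ⟨τ, hτ⟩ : ∃ τ, τ = ε ^ 2 / (32 * R) := ⟨_, rfl⟩
  have hτ0 : 0 < τ := by rw [hτ]; positivity
  obtain ⟨h, hh⟩ := exists_nat_ge (64 / (τ * ε))
  obtain ⟨ℓ, hℓ⟩ := exists_nat_ge (8 * h / ε + 49152 / (ε ^ 2 * τ))
  have h1 : 8 * h / ε ≤ ℓ := le_trans (le_add_of_nonneg_right (by positivity)) hℓ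
  have h2 : 49152 / (ε ^ 2 * τ) ≤ ℓ := le_trans (le_add_of_nonneg_left (by positivity)) hℓ
  rw [div_le_iff₀' (by positivity)] at hK hR hh h1 h2
  refine ⟨⟨K, R, h, ℓ, τ, min (Real.exp (-(512 / ε ^ 2))) (ε / (8 * R * (K + 1))), _, hε, hε1, hK,
    hR, hτ, by positivity, ?_, ?_, hh, h1, h2, rfl⟩⟩
  · refine (mul_le_mul_of_nonneg_right (min_le_left _ _) (Real.exp_pos _).le).trans ?_
    rw [← Real.exp_add, neg_add_cancel, Real.exp_zero]
  · exact (le_div_iff₀ (by positivity)).1 (min_le_right _ _)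

namespace Cst

variable {ε : ℝ} (c : Cst ε)

theorem one_le_R : (1 : ℝ) ≤ c.R := by
  have h1 := c.hR
  have h2 : (0 : ℝ) ≤ c.K := Nat.cast_nonneg _
  have h3 := mul_le_of_le_one_left (Nat.cast_nonneg (α := ℝ) c.R) c.hε1
  linarith

theorem τ_pos : 0 < c.τ := by
  have := c.hε
  have := c.one_le_R
  rw [c.hτ]
  positivity

theorem τ_le : c.τ ≤ ε ^ 2 / 32 := by
  rw [c.hτ]
  exact div_le_div_of_nonneg_left (by positivity) (by norm_num) (by linarith [c.one_le_R])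

include c in
theorem sq_le : ε ^ 2 ≤ ε := by nlinarith [c.hε, c.hε1]

theorem γ_pos : 0 < c.γ := by
  have := c.hε
  have := c.τ_pos
  rw [c.hγ]
  positivity

/-- Conditions that hold for all large `n`, where `x = log n`. -/
structure Big (n : ℕ) (x : ℝ) : Prop where
  hx : Real.exp x = n
  c3 : (4 * c.K + 5) * n * Real.exp (-(c.τ * n)) < 1
  c6 : Real.exp (c.h - c.τ * ε / 32 * x) ≤ 1 / 2
  c8 : 2 + 1024 / ε ^ 2 ≤ x
  c9 : 128 * Real.exp (c.γ * x) ≤ c.τ * n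
  c11 : 3 ≤ c.γ * x
  c12 : 2 ≤ c.m * n
  c13 : 96 * c.R ≤ c.m * ε * x
  c14 : x ≤ ε / 16 * n

theorem ev_big : ∀ᶠ n : ℕ in atTop, c.Big n (Real.log n) := by
  have hε := c.hε
  have hτ := c.τ_pos
  have hγ := c.γ_pos
  have hm := c.mpos
  have hγ1 : c.γ ≤ 1 / 2 := by
    rw [c.hγ]
    nlinarith [c.τ_le, c.sq_le, c.hε1]
  have h1 : Tendsto (fun n : ℕ => (n : ℝ)) atTop atTop := tendsto_natCast_atTop_atTop
  have h2 : Tendsto (fun n : ℕ => Real.log n) atTop atTop := Real.tendsto_log_atTop.comp h1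
  filter_upwards [h1.eventually (eventually_gt_atTop 0),
    h1.eventually (ev_small (4 * c.K + 5) hτ 1 one_half_pos),
    h2.eventually (ev_small (Real.exp c.h) (c := c.τ * ε / 32) (by positivity) 0 one_half_pos),
    h2.eventually (eventually_ge_atTop (2 + 1024 / ε ^ 2)),
    h2.eventually (ev_small 128 one_half_pos 0 hτ),
    h2.eventually (eventually_ge_atTop (3 / c.γ)),
    h1.eventually (eventually_ge_atTop (2 / c.m)),
    h2.eventually (eventually_ge_atTop (96 * c.R / (c.m * ε))),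
    h2.eventually (ev_small 1 one_pos 1 (by positivity : 0 < ε / 16))]
    with n g0 g3 g6 g8 g9 g11 g12 g13 g14
  have hx := Real.exp_log g0
  have hx0 : 0 ≤ Real.log n := le_trans (by positivity) g8
  refine ⟨hx, by rw [pow_one] at g3; linarith, ?_, g8, ?_, (div_le_iff₀' hγ).1 g11,
    (div_le_iff₀' hm).1 g12, (div_le_iff₀' (by positivity)).1 g13, ?_⟩
  · rwa [pow_zero, mul_one, ← Real.exp_add] at g6
  · rw [pow_zero, mul_one] at g9
    have h3 : Real.exp (c.γ * Real.log n) ≤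
        Real.exp (-(1 / 2 * Real.log n)) * Real.exp (Real.log n) := by
      rw [← Real.exp_add]
      exact Real.exp_le_exp.2 (by nlinarith)
    rw [hx] at h3
    nlinarith
  · simp only [pow_one, one_mul] at g14
    rw [Real.exp_neg, hx, ← div_eq_mul_inv, div_le_iff₀ g0] at g14
    exact g14

namespace Big

variable {c} {n : ℕ} {x : ℝ} (b : c.Big n x)
include b

theorem two_le : 2 ≤ x := le_trans (le_add_of_nonneg_right (by positivity)) b.c8

theorem n_pos : (0 : ℝ) < n := b.hx ▸ Real.exp_pos x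

theorem one_le_n : (1 : ℝ) ≤ n := b.hx ▸ Real.one_le_exp (by linarith [b.two_le])

theorem τn : 128 ≤ c.τ * n := by
  linarith [b.c9, Real.one_le_exp (by linarith [b.c11] : 0 ≤ c.γ * x)]

theorem x_le : 16 * x ≤ n := by
  nlinarith [b.c14, c.hε1, b.n_pos]

theorem sq_x : 1024 ≤ ε ^ 2 * x := by
  have hε := c.hε
  exact (div_le_iff₀' (by positivity)).1 (by linarith [b.c8])

theorem q_bound : Real.exp (8 / ε * ((⌈ε ^ 2 / 128 * x⌉₊ : ℝ) + 1) -
    ((1 / 2 + ε) * n - ε * n / 4 - 25) * ((1 - ε / 8) * x / n) * (1 - Real.exp (-(8 / ε)))) ≤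
      Real.exp (16 / ε + 25 - (1 / 2 + 3 * ε / 8) * x) := by
  have hε := c.hε
  have hε1 := c.hε1
  have hn := b.n_pos
  have hx := b.two_le
  refine Real.exp_le_exp.2 ?_
  have h1 : (⌈ε ^ 2 / 128 * x⌉₊ : ℝ) ≤ ε ^ 2 / 128 * x + 1 :=
    (Nat.ceil_lt_add_one (by positivity)).le
  have h2 : 8 / ε * ((⌈ε ^ 2 / 128 * x⌉₊ : ℝ) + 1) ≤ ε / 16 * x + 16 / ε := by
    refine (mul_le_mul_of_nonneg_left (add_le_add h1 le_rfl) (by positivity)).trans (le_of_eq ?_)
    field_simp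
    ring
  have h3 : Real.exp (-(8 / ε)) ≤ ε / 8 := by
    rw [Real.exp_neg, inv_le_comm₀ (Real.exp_pos _) (by positivity), inv_div]
    linarith [Real.add_one_le_exp (8 / ε)]
  have h4 := Real.exp_pos (-(8 / ε))
  generalize Real.exp (-(8 / ε)) = y at h3 h4
  have h5 : 1 - ε / 4 ≤ (1 - ε / 8) * (1 - y) := by nlinarith
  have h6 : (1 - ε / 8) * (1 - y) ≤ 1 := by nlinarith
  have h7 : ((1 / 2 + ε) * n - ε * n / 4 - 25) * ((1 - ε / 8) * x / n) * (1 - y) =
      (1 / 2 + 3 * ε / 4) * x * ((1 - ε / 8) * (1 - y)) -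
        25 * (x / n) * ((1 - ε / 8) * (1 - y)) := by
    field_simp
    ring
  rw [h7]
  generalize (1 - ε / 8) * (1 - y) = A at h5 h6
  have h8 : x / n ≤ 1 := (div_le_one hn).2 (by linarith [b.x_le])
  have h9 : x / n * A ≤ 1 := mul_le_one₀ h8 (by linarith) h6
  have h10 := mul_le_mul_of_nonneg_left h5 (by positivity : 0 ≤ (1 / 2 + 3 * ε / 4) * x)
  have h11 : 0 ≤ ε * (1 - ε) * x := by
    have : 0 ≤ 1 - ε := by linarith
    positivity
  nlinarith

/-- The parameters for a given large `n`. -/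
noncomputable def par : Par n ε where
  p₁ := (1 - ε / 8) * x / n
  p₂ := ε / 16 * x / n
  p₃ := 4 * x / n
  p := 5 * x / n
  lam := 8 / ε
  x := x
  a := 512 / ε ^ 2
  q := Real.exp (16 / ε + 25 - (1 / 2 + 3 * ε / 8) * x)
  ν := ε * (n / c.R) / 8
  sm := c.τ * n / 16
  β := Real.exp (c.h - c.τ * ε / 32 * x)
  K := c.K
  L := n / c.K + 1
  R := c.R
  dom := ⌊ε * (n / c.R) / 2⌋₊
  t := ⌈c.τ * n⌉₊
  ℓ := c.ℓ
  h := c.h
  M0 := ⌈Real.exp (c.γ * x)⌉₊
  d := ⌈ε ^ 2 / 128 * x⌉₊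
  μ := ⌊c.m * n⌋₊
  hp₁ := div_nonneg (mul_nonneg (by linarith [c.hε1]) (by linarith [b.two_le])) b.n_pos.le
  hp₂ := div_pos (mul_pos (by linarith [c.hε]) (by linarith [b.two_le])) b.n_pos
  hp₃ := div_nonneg (by linarith [b.two_le]) b.n_pos.le
  hp := by
    rw [← add_div, ← add_div]
    exact div_le_div_of_nonneg_right (by nlinarith [c.hε, b.two_le]) b.n_pos.le
  hp1 := (div_le_one b.n_pos).2 (by linarith [b.x_le, b.two_le])
  hnp := by
    rw [mul_div_cancel₀ _ b.n_pos.ne']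
    linarith [b.two_le]
  hlam := div_nonneg (by norm_num) c.hε.le
  hR := by
    have h1 := c.hR
    have h3 := mul_le_of_le_one_left (Nat.cast_nonneg (α := ℝ) c.R) c.hε1
    have h2 : ((2 * c.K + 1 : ℕ) : ℝ) < c.R := by
      push_cast
      linarith [Nat.cast_nonneg (α := ℝ) c.K]
    exact_mod_cast h2
  hlab := by
    have hR := c.one_le_R
    have hn := b.one_le_n
    have h1 : ε ^ 2 * (n / c.R) / 32 = c.τ * n := by
      rw [c.hτ]
      field_simp
    have h2 : Real.exp (-(n / c.R / 4)) ≤ n * Real.exp (-(c.τ * n)) := by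
      refine le_trans (Real.exp_le_exp.2 ?_) (le_mul_of_one_le_left (Real.exp_pos _).le hn)
      have h3 : (0 : ℝ) ≤ n / c.R := by positivity
      nlinarith [c.sq_le, c.hε1]
    rw [h1]
    push_cast
    linarith [b.c3]
  hZ := by
    have hR := c.one_le_R
    have h1 : ε * n / 4 = ε * c.R / 4 * (n / c.R) := by field_simp
    rw [h1]
    push_cast
    exact mul_le_mul_of_nonneg_right (by linarith [c.hR]) (by positivity)
  hq := b.q_bound
  hν := by have := c.hε; positivity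
  hν1 := by
    have h1 : (n : ℝ) / c.R ≤ n := div_le_self b.n_pos.le c.one_le_R
    nlinarith [c.hε, b.n_pos]
  hsm := by linarith [b.τn]
  hsm1 := by nlinarith [c.τ_le, c.sq_le, b.n_pos, c.hε]
  hsm2 := by linarith [Nat.le_ceil (c.τ * n), b.τn]
  hdom := by
    have hε := c.hε
    have hR := c.one_le_R
    have h0 : (0 : ℝ) ≤ n / c.R := by positivity
    have h1 := Nat.floor_le (by positivity : 0 ≤ ε * (n / c.R) / 2)
    have h2 := Nat.floor_le (mul_pos c.mpos b.n_pos).le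
    have h3 : c.τ * n = ε ^ 2 * (n / c.R) / 32 := by
      rw [c.hτ]
      field_simp
    have h4 : (2 * c.K + 2) * (c.m * n) = c.m * (8 * c.R * (c.K + 1)) * (n / c.R) / 4 := by
      field_simp
      ring
    have h5 := mul_le_mul_of_nonneg_right c.hm2 h0
    have h6 := mul_le_mul_of_nonneg_left h2 (by positivity : (0 : ℝ) ≤ 2 * c.K + 2)
    have h7 := mul_le_mul_of_nonneg_right c.sq_le h0
    have h8 : 0 ≤ ε * (n / c.R) := by positivity
    push_cast
    linarith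
  hK := by
    have h1 : 0 < c.K := by
      have h2 := c.hK
      by_contra h3
      rw [Nat.eq_zero_of_not_pos h3] at h2
      norm_num at h2
    exact (Nat.lt_mul_div_succ n h1).le
  domL := by
    have hε := c.hε
    have hR := c.one_le_R
    have h1 : (0 : ℝ) < c.K := by
      have h2 := c.hK
      by_contra h3
      rw [le_antisymm (not_lt.1 h3) (Nat.cast_nonneg _)] at h2
      norm_num at h2
    refine Nat.floor_le_of_le ?_
    have h2 : (n : ℝ) ≤ c.K * ((n / c.K + 1 : ℕ) : ℝ) := by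
      exact_mod_cast (Nat.lt_mul_div_succ n (by exact_mod_cast h1)).le
    have h3 := mul_le_of_le_one_left (Nat.cast_nonneg (α := ℝ) c.R) c.hε1
    have h4 : (n : ℝ) / c.R ≤ n / c.K :=
      div_le_div_of_nonneg_left b.n_pos.le h1 (by linarith [c.hR])
    have h5 := (div_le_iff₀' h1).2 h2
    have h6 : (0 : ℝ) ≤ n / c.R := by positivity
    nlinarith [c.hε1]
  hL := by
    have hε := c.hε
    have h1 : (0 : ℝ) < c.K := by
      have h2 := c.hK
      by_contra h3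
      rw [le_antisymm (not_lt.1 h3) (Nat.cast_nonneg _)] at h2
      norm_num at h2
    have h2 : ((n / c.K : ℕ) : ℝ) ≤ n / c.K := Nat.cast_div_le
    have h3 : (n : ℝ) / c.K ≤ ε ^ 2 * n / 32 := by
      rw [div_le_iff₀ h1]
      nlinarith [c.hK, b.n_pos]
    have h4 := mul_le_mul_of_nonneg_right c.τ_le b.n_pos.le
    push_cast
    linarith [b.τn]
  n1 := by
    have hR := c.one_le_R
    have h1 := (Nat.ceil_lt_add_one (mul_pos c.τ_pos b.n_pos).le).le
    have h2 := (Nat.sub_one_lt_floor (ε * (n / c.R) / 2)).le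
    have h3 : c.τ * n = ε ^ 2 * (n / c.R) / 32 := by
      rw [c.hτ]
      field_simp
    have h4 := mul_le_mul_of_nonneg_left h2 (by linarith [c.hε] : 0 ≤ ε / 2)
    nlinarith [b.τn, c.hε1]
  n2 := by
    have hε := c.hε
    have h1 : (0 : ℝ) < c.K := by
      have h2 := c.hK
      by_contra h3
      rw [le_antisymm (not_lt.1 h3) (Nat.cast_nonneg _)] at h2
      norm_num at h2
    have h2 : ((n / c.K : ℕ) : ℝ) ≤ n / c.K := Nat.cast_div_le
    have h3 : (n : ℝ) / c.K ≤ ε ^ 2 * n / 32 := by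
      rw [div_le_iff₀ h1]
      nlinarith [c.hK, b.n_pos]
    have h4 := mul_le_mul_of_nonneg_right c.τ_le b.n_pos.le
    have h5 := (Nat.ceil_lt_add_one (mul_pos c.τ_pos b.n_pos).le).le
    have h6 := mul_le_mul_of_nonneg_right c.sq_le b.n_pos.le
    push_cast
    linarith [b.τn]
  tpos := Nat.ceil_pos.2 (mul_pos c.τ_pos b.n_pos)
  hℓ := c.hℓ1
  ℓpos := by
    have h2 := c.hℓ2
    by_contra h3
    rw [Nat.eq_zero_of_not_pos h3] at h2
    norm_num at h2
  hβ := by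
    refine Real.exp_le_exp.2 ?_
    have hn := b.n_pos
    have h1 := mul_le_mul_of_nonneg_right (Nat.le_ceil (c.τ * n))
      (div_pos (mul_pos (by linarith [c.hε] : 0 < ε / 16) (by linarith [b.two_le] : 0 < x)) hn).le
    have h2 : c.τ * n * (ε / 16 * x / n) = c.τ * ε / 16 * x := by field_simp
    linarith
  hβ2 := b.c6
  hpos := by
    have h2 := c.hh
    by_contra h3
    rw [Nat.eq_zero_of_not_pos h3] at h2
    norm_num at h2
  Mpos := Nat.ceil_pos.2 (Real.exp_pos _)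
  hx := by
    rw [mul_div_cancel₀ _ b.n_pos.ne']
    nlinarith [c.hε, b.two_le]
  hd := by
    have h1 : ((2 : ℕ) : ℝ) ≤ ⌈ε ^ 2 / 128 * x⌉₊ := by
      push_cast
      linarith [Nat.le_ceil (ε ^ 2 / 128 * x), b.sq_x]
    exact_mod_cast h1
  ha := by positivity
  hμ := by
    have h1 := mul_le_mul_of_nonneg_right (Nat.floor_le (mul_pos c.mpos b.n_pos).le)
      (Real.exp_pos (512 / ε ^ 2)).le
    nlinarith [c.hm1, b.n_pos]
  hda := by
    have hε := c.hε
    have h1 := mul_le_mul_of_nonneg_right (sub_le_sub_right (Nat.le_ceil (ε ^ 2 / 128 * x)) 2)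
      (by positivity : 0 ≤ 512 / ε ^ 2)
    have h2 : (ε ^ 2 / 128 * x - 2) * (512 / ε ^ 2) = 4 * x - 1024 / ε ^ 2 := by
      field_simp
      ring
    linarith [b.c8]

theorem M0_le : (⌈Real.exp (c.γ * x)⌉₊ : ℝ) ≤ 2 * Real.exp (c.γ * x) := by
  linarith [(Nat.ceil_lt_add_one (Real.exp_pos (c.γ * x)).le).le,
    Real.one_le_exp (by linarith [b.c11] : 0 ≤ c.γ * x)]

theorem time_bound : ε ^ 2 * c.τ / 8192 * x ≤ ε / 16 * x / n * ε / 128 *
    (⌈c.τ * n⌉₊ - 2 * (c.τ * n / 16) - 8 * (⌈Real.exp (c.γ * x)⌉₊ + n / c.ℓ + 1 +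
      8 / (ε / 16 * x / n * ε) * (1 + Real.log (2 * ⌈Real.exp (c.γ * x)⌉₊) +
        2 / c.ℓ * (1 + Real.log (n + 1))))) := by
  have hε := c.hε
  have hτ := c.τ_pos
  have hn := b.n_pos
  have hx : 0 < x := by linarith [b.two_le]
  have hℓ : (0 : ℝ) < c.ℓ := by exact_mod_cast b.par.ℓpos
  have hM := b.M0_le
  have h1 : Real.log (2 * ⌈Real.exp (c.γ * x)⌉₊) ≤ 2 + c.γ * x := by
    have h2 : (0 : ℝ) < ⌈Real.exp (c.γ * x)⌉₊ := by exact_mod_cast b.par.Mpos
    rw [Real.log_le_iff_le_exp (by positivity), Real.exp_add]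
    have h3 : (4 : ℝ) ≤ Real.exp 2 := by
      have h4 : Real.exp 2 = Real.exp 1 * Real.exp 1 := by rw [← Real.exp_add]; norm_num
      nlinarith [Real.add_one_le_exp 1]
    nlinarith [Real.exp_pos (c.γ * x)]
  have h2 : Real.log (n + 1) ≤ 1 + x := by
    rw [Real.log_le_iff_le_exp (by positivity), Real.exp_add, b.hx]
    nlinarith [Real.add_one_le_exp 1, b.one_le_n]
  have h3 : 1 + Real.log (2 * ⌈Real.exp (c.γ * x)⌉₊) + 2 / c.ℓ * (1 + Real.log (n + 1)) ≤
      2 * (c.γ * x) + 2 / c.ℓ * (3 * x) :=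
    add_le_add (by linarith [b.c11])
      (mul_le_mul_of_nonneg_left (by linarith [b.two_le]) (by positivity))
  have h4 := mul_le_mul_of_nonneg_left h3 (by positivity : 0 ≤ 8 / (ε / 16 * x / n * ε))
  have h5 : 8 / (ε / 16 * x / n * ε) * (2 * (c.γ * x) + 2 / c.ℓ * (3 * x)) =
      c.τ * n / 64 + 768 / (ε ^ 2 * c.ℓ) * n := by
    rw [c.hγ]
    field_simp
    ring
  have h6 : 768 / (ε ^ 2 * c.ℓ) ≤ c.τ / 64 := by
    rw [div_le_iff₀ (by positivity)]
    linarith [c.hℓ2]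
  have h7 : (n : ℝ) / c.ℓ ≤ c.τ * n / 64 := by
    rw [div_le_iff₀ hℓ]
    have h8 : ε ^ 2 * (c.τ * c.ℓ) ≤ 1 * (c.τ * c.ℓ) :=
      mul_le_mul_of_nonneg_right (c.sq_le.trans c.hε1) (by positivity)
    nlinarith [c.hℓ2]
  have h8 := mul_le_mul_of_nonneg_right h6 hn.le
  have h9 : ε ^ 2 * c.τ / 8192 * x = ε / 16 * x / n * ε / 128 * (c.τ * n / 4) := by
    field_simp
    ring
  rw [h9]
  refine mul_le_mul_of_nonneg_left ?_ (by positivity)
  linarith [Nat.le_ceil (c.τ * n), b.c9, b.τn]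

theorem err₁_le : b.par.err₁ ≤ 3 * Real.exp c.h * x ^ 0 * Real.exp (-(c.τ * ε / 64 * x)) +
    5 * Real.exp (c.h ^ 2) * x ^ 0 * Real.exp (-(1 * x)) +
    1 * x ^ 0 * Real.exp (-(ε ^ 2 * c.τ / 8192 * x)) +
    2 * x ^ 0 * Real.exp (-(c.τ * ε / (32 * 4 ^ (3 * c.K + 2)) * x)) := by
  have hε := c.hε
  have hτ := c.τ_pos
  have hn := b.n_pos
  have hx : 0 < x := by linarith [b.two_le]
  simp only [pow_zero, mul_one, one_mul]
  refine add_le_add (add_le_add (add_le_add ?_ ?_) (Real.exp_le_exp.2 (neg_le_neg b.time_bound)))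
    (mul_le_mul_of_nonneg_left (Real.exp_le_exp.2 (neg_le_neg ?_)) zero_le_two)
  · change Real.exp (c.h - c.τ * ε / 32 * x) +
      ⌈Real.exp (c.γ * x)⌉₊ * Real.exp (c.h - c.τ * ε / 32 * x) ≤ _
    have h1 : Real.exp (c.γ * x) * Real.exp (c.h - c.τ * ε / 32 * x) ≤
        Real.exp c.h * Real.exp (-(c.τ * ε / 64 * x)) := by
      rw [← Real.exp_add, ← Real.exp_add, c.hγ]
      refine Real.exp_le_exp.2 ?_
      have h2 := mul_le_mul_of_nonneg_left c.sq_le (mul_pos hτ hx).le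
      have h3 : 0 < c.τ * x * ε := by positivity
      nlinarith
    have h2 := Real.one_le_exp (by linarith [b.c11] : 0 ≤ c.γ * x)
    have h3 := Real.exp_pos (c.h - c.τ * ε / 32 * x)
    nlinarith [b.M0_le]
  · change ((⌈c.τ * n⌉₊ : ℝ) + ⌈c.τ * n⌉₊ + n) * Real.exp (c.h - c.τ * ε / 32 * x) ^ c.h ≤ _
    have h1 := (Nat.ceil_lt_add_one (mul_pos hτ hn).le).le
    have h2 : c.τ * n ≤ n := mul_le_of_le_one_left hn.le (by linarith [c.τ_le, c.sq_le, c.hε1])
    have h3 : (⌈c.τ * n⌉₊ : ℝ) + ⌈c.τ * n⌉₊ + n ≤ 5 * Real.exp x := by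
      rw [b.hx]
      linarith [b.one_le_n]
    refine (mul_le_mul_of_nonneg_right h3 (by positivity)).trans ?_
    rw [← Real.exp_nat_mul, mul_assoc, mul_assoc, ← Real.exp_add, ← Real.exp_add]
    refine mul_le_mul_of_nonneg_left (Real.exp_le_exp.2 ?_) (by norm_num)
    nlinarith [mul_le_mul_of_nonneg_right c.hh hx.le]
  · change _ ≤ ε / 16 * x / n / (2 * 4 ^ (3 * c.K + 2)) * ⌈c.τ * n⌉₊
    refine le_trans (le_of_eq ?_) (mul_le_mul_of_nonneg_left (Nat.le_ceil _) (by positivity))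
    field_simp
    ring

theorem err₃_le : b.par.err₃ ≤ 1 * x ^ 0 * Real.exp (-((ε / 16) ^ 2 * x)) := by
  have hε := c.hε
  have hε1 := c.hε1
  have hn := b.n_pos
  have hx : 0 < x := by linarith [b.two_le]
  simp only [pow_zero, one_mul]
  refine Real.exp_le_exp.2 (neg_le_neg ?_)
  change _ ≤ n * (1 - ((1 - ε / 8) * x / n + ε / 16 * x / n)) ^ n
  obtain ⟨u, hu⟩ : ∃ u, u = (1 - ε / 16) * (x / n) := ⟨_, rfl⟩
  have h1 : (1 - ε / 8) * x / n + ε / 16 * x / n = u := by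
    rw [hu]
    ring
  have h2 : x / n ≤ ε / 16 := (div_le_iff₀ hn).2 b.c14
  have h3 : 0 ≤ x / n := by positivity
  have h4 : 0 ≤ u := by
    rw [hu]
    exact mul_nonneg (by linarith) h3
  have h5 : u * (1 + ε / 16) ≤ ε / 16 := by
    have h6 : u * (1 + ε / 16) = x / n - (ε / 16) ^ 2 * (x / n) := by
      rw [hu]
      ring
    have h7 : 0 ≤ (ε / 16) ^ 2 * (x / n) := by positivity
    linarith
  have h6 : Real.exp (-(u * (1 + ε / 16))) ≤ 1 - u := by
    rw [Real.exp_neg, inv_le_iff_one_le_mul₀ (Real.exp_pos _)]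
    have h7 := mul_le_mul_of_nonneg_left (Real.add_one_le_exp (u * (1 + ε / 16)))
      (by nlinarith : 0 ≤ 1 - u)
    nlinarith [mul_le_mul_of_nonneg_left h5 h4]
  have h7 := mul_le_mul_of_nonneg_left (pow_le_pow_left₀ (Real.exp_pos _).le h6 n) hn.le
  rw [h1]
  refine le_trans ?_ h7
  have h8 : (n : ℝ) * Real.exp (-(u * (1 + ε / 16))) ^ n = Real.exp ((ε / 16) ^ 2 * x) := by
    rw [← Real.exp_nat_mul]
    nth_rewrite 1 [← b.hx]
    rw [← Real.exp_add, hu]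
    congr 1
    field_simp
    ring
  linarith [Real.add_one_le_exp ((ε / 16) ^ 2 * x)]

theorem err₂_le : b.par.err₂ ≤ 1 * x ^ 0 * Real.exp (-(1 * x)) + (1 * x ^ 0 * Real.exp (-(1 * x)) +
    (100 * Real.exp 26 * 5 ^ 5 * Real.exp (16 / ε + 25) ^ 2 * x ^ 5 * Real.exp (-(3 * ε / 4 * x)) +
    (50 * Real.exp 2 * Real.exp (16 / ε + 25) * x ^ 2 * Real.exp (-(1 / 2 * x)) +
    ((3 * c.ℓ : ℕ) * Real.exp ((3 * c.ℓ : ℕ) ^ 2 + 1) * 5 ^ (3 * c.ℓ) * x ^ (3 * c.ℓ) *
      Real.exp (-(c.γ * x)) +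
    (32 / c.τ * Real.exp (16 / ε + 25) * x ^ 0 * Real.exp (-(1 / 2 * x)) +
    2 * x ^ 0 * Real.exp (-(1 * x))))))) := by
  have hε := c.hε
  have hε1 := c.hε1
  have hτ := c.τ_pos
  have hn := b.n_pos
  have hR := c.one_le_R
  have hx : 0 < x := by linarith [b.two_le]
  have hnp : n * b.par.p = 5 * x := mul_div_cancel₀ _ hn.ne'
  have hq : b.par.q ≤ Real.exp (16 / ε + 25) * Real.exp (-(1 / 2 * x)) := by
    rw [← Real.exp_add]
    exact Real.exp_le_exp.2 (by nlinarith)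
  have hq0 : 0 < b.par.q := Real.exp_pos _
  unfold Par.err₂
  simp only [pow_zero, mul_one, one_mul, hnp]
  refine add_le_add ?_ (add_le_add ?_ (add_le_add ?_ (add_le_add ?_ (add_le_add ?_
    (add_le_add ?_ ?_)))))
  · change 4 ^ n * Real.exp (-(⌊c.m * n⌋₊ * (ε * (n / c.R) / 8) * ((1 - ε / 8) * x / n))) ≤ _
    have h1 : (4 : ℝ) ^ n ≤ Real.exp (n * 2) := by
      rw [Real.exp_nat_mul]
      refine pow_le_pow_left₀ (by norm_num) ?_ n
      have h4 : Real.exp 2 = Real.exp 1 * Real.exp 1 := by rw [← Real.exp_add]; norm_num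
      nlinarith [Real.add_one_le_exp 1]
    refine (mul_le_mul_of_nonneg_right h1 (Real.exp_pos _).le).trans ?_
    rw [← Real.exp_add]
    refine Real.exp_le_exp.2 ?_
    have h2 : c.m * n / 2 ≤ ⌊c.m * n⌋₊ := by linarith [Nat.sub_one_lt_floor (c.m * n), b.c12]
    have h3 : ε * x / (16 * c.R) ≤ ε * (n / c.R) / 8 * ((1 - ε / 8) * x / n) := by
      have h4 : ε * (n / c.R) / 8 * ((1 - ε / 8) * x / n) =
          ε * x / (16 * c.R) * (2 * (1 - ε / 8)) := by
        field_simp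
        ring
      rw [h4]
      exact le_mul_of_one_le_right (by positivity) (by linarith)
    have h4 := mul_le_mul h2 h3 (by positivity) (Nat.cast_nonneg _)
    have h5 : 3 * n ≤ c.m * n / 2 * (ε * x / (16 * c.R)) := by
      have h6 : c.m * n / 2 * (ε * x / (16 * c.R)) = c.m * ε * x / (32 * c.R) * n := by
        field_simp
        ring
      rw [h6]
      refine mul_le_mul_of_nonneg_right ?_ hn.le
      rw [le_div_iff₀ (by positivity)]
      linarith [b.c13]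
    rw [mul_assoc (⌊c.m * n⌋₊ : ℝ)]
    linarith [b.x_le]
  · change ⌊c.m * n⌋₊ * Real.exp (-(2 * x)) ≤ _
    have h1 : (⌊c.m * n⌋₊ : ℝ) ≤ Real.exp x := by
      rw [b.hx]
      exact (le_mul_of_one_le_right (Nat.cast_nonneg _) (Real.one_le_exp b.par.ha)).trans b.par.hμ
    refine (mul_le_mul_of_nonneg_right h1 (Real.exp_pos _).le).trans (le_of_eq ?_)
    rw [← Real.exp_add]
    congr 1
    ring
  · have h1 : b.par.q ^ 2 / b.par.p ≤
        Real.exp (16 / ε + 25) ^ 2 * Real.exp (-(3 * ε / 4 * x)) := by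
      change Real.exp (16 / ε + 25 - (1 / 2 + 3 * ε / 8) * x) ^ 2 / (5 * x / n) ≤ _
      have h2 : Real.exp (16 / ε + 25 - (1 / 2 + 3 * ε / 8) * x) ^ 2 * n =
          Real.exp (16 / ε + 25) ^ 2 * Real.exp (-(3 * ε / 4 * x)) := by
        rw [← b.hx, ← Real.exp_nat_mul, ← Real.exp_nat_mul, ← Real.exp_add, ← Real.exp_add]
        congr 1
        push_cast
        ring
      rw [div_div_eq_mul_div, h2]
      exact div_le_self (by positivity) (by linarith [b.two_le])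
    rw [mul_div_assoc]
    refine (mul_le_mul_of_nonneg_left h1 (by positivity)).trans (le_of_eq ?_)
    ring
  · refine (mul_le_mul_of_nonneg_left hq (by positivity)).trans (le_of_eq ?_)
    ring
  · change _ / (⌈Real.exp (c.γ * x)⌉₊ : ℝ) ≤ _
    refine (div_le_div_of_nonneg_left (by positivity) (Real.exp_pos _) (Nat.le_ceil _)).trans
      (le_of_eq ?_)
    rw [Real.exp_neg, mul_pow, div_eq_mul_inv, ← mul_assoc]
    rfl
  · change 2 * n * b.par.q / (c.τ * n / 16) ≤ _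
    have h1 : 2 * n * b.par.q / (c.τ * n / 16) = 32 / c.τ * b.par.q := by
      field_simp
      ring
    rw [h1, mul_assoc]
    exact mul_le_mul_of_nonneg_left hq (by positivity)
  · change 2 * n * Real.exp (-((1 / 2 + ε) * n * (4 * x / n))) ≤ _
    rw [mul_assoc ((1 : ℝ) / 2 + ε), mul_div_cancel₀ _ hn.ne', mul_assoc, ← b.hx, ← Real.exp_add]
    exact mul_le_mul_of_nonneg_left (Real.exp_le_exp.2 (by nlinarith)) zero_le_two

end Big

end Cst

theorem ev_par {ε η : ℝ} (hε : 0 < ε) (hε1 : ε ≤ 1) (hη : 0 < η) :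
    ∀ᶠ n : ℕ in atTop, ∃ c : Par n ε, c.err₂ + c.err₁ + c.err₃ ≤ η := by
  obtain ⟨c⟩ := exists_cst hε hε1
  have hτ := c.τ_pos
  have hγ := c.γ_pos
  have h2 : Tendsto (fun n : ℕ => Real.log n) atTop atTop :=
    Real.tendsto_log_atTop.comp tendsto_natCast_atTop_atTop
  have h : ∀ (C a : ℝ) (k : ℕ), 0 < a → ∀ᶠ n : ℕ in atTop,
      C * Real.log n ^ k * Real.exp (-(a * Real.log n)) ≤ η / 12 := fun C a k ha =>
    h2.eventually (ev_small C ha k (by positivity))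
  filter_upwards [c.ev_big, h 1 1 0 one_pos,
    h (100 * Real.exp 26 * 5 ^ 5 * Real.exp (16 / ε + 25) ^ 2) (3 * ε / 4) 5 (by positivity),
    h (50 * Real.exp 2 * Real.exp (16 / ε + 25)) (1 / 2) 2 one_half_pos,
    h ((3 * c.ℓ : ℕ) * Real.exp ((3 * c.ℓ : ℕ) ^ 2 + 1) * 5 ^ (3 * c.ℓ)) c.γ (3 * c.ℓ) hγ,
    h (32 / c.τ * Real.exp (16 / ε + 25)) (1 / 2) 0 one_half_pos, h 2 1 0 one_pos,
    h (3 * Real.exp c.h) (c.τ * ε / 64) 0 (by positivity), h (5 * Real.exp (c.h ^ 2)) 1 0 one_pos,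
    h 1 (ε ^ 2 * c.τ / 8192) 0 (by positivity),
    h 2 (c.τ * ε / (32 * 4 ^ (3 * c.K + 2))) 0 (by positivity),
    h 1 ((ε / 16) ^ 2) 0 (by positivity)] with n b g1 g2 g3 g4 g5 g6 g7 g8 g9 g10 g11
  exact ⟨b.par, by linarith [b.err₁_le, b.err₂_le, b.err₃_le]⟩

end Pool.Agent.P.MP_11f821_pr
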