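import Mathlib

/-!
Finite product probability spaces: expectation, conditioning on a set of coordinates, union
bounds and exponential tail bounds.
-/

namespace Pool.Agent.P.MP_11f821_pr

open Finset

variable {ι α β : Type*} [Fintype ι] [DecidableEq ι] [Fintype α] [Fintype β]

/-- Expectation under the product of copies of the weight `w`. -/
noncomputable def Ex (w : α → ℝ) (f : (ι → α) → ℝ) : ℝ := ∑ ω : ι → α, (∏ i, w (ω i)) * f ω

/-- `w` is a probability vector. -/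
structure IsW (w : α → ℝ) : Prop where
  nonneg : ∀ a, 0 ≤ w a
  sum_one : ∑ a, w a = 1

open scoped Classical in
/-- Indicator of a proposition. -/
noncomputable def ind (P : Prop) : ℝ := if P then 1 else 0

/-- Probability of an event. -/
noncomputable def Pr (w : α → ℝ) (P : (ι → α) → Prop) : ℝ := Ex w fun ω => ind (P ω)

/-- Probability of an event about a single coordinate. -/
noncomputable def wt (w : α → ℝ) (P : α → Prop) : ℝ := ∑ a, w a * ind (P a)

theorem ind_pos {P : Prop} (h : P) : ind P = 1 := if_pos h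

theorem ind_neg {P : Prop} (h : ¬ P) : ind P = 0 := if_neg h

theorem ind_nonneg (P : Prop) : 0 ≤ ind P := by
  by_cases h : P
  · rw [ind_pos h]; exact zero_le_one
  · rw [ind_neg h]

theorem ind_le_one (P : Prop) : ind P ≤ 1 := by
  by_cases h : P
  · rw [ind_pos h]
  · rw [ind_neg h]; exact zero_le_one

theorem ind_le {P : Prop} {x : ℝ} (h0 : 0 ≤ x) (h : P → 1 ≤ x) : ind P ≤ x := by
  by_cases hP : P
  · rw [ind_pos hP]; exact h hP
  · rw [ind_neg hP]; exact h0

theorem ind_not (P : Prop) : ind (¬ P) = 1 - ind P := by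
  by_cases h : P
  · rw [ind_pos h, ind_neg (not_not.2 h)]; ring
  · rw [ind_neg h, ind_pos h]; ring

variable {w : α → ℝ}

theorem Ex_mono (hw : IsW w) {f g : (ι → α) → ℝ} (h : ∀ ω, f ω ≤ g ω) : Ex w f ≤ Ex w g :=
  sum_le_sum fun ω _ => mul_le_mul_of_nonneg_left (h ω) (prod_nonneg fun _ _ => hw.nonneg _)

theorem Ex_add (f g : (ι → α) → ℝ) : Ex w (fun ω => f ω + g ω) = Ex w f + Ex w g := by
  simp only [Ex, mul_add, sum_add_distrib]

theorem Ex_sub (f g : (ι → α) → ℝ) : Ex w (fun ω => f ω - g ω) = Ex w f - Ex w g := by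
  simp only [Ex, mul_sub, sum_sub_distrib]

theorem Ex_mul_left (c : ℝ) (f : (ι → α) → ℝ) : Ex w (fun ω => c * f ω) = c * Ex w f := by
  simp only [Ex, mul_sum]
  exact sum_congr rfl fun ω _ => by ring

theorem Ex_mul_right (c : ℝ) (f : (ι → α) → ℝ) : Ex w (fun ω => f ω * c) = Ex w f * c := by
  simp only [Ex, sum_mul]
  exact sum_congr rfl fun ω _ => by ring

theorem Ex_sum {κ : Type*} (S : Finset κ) (f : κ → (ι → α) → ℝ) :
    Ex w (fun ω => ∑ j ∈ S, f j ω) = ∑ j ∈ S, Ex w (f j) := by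
  simp only [Ex, mul_sum]
  exact sum_comm

theorem Ex_prod_univ (g : ι → α → ℝ) :
    Ex w (fun ω => ∏ i, g i (ω i)) = ∏ i, ∑ a, w a * g i a := by
  rw [prod_univ_sum]
  simp only [Ex, Fintype.piFinset_univ, prod_mul_distrib]

theorem Ex_const (hw : IsW w) (c : ℝ) : Ex w (fun _ : ι → α => c) = c := by
  have h := Ex_prod_univ (ι := ι) (w := w) fun _ _ => 1
  simp only [prod_const_one, mul_one, hw.sum_one] at h
  have h2 := Ex_mul_left (ι := ι) (w := w) c fun _ => 1
  simp only [mul_one] at h2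
  rw [h2, h, mul_one]

theorem Ex_nonneg (hw : IsW w) {f : (ι → α) → ℝ} (h : ∀ ω, 0 ≤ f ω) : 0 ≤ Ex w f := by
  have := Ex_mono hw (f := fun _ => 0) h
  rwa [Ex_const hw] at this

theorem Ex_le_const (hw : IsW w) {f : (ι → α) → ℝ} {c : ℝ} (h : ∀ ω, f ω ≤ c) : Ex w f ≤ c := by
  have := Ex_mono hw (g := fun _ => c) h
  rwa [Ex_const hw] at this

theorem Ex_prod (hw : IsW w) (S : Finset ι) (g : ι → α → ℝ) :
    Ex w (fun ω => ∏ i ∈ S, g i (ω i)) = ∏ i ∈ S, ∑ a, w a * g i a := by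
  have h := Ex_prod_univ (w := w) fun i a => if i ∈ S then g i a else 1
  have h1 : ∀ ω : ι → α, (∏ i, if i ∈ S then g i (ω i) else 1) = ∏ i ∈ S, g i (ω i) := by
    intro ω
    rw [prod_ite_mem, univ_inter]
  have h2 : ∀ i, (∑ a, w a * if i ∈ S then g i a else 1) =
      if i ∈ S then ∑ a, w a * g i a else 1 := by
    intro i
    split_ifs
    · rfl
    · simp only [mul_one, hw.sum_one]
  simp only [h1, h2] at h
  rw [h, prod_ite_mem, univ_inter]

/-- Resampling the coordinates outside `S`. -/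
theorem Ex_pw (hw : IsW w) (S : ι → Prop) [DecidablePred S] (f : (ι → α) → ℝ) :
    Ex w f = Ex w fun x => Ex w fun y => f fun i => if S i then x i else y i := by
  let Φ : (ι → α) × (ι → α) → (ι → α) × (ι → α) := fun z =>
    (fun i => if S i then z.1 i else z.2 i, fun i => if S i then z.2 i else z.1 i)
  have hΦ : Function.Involutive Φ := by
    intro z
    ext i <;> by_cases h : S i <;> simp [Φ, h]
  have h1 : Ex w f = ∑ z : (ι → α) × (ι → α), (∏ i, w (z.1 i)) * (∏ i, w (z.2 i)) * f z.1 := by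
    rw [Fintype.sum_prod_type]
    refine sum_congr rfl fun x _ => ?_
    have h2 := Ex_const (ι := ι) hw ((∏ i, w (x i)) * f x)
    rw [← h2]
    exact sum_congr rfl fun y _ => by ring
  rw [h1, ← hΦ.bijective.sum_comp, Fintype.sum_prod_type]
  refine sum_congr rfl fun x _ => ?_
  unfold Ex
  beta_reduce
  rw [mul_sum]
  refine sum_congr rfl fun y _ => ?_
  have h3 : (∏ i, w ((Φ (x, y)).1 i)) * (∏ i, w ((Φ (x, y)).2 i)) =
      (∏ i, w (x i)) * ∏ i, w (y i) := by
    rw [← prod_mul_distrib, ← prod_mul_distrib]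
    refine prod_congr rfl fun i _ => ?_
    by_cases h : S i <;> simp [Φ, h, mul_comm]
  rw [h3, mul_assoc]

theorem Ex_prodSpace (w₁ : α → ℝ) (w₂ : β → ℝ) (f : (ι → α × β) → ℝ) :
    Ex (fun c : α × β => w₁ c.1 * w₂ c.2) f =
      Ex w₁ fun a => Ex w₂ fun b => f fun i => (a i, b i) := by
  unfold Ex
  rw [← (Equiv.arrowProdEquivProdArrow ι (fun _ => α) fun _ => β).symm.sum_comp,
    Fintype.sum_prod_type]
  refine sum_congr rfl fun a _ => ?_
  rw [mul_sum]
  refine sum_congr rfl fun b _ => ?_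
  rw [prod_mul_distrib, mul_assoc]
  rfl

theorem IsW.prod {w₁ : α → ℝ} {w₂ : β → ℝ} (h₁ : IsW w₁) (h₂ : IsW w₂) :
    IsW fun c : α × β => w₁ c.1 * w₂ c.2 :=
  ⟨fun c => mul_nonneg (h₁.nonneg _) (h₂.nonneg _), by
    rw [Fintype.sum_prod_type]
    simp only [← mul_sum, h₂.sum_one, mul_one, h₁.sum_one]⟩

theorem Ex_comp_equiv (π : ι ≃ ι) (f : (ι → α) → ℝ) : Ex w (fun ω => f (ω ∘ π)) = Ex w f := by
  unfold Ex
  rw [← (Equiv.arrowCongr π.symm (Equiv.refl α)).sum_comp fun ω => (∏ i, w (ω i)) * f ω]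
  refine sum_congr rfl fun ω _ => ?_
  have h : (Equiv.arrowCongr π.symm (Equiv.refl α)) ω = ω ∘ π := by
    ext i
    simp
  rw [h, ← π.prod_comp fun i => w (ω i)]
  rfl

theorem Pr_nonneg (hw : IsW w) (P : (ι → α) → Prop) : 0 ≤ Pr w P :=
  Ex_nonneg hw fun _ => ind_nonneg _

theorem Pr_le_one (hw : IsW w) (P : (ι → α) → Prop) : Pr w P ≤ 1 :=
  Ex_le_const hw fun _ => ind_le_one _

theorem Pr_le_Ex (hw : IsW w) {P : (ι → α) → Prop} {f : (ι → α) → ℝ} (h0 : ∀ ω, 0 ≤ f ω)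
    (h : ∀ ω, P ω → 1 ≤ f ω) : Pr w P ≤ Ex w f :=
  Ex_mono hw fun ω => ind_le (h0 ω) (h ω)

theorem Pr_mono (hw : IsW w) {P Q : (ι → α) → Prop} (h : ∀ ω, P ω → Q ω) : Pr w P ≤ Pr w Q :=
  Pr_le_Ex hw (fun _ => ind_nonneg _) fun ω hP => (ind_pos (h ω hP)).ge

theorem Pr_not (hw : IsW w) (P : (ι → α) → Prop) : Pr w (fun ω => ¬ P ω) = 1 - Pr w P := by
  unfold Pr
  simp only [ind_not]
  rw [Ex_sub, Ex_const hw]

theorem Pr_or_le (hw : IsW w) (P Q : (ι → α) → Prop) :
    Pr w (fun ω => P ω ∨ Q ω) ≤ Pr w P + Pr w Q := by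
  unfold Pr
  rw [← Ex_add]
  refine Ex_mono hw fun ω => ind_le (add_nonneg (ind_nonneg _) (ind_nonneg _)) fun h => ?_
  rcases h with h | h
  · rw [ind_pos h]; linarith [ind_nonneg (Q ω)]
  · rw [ind_pos h]; linarith [ind_nonneg (P ω)]

theorem Pr_exists_le (hw : IsW w) {κ : Type*} (S : Finset κ) (P : κ → (ι → α) → Prop) :
    Pr w (fun ω => ∃ j ∈ S, P j ω) ≤ ∑ j ∈ S, Pr w (P j) := by
  unfold Pr
  rw [← Ex_sum]
  refine Ex_mono hw fun ω => ind_le (sum_nonneg fun _ _ => ind_nonneg _) ?_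
  rintro ⟨j, hj, h⟩
  rw [← ind_pos h]
  exact single_le_sum (f := fun j => ind (P j ω)) (fun _ _ => ind_nonneg _) hj

theorem Pr_exists_le_card (hw : IsW w) {κ : Type*} (S : Finset κ) (P : κ → (ι → α) → Prop)
    {c : ℝ} (h : ∀ j ∈ S, Pr w (P j) ≤ c) : Pr w (fun ω => ∃ j ∈ S, P j ω) ≤ S.card * c := by
  refine (Pr_exists_le hw S P).trans ((sum_le_sum h).trans ?_)
  rw [sum_const, nsmul_eq_mul]

open scoped Classical in
theorem card_filter_eq_sum_ind {κ : Type*} (S : Finset κ) (P : κ → Prop) :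
    ((S.filter P).card : ℝ) = ∑ j ∈ S, ind (P j) := by
  rw [card_filter]
  push_cast
  rfl

open scoped Classical in
/-- Markov's inequality for the number of events that occur. -/
theorem Pr_card_le (hw : IsW w) {κ : Type*} (S : Finset κ) (P : κ → (ι → α) → Prop)
    {M : ℝ} (hM : 0 < M) :
    Pr w (fun ω => M ≤ ((S.filter fun j => P j ω).card : ℝ)) ≤ (∑ j ∈ S, Pr w (P j)) / M := by
  have h1 : Ex w (fun ω => (∑ j ∈ S, ind (P j ω)) * M⁻¹) = (∑ j ∈ S, Pr w (P j)) / M := by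
    rw [Ex_mul_right, Ex_sum]
    rfl
  rw [← h1]
  refine Pr_le_Ex hw (fun ω => mul_nonneg (sum_nonneg fun _ _ => ind_nonneg _) (by positivity))
    fun ω h => ?_
  rw [← card_filter_eq_sum_ind, ← div_eq_mul_inv, le_div_iff₀ hM, one_mul]
  exact h

theorem wt_nonneg (hw : IsW w) (P : α → Prop) : 0 ≤ wt w P :=
  sum_nonneg fun a _ => mul_nonneg (hw.nonneg a) (ind_nonneg _)

theorem wt_le_one (hw : IsW w) (P : α → Prop) : wt w P ≤ 1 := by
  rw [← hw.sum_one]
  exact sum_le_sum fun a _ => mul_le_of_le_one_right (hw.nonneg a) (ind_le_one _)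

theorem sum_exp_ind (hw : IsW w) (P : α → Prop) (x : ℝ) :
    ∑ a, w a * Real.exp (x * ind (P a)) = 1 + wt w P * (Real.exp x - 1) := by
  have h : ∀ a, w a * Real.exp (x * ind (P a)) = w a + w a * ind (P a) * (Real.exp x - 1) := by
    intro a
    by_cases h : P a
    · rw [ind_pos h, mul_one]; ring
    · rw [ind_neg h]; simp
  simp only [h, sum_add_distrib, hw.sum_one, ← sum_mul, wt]

open scoped Classical in
/-- Exponential tail bound: few successes on `T` and many successes on a disjoint set `R`. -/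
theorem chernoff (hw : IsW w) (P₁ P₂ : α → Prop) {p₁ p₂ : ℝ} (h₁ : p₁ ≤ wt w P₁)
    (h₂ : wt w P₂ ≤ p₂) (T R : Finset ι) (hTR : Disjoint T R) {lam ν : ℝ} (hlam : 0 ≤ lam)
    (hν : 0 ≤ ν) (k m : ℝ) :
    Pr w (fun ω => ((T.filter fun i => P₁ (ω i)).card : ℝ) ≤ k ∧
        m ≤ ((R.filter fun i => P₂ (ω i)).card : ℝ)) ≤
      Real.exp (lam * k - T.card * p₁ * (1 - Real.exp (-lam)) - ν * m +
        R.card * p₂ * (Real.exp ν - 1)) := by
  let g : ι → α → ℝ := fun i a =>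
    if i ∈ T then Real.exp (-lam * ind (P₁ a)) else Real.exp (ν * ind (P₂ a))
  have hg : ∀ ω : ι → α, ∏ i ∈ T ∪ R, g i (ω i) =
      Real.exp (-lam * ((T.filter fun i => P₁ (ω i)).card : ℝ) +
        ν * ((R.filter fun i => P₂ (ω i)).card : ℝ)) := by
    intro ω
    rw [prod_union hTR, Real.exp_add, card_filter_eq_sum_ind, card_filter_eq_sum_ind, mul_sum,
      mul_sum, Real.exp_sum, Real.exp_sum]
    congr 1
    · exact prod_congr rfl fun i hi => if_pos hi
    · exact prod_congr rfl fun i hi => if_neg (disjoint_right.1 hTR hi)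
  have h3 : Pr w (fun ω => ((T.filter fun i => P₁ (ω i)).card : ℝ) ≤ k ∧
        m ≤ ((R.filter fun i => P₂ (ω i)).card : ℝ)) ≤
      Ex w fun ω => Real.exp (lam * k - ν * m) * ∏ i ∈ T ∪ R, g i (ω i) := by
    refine Pr_le_Ex hw (fun ω => ?_) fun ω h => ?_
    · rw [hg]; positivity
    · rw [hg, ← Real.exp_add]
      refine Real.one_le_exp ?_
      nlinarith [mul_le_mul_of_nonneg_left h.1 hlam, mul_le_mul_of_nonneg_left h.2 hν]
  refine h3.trans ?_
  rw [Ex_mul_left, Ex_prod hw, prod_union hTR]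
  have e1 : Real.exp (-lam) ≤ 1 := Real.exp_le_one_iff.2 (by linarith)
  have e2 : 1 ≤ Real.exp ν := Real.one_le_exp hν
  have hT : ∏ i ∈ T, ∑ a, w a * g i a ≤ Real.exp (-(T.card * p₁ * (1 - Real.exp (-lam)))) := by
    have h4 : ∀ i ∈ T, ∑ a, w a * g i a = 1 + wt w P₁ * (Real.exp (-lam) - 1) := by
      intro i hi
      simp only [g, if_pos hi]
      exact sum_exp_ind hw P₁ (-lam)
    rw [prod_congr rfl h4, prod_const]
    have h5 : 0 ≤ 1 + wt w P₁ * (Real.exp (-lam) - 1) := by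
      nlinarith [wt_le_one hw P₁, wt_nonneg hw P₁, Real.exp_pos (-lam)]
    have h6 : 1 + wt w P₁ * (Real.exp (-lam) - 1) ≤ Real.exp (-(p₁ * (1 - Real.exp (-lam)))) := by
      refine le_trans ?_ (Real.add_one_le_exp _)
      nlinarith
    refine (pow_le_pow_left₀ h5 h6 _).trans (le_of_eq ?_)
    rw [← Real.exp_nat_mul]
    congr 1
    ring
  have hR : ∏ i ∈ R, ∑ a, w a * g i a ≤ Real.exp (R.card * p₂ * (Real.exp ν - 1)) := by
    have h4 : ∀ i ∈ R, ∑ a, w a * g i a = 1 + wt w P₂ * (Real.exp ν - 1) := by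
      intro i hi
      simp only [g, if_neg (disjoint_right.1 hTR hi)]
      exact sum_exp_ind hw P₂ ν
    rw [prod_congr rfl h4, prod_const]
    have h5 : 0 ≤ 1 + wt w P₂ * (Real.exp ν - 1) := by
      nlinarith [wt_nonneg hw P₂]
    have h6 : 1 + wt w P₂ * (Real.exp ν - 1) ≤ Real.exp (p₂ * (Real.exp ν - 1)) := by
      refine le_trans ?_ (Real.add_one_le_exp _)
      nlinarith
    refine (pow_le_pow_left₀ h5 h6 _).trans (le_of_eq ?_)
    rw [← Real.exp_nat_mul]
    congr 1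
    ring
  have hT0 : 0 ≤ ∏ i ∈ R, ∑ a, w a * g i a :=
    prod_nonneg fun i _ => sum_nonneg fun a _ => mul_nonneg (hw.nonneg a) (by
      simp only [g]
      split_ifs <;> positivity)
  calc Real.exp (lam * k - ν * m) * ((∏ i ∈ T, ∑ a, w a * g i a) * ∏ i ∈ R, ∑ a, w a * g i a)
      ≤ Real.exp (lam * k - ν * m) * (Real.exp (-(T.card * p₁ * (1 - Real.exp (-lam)))) *
          Real.exp (R.card * p₂ * (Real.exp ν - 1))) :=
        mul_le_mul_of_nonneg_left (mul_le_mul hT hR hT0 (Real.exp_pos _).le) (Real.exp_pos _).le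
    _ = _ := by
        rw [← Real.exp_add, ← Real.exp_add]
        congr 1
        ring

open scoped Classical in
theorem chernoff_lower (hw : IsW w) (P : α → Prop) {p : ℝ} (h : p ≤ wt w P) (T : Finset ι)
    {lam : ℝ} (hlam : 0 ≤ lam) (k : ℝ) :
    Pr w (fun ω => ((T.filter fun i => P (ω i)).card : ℝ) ≤ k) ≤
      Real.exp (lam * k - T.card * p * (1 - Real.exp (-lam))) := by
  have h1 := chernoff hw P P h le_rfl T ∅ (disjoint_empty_right _) hlam le_rfl k 0
  simpa using h1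

open scoped Classical in
theorem chernoff_upper (hw : IsW w) (P : α → Prop) {p : ℝ} (h : wt w P ≤ p) (R : Finset ι)
    {ν : ℝ} (hν : 0 ≤ ν) (m : ℝ) :
    Pr w (fun ω => m ≤ ((R.filter fun i => P (ω i)).card : ℝ)) ≤
      Real.exp (R.card * p * (Real.exp ν - 1) - ν * m) := by
  have h1 := chernoff hw P P le_rfl h ∅ R (disjoint_empty_left _) le_rfl hν 0 m
  simp only [filter_empty, card_empty, Nat.cast_zero, le_refl, true_and] at h1
  refine h1.trans (le_of_eq ?_)
  congr 1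
  ring

theorem Pr_none (hw : IsW w) (P : α → Prop) (T : Finset ι) :
    Pr w (fun ω : ι → α => ∀ i ∈ T, ¬ P (ω i)) = (1 - wt w P) ^ T.card := by
  have h1 : ∀ ω : ι → α, ind (∀ i ∈ T, ¬ P (ω i)) = ∏ i ∈ T, ind (¬ P (ω i)) := by
    intro ω
    by_cases h : ∀ i ∈ T, ¬ P (ω i)
    · rw [ind_pos h, prod_eq_one fun i hi => ind_pos (h i hi)]
    · rw [ind_neg h]
      push Not at h
      obtain ⟨i, hi, h⟩ := h
      exact (prod_eq_zero hi (ind_neg (not_not.2 h))).symm
  unfold Pr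
  simp only [h1]
  rw [Ex_prod hw T fun _ a => ind (¬ P a), prod_const]
  congr 1
  simp only [ind_not, mul_sub, mul_one, sum_sub_distrib, hw.sum_one, wt]

theorem Pr_none_le (hw : IsW w) (P : α → Prop) {p : ℝ} (h : p ≤ wt w P) (T : Finset ι) :
    Pr w (fun ω : ι → α => ∀ i ∈ T, ¬ P (ω i)) ≤ Real.exp (-(T.card * p)) := by
  rw [Pr_none hw]
  have h1 : 1 - wt w P ≤ Real.exp (-p) := by
    linarith [Real.add_one_le_exp (-p)]
  refine (pow_le_pow_left₀ (by linarith [wt_le_one hw P]) h1 _).trans (le_of_eq ?_)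
  rw [← Real.exp_nat_mul]
  congr 1
  ring

end Pool.Agent.P.MP_11f821_pr
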