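import Pool.Agent.P.MP_11f821_pr.Dfs
import Pool.Agent.P.MP_11f821_pr.Prob

/-!
Deterministic construction of the initial cycle factor from pseudo-random properties.
-/

namespace Pool.Agent.P.MP_11f821_pr

open Finset Equiv Equiv.Perm

variable {V : Type*} [Fintype V] [DecidableEq V]

open scoped Classical in
/-- Number of arcs of `G` from `A` to `B`. -/
noncomputable def arcs (G : V → V → Prop) (A B : Finset V) : ℕ :=
  ((A ×ˢ B).filter fun e => G e.1 e.2).card

open scoped Classical in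
omit [Fintype V] [DecidableEq V] in
theorem le_arcs_left {G : V → V → Prop} {A B : Finset V} {ν : ℝ}
    (h : ∀ a ∈ A, ν ≤ (B.filter (G a)).card) : A.card * ν ≤ arcs G A B := by
  unfold arcs
  rw [card_filter_eq_sum_ind, sum_product, ← nsmul_eq_mul]
  refine (card_nsmul_le_sum _ _ _ h).trans (le_of_eq (sum_congr rfl fun a _ => ?_))
  exact card_filter_eq_sum_ind _ _

open scoped Classical in
omit [Fintype V] [DecidableEq V] in
theorem le_arcs_right {G : V → V → Prop} {A B : Finset V} {ν : ℝ}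
    (h : ∀ b ∈ B, ν ≤ (A.filter fun a => G a b).card) : B.card * ν ≤ arcs G A B := by
  unfold arcs
  rw [card_filter_eq_sum_ind, sum_product_right, ← nsmul_eq_mul]
  refine (card_nsmul_le_sum _ _ _ h).trans (le_of_eq (sum_congr rfl fun a _ => ?_))
  exact card_filter_eq_sum_ind _ _

/-- Equal or joined by an arc in one of the two directions. -/
def Nb (G : V → V → Prop) (x y : V) : Prop := x = y ∨ G x y ∨ G y x

omit [Fintype V] [DecidableEq V] in
theorem Nb.symm {G : V → V → Prop} {x y : V} (h : Nb G x y) : Nb G y x := by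
  unfold Nb at *
  tauto

omit [Fintype V] in
theorem arcs_insert {G : V → V → Prop} {Y : Finset V} {x y : V} (hx : x ∈ Y) (h : Nb G x y) :
    arcs G Y Y + (insert y Y).card ≤ arcs G (insert y Y) (insert y Y) + Y.card := by
  classical
  by_cases hy : y ∈ Y
  · rw [insert_eq_of_mem hy]
  obtain ⟨e, h1, h2, h3⟩ : ∃ e : V × V, e ∉ Y ×ˢ Y ∧ e ∈ insert y Y ×ˢ insert y Y ∧ G e.1 e.2 := by
    rcases h with rfl | h | h
    · exact absurd hx hy
    · exact ⟨(x, y), by simp [hy], by simp [hx], h⟩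
    · exact ⟨(y, x), by simp [hy], by simp [hx], h⟩
  rw [card_insert_of_notMem hy]
  have h4 : insert e ((Y ×ˢ Y).filter fun e => G e.1 e.2) ⊆
      (insert y Y ×ˢ insert y Y).filter fun e => G e.1 e.2 :=
    insert_subset (mem_filter.2 ⟨h2, h3⟩) (filter_subset_filter _
      (product_subset_product (subset_insert _ _) (subset_insert _ _)))
  have h5 := card_le_card h4
  rw [card_insert_of_notMem fun h => h1 (mem_filter.1 h).1] at h5
  unfold arcs
  convert Nat.add_le_add_right h5 Y.card using 1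
  · ring

open scoped Classical in
/-- Pseudo-random properties of a pair of subdigraphs `G ⊆ Gp` of `D`. -/
structure Quasi (D G Gp : V → V → Prop) (Z Sm : Finset V) (fo fi : V → V) (d μ ℓ M0 : ℕ)
    (ν : ℝ) : Prop where
  irr : ∀ v, ¬ Gp v v
  sub : ∀ u v, G u v → Gp u v
  hfo : ∀ v ∈ Sm, Gp v (fo v)
  hfi : ∀ v ∈ Sm, Gp (fi v) v
  dout : ∀ v, v ∉ Sm → d + 2 ≤ (univ.filter fun y => y ∉ Z ∧ G v y).card
  din : ∀ v, v ∉ Sm → d + 2 ≤ (univ.filter fun y => y ∉ Z ∧ G y v).card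
  dense : ∀ A B : Finset V, μ * ν ≤ arcs D A B → ∃ a ∈ A, ∃ b ∈ B, G a b
  sparse : ∀ A B : Finset V, A.Nonempty → A.card = B.card → A.card ≤ μ → arcs G A B < d * A.card
  sep : ∀ Y : Finset V, Y.card ≤ 5 → ∀ v ∈ Y, ∀ v' ∈ Y, v ∈ Sm → v' ∈ Sm → v ≠ v' →
    arcs Gp Y Y + 2 ≤ Y.card
  sep1 : ∀ v ∈ Sm, ∀ x, Gp v x → ¬ Gp x v
  cyc : (univ.filter fun v => ∃ Y : Finset V, v ∈ Y ∧ Y.card ≤ 3 * ℓ ∧ Y.card ≤ arcs Gp Y Y).card
    ≤ M0

namespace Quasi

variable {D G Gp : V → V → Prop} {Z Sm : Finset V} {fo fi : V → V} {d μ ℓ M0 : ℕ} {ν : ℝ}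
  (hQ : Quasi D G Gp Z Sm fo fi d μ ℓ M0 ν)
include hQ

theorem walk {v v' x a y : V} (hv : v ∈ Sm) (hv' : v' ∈ Sm) (h1 : Nb Gp v x) (h2 : Nb Gp x a)
    (h3 : Nb Gp a y) (h4 : Nb Gp y v') : v = v' := by
  by_contra hne
  have g1 := arcs_insert (mem_singleton_self v) h1
  have g2 := arcs_insert (Y := insert x {v}) (mem_insert_self _ _) h2
  have g3 := arcs_insert (Y := insert a (insert x {v})) (mem_insert_self _ _) h3
  have g4 := arcs_insert (Y := insert y (insert a (insert x {v}))) (mem_insert_self _ _) h4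
  have g5 := hQ.sep (insert v' (insert y (insert a (insert x {v})))) card_le_five v (by simp) v'
    (by simp) hv hv' hne
  rw [card_singleton] at g1
  omega

theorem fo_notMem {v : V} (hv : v ∈ Sm) : fo v ∉ Sm ∪ Sm.image fi := by
  have h1 := hQ.hfo v hv
  rw [mem_union, not_or]
  refine ⟨fun h => ?_, fun h => ?_⟩
  · have h2 := hQ.walk hv h (Or.inl rfl) (Or.inl rfl) (Or.inl rfl) (Or.inr (Or.inl h1))
    exact hQ.irr v (h2.symm ▸ h1 :)
  · obtain ⟨y, hy, h2⟩ := mem_image.1 h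
    have h3 := hQ.hfi y hy
    rw [h2] at h3
    have h4 := hQ.walk hv hy (Or.inl rfl) (Or.inl rfl) (Or.inr (Or.inl h1)) (Or.inr (Or.inl h3))
    exact hQ.sep1 v hv _ h1 (h4 ▸ h3)

theorem fi_notMem {v : V} (hv : v ∈ Sm) : fi v ∉ Sm := fun h => by
  have h1 := hQ.hfi v hv
  have h2 := hQ.walk h hv (Or.inl rfl) (Or.inl rfl) (Or.inl rfl) (Or.inr (Or.inl h1))
  exact hQ.irr v (h2 ▸ h1 :)

open scoped Classical in
theorem few_near {f : V → V} (hf : ∀ v ∈ Sm, Nb Gp v (f v)) (a : V) :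
    ((Sm ∪ Sm.image f).filter (Nb Gp a)).card ≤ 2 := by
  have h1 : ∀ y ∈ Sm ∪ Sm.image f, ∃ v ∈ Sm, Nb Gp v y ∧ y ∈ ({v, f v} : Finset V) := by
    intro y hy
    rcases mem_union.1 hy with hy | hy
    · exact ⟨y, hy, Or.inl rfl, by simp⟩
    · obtain ⟨v, hv, rfl⟩ := mem_image.1 hy
      exact ⟨v, hv, hf v hv, by simp⟩
  rcases ((Sm ∪ Sm.image f).filter (Nb Gp a)).eq_empty_or_nonempty with h | ⟨y₀, h⟩
  · rw [h]
    simp
  obtain ⟨h2, h3⟩ := mem_filter.1 h
  obtain ⟨v₀, h4, h5, -⟩ := h1 y₀ h2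
  refine (card_le_card fun y hy => ?_).trans (card_le_two (a := v₀) (b := f v₀))
  obtain ⟨h6, h7⟩ := mem_filter.1 hy
  obtain ⟨v, h8, h9, h10⟩ := h1 y h6
  rwa [hQ.walk h4 h8 h5 h3.symm h7 h9.symm]

open scoped Classical in
theorem hall {ε : ℝ} (hν : 0 ≤ ν)
    (hout : ∀ v, (1 / 2 + ε) * Fintype.card V ≤ (univ.filter (D v)).card)
    (hin : ∀ v, (1 / 2 + ε) * Fintype.card V ≤ (univ.filter fun u => D u v).card)
    {A₁ B₁ : Finset V} {r : ℕ} (hA : A₁.card = r) (hB : B₁.card = r)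
    (hA1 : Sm ⊆ A₁) (hA2 : A₁ ⊆ Z ∪ (Sm ∪ Sm.image fi))
    (hB1 : Sm ⊆ B₁) (hB2 : B₁ ⊆ Z ∪ (Sm ∪ Sm.image fo))
    (hr : ν + r / 2 ≤ ε * Fintype.card V) (A B : Finset V) (h1 : Disjoint A A₁)
    (h2 : Disjoint B B₁) (h3 : Fintype.card V < A.card + B.card + r) : ∃ a ∈ A, ∃ b ∈ B, G a b := by
  by_contra hno
  push Not at hno
  have hA3 := card_sdiff_add_card_eq_card (le_compl_iff_disjoint_right.2 h1 : A ⊆ A₁ᶜ)
  have hB3 := card_sdiff_add_card_eq_card (le_compl_iff_disjoint_right.2 h2 : B ⊆ B₁ᶜ)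
  have hr1 : r ≤ Fintype.card V := hA ▸ card_le_univ _
  rw [card_compl, hA] at hA3
  rw [card_compl, hB] at hB3
  have h3' : (Fintype.card V : ℝ) ≤ A.card + B.card + r := by exact_mod_cast h3.le
  by_cases h4 : A.card ≤ μ
  · obtain ⟨N, hN1, hN2⟩ := Finset.exists_superset_card_eq (s := B₁ᶜ \ B) (n := A.card) (by omega)
      (card_le_univ _)
    have h5 := hQ.sparse A N (card_pos.1 (by omega)) hN2.symm h4
    have h6 : (A.card : ℝ) * d ≤ arcs G A N := by
      refine le_arcs_left fun a ha => ?_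
      have h7 := hQ.dout a fun h => disjoint_left.1 h1 ha (hA1 h)
      have h8 := hQ.few_near (f := fo) (fun v hv => Or.inr (Or.inl (hQ.hfo v hv))) a
      have h9 : (univ.filter fun y => y ∉ Z ∧ G a y) ⊆
          N.filter (G a) ∪ (Sm ∪ Sm.image fo).filter (Nb Gp a) := by
        intro y hy
        obtain ⟨h10, h11⟩ := (mem_filter.1 hy).2
        by_cases h12 : y ∈ B₁
        · exact mem_union_right _ (mem_filter.2 ⟨(mem_union.1 (hB2 h12)).resolve_left h10,
            Or.inr (Or.inl (hQ.sub _ _ h11))⟩)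
        · exact mem_union_left _ (mem_filter.2
            ⟨hN1 (mem_sdiff.2 ⟨mem_compl.2 h12, fun h => hno a ha y h h11⟩), h11⟩)
      have h10 := (card_le_card h9).trans (card_union_le _ _)
      exact_mod_cast (by omega : d ≤ (N.filter (G a)).card)
    have h7 : A.card * d ≤ arcs G A N := by exact_mod_cast h6
    rw [mul_comm] at h7
    omega
  by_cases h4' : B.card ≤ μ
  · obtain ⟨N, hN1, hN2⟩ := Finset.exists_superset_card_eq (s := A₁ᶜ \ A) (n := B.card) (by omega)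
      (card_le_univ _)
    have h5 := hQ.sparse N B (card_pos.1 (by omega)) hN2 (by omega)
    have h6 : (B.card : ℝ) * d ≤ arcs G N B := by
      refine le_arcs_right fun b hb => ?_
      have h7 := hQ.din b fun h => disjoint_left.1 h2 hb (hB1 h)
      have h8 := hQ.few_near (f := fi) (fun v hv => Or.inr (Or.inr (hQ.hfi v hv))) b
      have h9 : (univ.filter fun y => y ∉ Z ∧ G y b) ⊆
          (N.filter fun y => G y b) ∪ (Sm ∪ Sm.image fi).filter (Nb Gp b) := by
        intro y hy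
        obtain ⟨h10, h11⟩ := (mem_filter.1 hy).2
        by_cases h12 : y ∈ A₁
        · exact mem_union_right _ (mem_filter.2 ⟨(mem_union.1 (hA2 h12)).resolve_left h10,
            Or.inr (Or.inr (hQ.sub _ _ h11))⟩)
        · exact mem_union_left _ (mem_filter.2
            ⟨hN1 (mem_sdiff.2 ⟨mem_compl.2 h12, fun h => hno y h b hb h11⟩), h11⟩)
      have h10 := (card_le_card h9).trans (card_union_le _ _)
      exact_mod_cast (by omega : d ≤ (N.filter fun y => G y b).card)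
    have h7 : B.card * d ≤ arcs G N B := by exact_mod_cast h6
    rw [hN2, mul_comm] at h5
    omega
  have h5 : μ * ν ≤ arcs D A B := by
    rcases le_total A.card B.card with h5 | h5
    · have h6 : (A.card : ℝ) ≤ B.card := by exact_mod_cast h5
      refine le_trans (mul_le_mul_of_nonneg_right (by exact_mod_cast (not_le.1 h4).le) hν)
        (le_arcs_left fun a _ => ?_)
      have h7 := Ctx.card_inter_ge B (univ.filter (D a))
      rw [inter_filter, inter_univ] at h7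
      linarith [hout a]
    · have h6 : (B.card : ℝ) ≤ A.card := by exact_mod_cast h5
      refine le_trans (mul_le_mul_of_nonneg_right (by exact_mod_cast (not_le.1 h4').le) hν)
        (le_arcs_right fun b _ => ?_)
      have h7 := Ctx.card_inter_ge A (univ.filter fun u => D u b)
      rw [inter_filter, inter_univ] at h7
      linarith [hin b]
  obtain ⟨a, ha, b, hb, hab⟩ := hQ.dense A B h5
  exact hno a ha b hb hab

open scoped Classical in
theorem path [Nonempty V] (hν : 0 ≤ ν) (z : V → ℕ) (k : ℕ) {g₁ g₂ : ℝ}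
    (hg₁ : ∀ t, ∀ i < k, g₁ ≤ (univ.filter fun y => z y = i ∧ D t y).card)
    (hg₂ : ∀ t, ∀ i < k, ((univ.filter fun y => z y = i ∧ ¬ D t y).card : ℝ) ≤ g₂)
    (hk : 0 < k) {dom : ℕ} (X : Finset V) (hdom : dom + g₂ + ν + X.card + k * μ ≤ g₁) :
    ∃ (m : ℕ) (q : ℕ → V), IsPath G z X (k - 1) m q ∧ ∀ t, ∀ i < k,
      dom ≤ ((range m).filter fun j => z (q j) = i ∧ D t (q j)).card := by
  have hg : 0 ≤ g₂ := (Nat.cast_nonneg _).trans (hg₂ (Classical.arbitrary V) 0 hk)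
  obtain ⟨m, q, h1, h2⟩ := dfs (G := G) (z := z) (X := X) (μ := μ) (θ := g₂ + ν) (by linarith) k
    fun i hi S T hS hT hθ => hQ.dense S T (le_trans
      (mul_le_mul_of_nonneg_right (by exact_mod_cast hS) hν) (le_arcs_left fun a _ => by
        have h1 := card_filter_add_card_filter_not (s := T) (D a)
        have h2 : (T.filter fun y => ¬ D a y).card ≤
            (univ.filter fun y => z y = i ∧ ¬ D a y).card := card_le_card fun y hy =>
          mem_filter.2 ⟨mem_univ _, hT y (mem_filter.1 hy).1, (mem_filter.1 hy).2⟩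
        have h3 : (T.card : ℝ) ≤ (T.filter (D a)).card +
            (univ.filter fun y => z y = i ∧ ¬ D a y).card := by
          exact_mod_cast (by omega : T.card ≤ _ + _)
        linarith [hg₂ a i hi]))
  refine ⟨m, q, h1, fun t i hi => ?_⟩
  have h3 : (univ.filter fun y => z y = i ∧ D t y) ⊆
      ((range m).filter fun j => z (q j) = i ∧ D t (q j)).image q ∪
        (univ.filter fun y => z y = i) \ (range m).image q := by
    intro y hy
    obtain ⟨h4, h5⟩ := (mem_filter.1 hy).2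
    by_cases h6 : y ∈ (range m).image q
    · obtain ⟨j, hj, rfl⟩ := mem_image.1 h6
      exact mem_union_left _ (mem_image_of_mem _ (mem_filter.2 ⟨hj, h4, h5⟩))
    · exact mem_union_right _ (mem_sdiff.2 ⟨mem_filter.2 ⟨mem_univ _, h4⟩, h6⟩)
  have h4 := (card_le_card h3).trans ((card_union_le _ _).trans
    (Nat.add_le_add_right card_image_le _))
  have h5 : ((univ.filter fun y => z y = i ∧ D t y).card : ℝ) ≤
      ((range m).filter fun j => z (q j) = i ∧ D t (q j)).card +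
        ((univ.filter fun y => z y = i) \ (range m).image q).card := by exact_mod_cast h4
  have h6 : (dom : ℝ) ≤ ((range m).filter fun j => z (q j) = i ∧ D t (q j)).card := by
    linarith [h2 i hi, hg₁ t i hi]
  exact_mod_cast h6

open scoped Classical in
theorem factor {ε : ℝ} (hν : 0 ≤ ν)
    (hout : ∀ v, (1 / 2 + ε) * Fintype.card V ≤ (univ.filter (D v)).card)
    (hin : ∀ v, (1 / 2 + ε) * Fintype.card V ≤ (univ.filter fun u => D u v).card)
    (hr : ν + (Z.card + 2 * Sm.card) / 2 ≤ ε * Fintype.card V) {z : V → ℕ} {i m : ℕ} {q : ℕ → V}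
    (hP : IsPath G z (Sm ∪ Sm.image fo ∪ Sm.image fi) i m q) (hZ : ∀ v, z v ≤ i → v ∈ Z) :
    ∃ F : Perm V, (∀ j, j < m → F (q j) = q ((j + 1) % m)) ∧ (∀ v ∈ Sm, F v = fo v) ∧
      (∀ v ∈ Sm, F (fi v) = v) ∧ ∀ v, F v ≠ q 0 →
        G v (F v) ∨ (v ∈ Sm ∧ F v = fo v) ∨ (F v ∈ Sm ∧ v = fi (F v)) := by
  set M : Finset (V × V) := (range m).image (fun j => (q j, q ((j + 1) % m))) ∪
    Sm.image (fun v => (v, fo v)) ∪ Sm.image (fun v => (fi v, v)) with hM
  have hM1 : ∀ e ∈ M, (∃ j < m, e = (q j, q ((j + 1) % m))) ∨ (∃ v ∈ Sm, e = (v, fo v)) ∨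
      ∃ v ∈ Sm, e = (fi v, v) := by
    intro e he
    simp only [hM, mem_union, mem_image, mem_range] at he
    rcases he with (⟨j, h1, h2⟩ | ⟨j, h1, h2⟩) | ⟨j, h1, h2⟩
    · exact Or.inl ⟨j, h1, h2.symm⟩
    · exact Or.inr (Or.inl ⟨j, h1, h2.symm⟩)
    · exact Or.inr (Or.inr ⟨j, h1, h2.symm⟩)
  have hq : ∀ j < m, ∀ v ∈ Sm, q j ≠ v ∧ q j ≠ fo v ∧ q j ≠ fi v := by
    intro j hj v hv
    have h1 := hP.notMem j hj
    simp only [mem_union, not_or] at h1
    exact ⟨fun h => h1.1.1 (h ▸ hv), fun h => h1.1.2 (h ▸ mem_image_of_mem _ hv),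
      fun h => h1.2 (h ▸ mem_image_of_mem _ hv)⟩
  have hmod : ∀ j < m, (j + 1) % m < m := fun j hj => Nat.mod_lt _ (by omega)
  have hfo : ∀ v ∈ Sm, ∀ v' ∈ Sm, fo v ≠ v' := fun v hv v' hv' h =>
    hQ.fo_notMem hv (mem_union_left _ (h ▸ hv'))
  have hfi : ∀ v ∈ Sm, ∀ v' ∈ Sm, fi v ≠ v' := fun v hv v' hv' h => hQ.fi_notMem hv (h ▸ hv')
  have h1 : Set.InjOn Prod.fst (M : Set (V × V)) := by
    intro e he e' he' h
    rcases hM1 e he with ⟨j, hj, rfl⟩ | ⟨v, hv, rfl⟩ | ⟨v, hv, rfl⟩ <;>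
      rcases hM1 e' he' with ⟨j', hj', rfl⟩ | ⟨v', hv', rfl⟩ | ⟨v', hv', rfl⟩
    · rw [hP.inj j j' hj hj' h]
    · exact absurd h (hq j hj v' hv').1
    · exact absurd h (hq j hj v' hv').2.2
    · exact absurd h.symm (hq j' hj' v hv).1
    · rw [show v = v' from h]
    · exact absurd h.symm (hfi v' hv' v hv)
    · exact absurd h.symm (hq j' hj' v hv).2.2
    · exact absurd h (hfi v hv v' hv')
    · rw [hQ.walk hv hv' (Or.inr (Or.inr (hQ.hfi v hv))) (Or.inl h) (Or.inl rfl)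
        (Or.inr (Or.inl (hQ.hfi v' hv')))]
  have h2 : Set.InjOn Prod.snd (M : Set (V × V)) := by
    intro e he e' he' h
    rcases hM1 e he with ⟨j, hj, rfl⟩ | ⟨v, hv, rfl⟩ | ⟨v, hv, rfl⟩ <;>
      rcases hM1 e' he' with ⟨j', hj', rfl⟩ | ⟨v', hv', rfl⟩ | ⟨v', hv', rfl⟩
    · have h3 := hP.inj _ _ (hmod j hj) (hmod j' hj') h
      have h4 : j = j' := by
        have h5 := Nat.ModEq.add_right_cancel' 1 h3
        exact Nat.ModEq.eq_of_lt_of_lt h5 hj hj'
      rw [h4]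
    · exact absurd h (hq _ (hmod j hj) v' hv').2.1
    · exact absurd h (hq _ (hmod j hj) v' hv').1
    · exact absurd h.symm (hq _ (hmod j' hj') v hv).2.1
    · rw [hQ.walk hv hv' (Or.inr (Or.inl (hQ.hfo v hv))) (Or.inl h) (Or.inl rfl)
        (Or.inr (Or.inr (hQ.hfo v' hv')))]
    · exact absurd h (hfo v hv v' hv')
    · exact absurd h.symm (hq _ (hmod j' hj') v hv).1
    · exact absurd h.symm (hfo v' hv' v hv)
    · rw [show v = v' from h]
  have h3 : (M.card : ℝ) ≤ Z.card + 2 * Sm.card := by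
    have h4 : m ≤ Z.card := by
      rw [← hP.card_image]
      refine card_le_card fun y hy => ?_
      obtain ⟨j, hj, rfl⟩ := mem_image.1 hy
      exact hZ _ (hP.le j (mem_range.1 hj))
    have h5 : M.card ≤ (range m).card + Sm.card + Sm.card := (card_union_le _ _).trans
      (add_le_add ((card_union_le _ _).trans (add_le_add card_image_le card_image_le))
        card_image_le)
    rw [card_range] at h5
    exact_mod_cast (by omega : M.card ≤ Z.card + 2 * Sm.card)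
  have g1 : ∀ j < m, (q j, q ((j + 1) % m)) ∈ M := fun j hj => mem_union_left _
    (mem_union_left _ (mem_image_of_mem (fun j => (q j, q ((j + 1) % m))) (mem_range.2 hj)))
  have g2 : ∀ v ∈ Sm, (v, fo v) ∈ M := fun v hv => mem_union_left _
    (mem_union_right _ (mem_image_of_mem (fun v => (v, fo v)) hv))
  have g3 : ∀ v ∈ Sm, (fi v, v) ∈ M := fun v hv =>
    mem_union_right _ (mem_image_of_mem (fun v => (fi v, v)) hv)
  obtain ⟨F, hF1, hF2⟩ := hall_extend M h1 h2 G (hQ.hall hν hout hin (card_image_of_injOn h1)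
    (card_image_of_injOn h2) (fun v hv => mem_image_of_mem Prod.fst (g2 v hv)) (fun y hy => by
      obtain ⟨e, he, rfl⟩ := mem_image.1 hy
      rcases hM1 e he with ⟨j, hj, rfl⟩ | ⟨v, hv, rfl⟩ | ⟨v, hv, rfl⟩
      · exact mem_union_left _ (hZ _ (hP.le j hj))
      · exact mem_union_right _ (mem_union_left _ hv)
      · exact mem_union_right _ (mem_union_right _ (mem_image_of_mem _ hv)))
    (fun v hv => mem_image_of_mem Prod.snd (g3 v hv)) (fun y hy => by
      obtain ⟨e, he, rfl⟩ := mem_image.1 hy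
      rcases hM1 e he with ⟨j, hj, rfl⟩ | ⟨v, hv, rfl⟩ | ⟨v, hv, rfl⟩
      · exact mem_union_left _ (hZ _ (hP.le _ (hmod j hj)))
      · exact mem_union_right _ (mem_union_right _ (mem_image_of_mem _ hv))
      · exact mem_union_right _ (mem_union_left _ hv)) (by linarith))
  refine ⟨F, fun j hj => hF1 _ (g1 j hj), fun v hv => hF1 _ (g2 v hv),
    fun v hv => hF1 _ (g3 v hv), fun v hv => ?_⟩
  rcases hF2 v with h | h
  · rcases hM1 _ h with ⟨j, hj, h4⟩ | ⟨u, hu, h4⟩ | ⟨u, hu, h4⟩ <;>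
      obtain ⟨h5, h6⟩ := Prod.mk.inj h4
    · rcases (Nat.succ_le_of_lt hj).eq_or_lt with h7 | h7
      · rw [h6, ← h7, Nat.mod_self] at hv
        exact absurd rfl hv
      · rw [h6, h5, Nat.mod_eq_of_lt h7]
        exact Or.inl (hP.arc j h7)
    · exact Or.inr (Or.inl ⟨h5 ▸ hu, by rw [h6, h5]⟩)
    · exact Or.inr (Or.inr ⟨h6 ▸ hu, by rw [h6, h5]⟩)
  · exact Or.inl h

theorem orb_le {F : Perm V} (h1 : ∀ v ∈ Sm, F v = fo v) (h2 : ∀ v ∈ Sm, F (fi v) = v) (v : V) :
    (orb F v).card ≤ 3 * (orb F v \ (Sm ∪ Sm.image fi)).card := by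
  set Y := orb F v \ (Sm ∪ Sm.image fi) with hY
  have h3 : orb F v ⊆ Y ∪ Y.image (F⁻¹ : Perm V) ∪ Y.image fun u => F⁻¹ (F⁻¹ u) := by
    intro u hu
    have h4 : ∀ u ∈ orb F v, F u ∈ orb F v := fun u hu =>
      mem_orb.2 ((mem_orb.1 hu).trans (sameCycle_step F u))
    by_cases h5 : u ∈ Sm ∪ Sm.image fi
    · rcases mem_union.1 h5 with h5 | h5
      · refine mem_union_left _ (mem_union_right _ (mem_image.2 ⟨F u, ?_, by simp⟩))
        exact mem_sdiff.2 ⟨h4 u hu, h1 u h5 ▸ hQ.fo_notMem h5⟩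
      · obtain ⟨y, hy, rfl⟩ := mem_image.1 h5
        refine mem_union_right _ (mem_image.2 ⟨F (F (fi y)), ?_, by simp⟩)
        refine mem_sdiff.2 ⟨h4 _ (h4 _ hu), ?_⟩
        rw [h2 y hy, h1 y hy]
        exact hQ.fo_notMem hy
    · exact mem_union_left _ (mem_union_left _ (mem_sdiff.2 ⟨hu, h5⟩))
  have h4 := (card_le_card h3).trans ((card_union_le _ _).trans (add_le_add
    ((card_union_le _ _).trans (add_le_add le_rfl card_image_le)) card_image_le))
  omega

open scoped Classical in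
theorem build [Nonempty V] {ε : ℝ} (hν : 0 ≤ ν)
    (hout : ∀ v, (1 / 2 + ε) * Fintype.card V ≤ (univ.filter (D v)).card)
    (hin : ∀ v, (1 / 2 + ε) * Fintype.card V ≤ (univ.filter fun u => D u v).card)
    (hr : ν + (Z.card + 2 * Sm.card) / 2 ≤ ε * Fintype.card V) (z : V → ℕ) (k : ℕ)
    (hZ : ∀ v, z v ≤ k → v ∈ Z) {g₁ g₂ : ℝ}
    (hg₁ : ∀ t, ∀ i ≤ k, g₁ ≤ (univ.filter fun y => z y = i ∧ D t y).card)
    (hg₂ : ∀ t, ∀ i ≤ k, ((univ.filter fun y => z y = i ∧ ¬ D t y).card : ℝ) ≤ g₂)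
    {dom : ℕ} (hdom0 : 0 < dom) (hdom : dom + g₂ + ν + 3 * Sm.card + (k + 1) * μ ≤ g₁) :
    ∃ (F : Perm V) (q : ℕ → V) (m : ℕ) (X0 : Finset V), m ≤ Z.card ∧
      (∀ i j, i < m → j < m → q i = q j → i = j) ∧ (∀ j, j + 1 < m → F (q j) = q (j + 1)) ∧
      (∀ i j, i ≤ j → j < m → z (q i) ≤ z (q j)) ∧
      (∀ t i, i ≤ k → dom ≤ ((range m).filter fun j => z (q j) = i ∧ D t (q j)).card) ∧
      X0.card ≤ 2 * Sm.card ∧ F⁻¹ (q 0) ∉ X0 ∧
      (∀ v, ¬ F.SameCycle (q 0) v → (orb F v \ X0).Nonempty) ∧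
      (univ.filter fun v => ¬ F.SameCycle (q 0) v ∧ (orb F v \ X0).card < ℓ).card ≤ M0 ∧
      Sm ⊆ X0 ∧ (∀ v ∈ Sm, F⁻¹ v ∈ X0) ∧ ∀ v, F v ≠ q 0 →
        G v (F v) ∨ (v ∈ Sm ∧ F v = fo v) ∨ (F v ∈ Sm ∧ v = fi (F v)) := by
  have hX : ((Sm ∪ Sm.image fo ∪ Sm.image fi).card : ℝ) ≤ 3 * Sm.card := by
    have h1 : (Sm ∪ Sm.image fo ∪ Sm.image fi).card ≤ Sm.card + Sm.card + Sm.card :=
      (card_union_le _ _).trans (add_le_add ((card_union_le _ _).trans
        (add_le_add le_rfl card_image_le)) card_image_le)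
    exact_mod_cast (by omega : _ ≤ 3 * Sm.card)
  obtain ⟨m, q, hP, hD⟩ := hQ.path hν z (k + 1) (fun t i hi => hg₁ t i (by omega))
    (fun t i hi => hg₂ t i (by omega)) (Nat.succ_pos k) (dom := dom)
    (Sm ∪ Sm.image fo ∪ Sm.image fi) (by push_cast; linarith)
  obtain ⟨F, h1, h2, h3, h4⟩ := hQ.factor hν hout hin hr hP hZ
  have hm : 0 < m := by
    have h5 := (hD (q 0) 0 (Nat.succ_pos k)).trans (card_filter_le _ _)
    rw [card_range] at h5
    omega
  refine ⟨F, q, m, Sm ∪ Sm.image fi, ?_, hP.inj, fun j hj => ?_, hP.mono,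
    fun t i hi => hD t i (by omega), ?_, ?_, fun v _ => ?_, le_trans (card_le_card ?_) hQ.cyc,
    subset_union_left, fun v hv => ?_, h4⟩
  · rw [← hP.card_image]
    refine card_le_card fun y hy => ?_
    obtain ⟨j, hj, rfl⟩ := mem_image.1 hy
    exact hZ _ (hP.le j (mem_range.1 hj))
  · rw [h1 j (by omega), Nat.mod_eq_of_lt hj]
  · have := (card_union_le Sm (Sm.image fi)).trans (add_le_add le_rfl card_image_le)
    omega
  · have h5 := h1 (m - 1) (by omega)
    rw [Nat.sub_add_cancel hm, Nat.mod_self] at h5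
    rw [← h5]
    have h6 := hP.notMem (m - 1) (by omega)
    simp only [mem_union, not_or, Perm.coe_inv, symm_apply_apply] at h6 ⊢
    exact ⟨h6.1.1, h6.2⟩
  · have h5 := hQ.orb_le h2 h3 v
    have h6 := card_pos.2 ⟨v, self_mem_orb F v⟩
    exact card_pos.1 (by omega)
  · intro v hv
    obtain ⟨h5, h6⟩ := (mem_filter.1 hv).2
    have h7 := hQ.orb_le h2 h3 v
    refine mem_filter.2 ⟨mem_univ _, orb F v, self_mem_orb F v, by omega, ?_⟩
    refine card_le_card_of_injOn (fun u => (u, F u)) (fun u hu => ?_)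
      fun a _ b _ h => (Prod.mk.inj h).1
    have h8 : F.SameCycle v (F u) := (mem_orb.1 (mem_coe.1 hu)).trans (sameCycle_step F u)
    refine mem_coe.2 (mem_filter.2 ⟨mem_product.2 ⟨mem_coe.1 hu, mem_orb.2 h8⟩, ?_⟩)
    rcases h4 u (fun h => h5 (h ▸ h8.symm)) with h9 | ⟨h9, h10⟩ | ⟨h9, h10⟩
    · exact hQ.sub _ _ h9
    · have h11 := hQ.hfo u h9
      rwa [← h10] at h11
    · have h11 := hQ.hfi _ h9
      rwa [← h10] at h11
  · refine mem_union_right _ (mem_image.2 ⟨v, hv, ?_⟩)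
    rw [Perm.eq_inv_iff_eq]
    exact h3 v hv

end Quasi

end Pool.Agent.P.MP_11f821_pr
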