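import Pool.Agent.P.MP_11f821_pr.Machine

/-!
The main stage of the exposure process: all short cycles are absorbed.
-/

namespace Pool.Agent.P.MP_11f821_pr

open Finset Equiv Equiv.Perm

namespace PCtx

variable {V : Type*} [Fintype V] [DecidableEq V] {α : Type*} [Fintype α] (c : PCtx V α)

/-- Positions of the main stage with at most `k` unused short cycles, all inside `W`. -/
def PosA (W : Finset V) (k : ℕ) (σ : Perm V) : Prop :=
  ∃ U ⊆ W, c.Valid σ U ∧ c.lev U ≤ k ∧ (c.lev U = k → c.Rich σ U)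

theorem PosA.mono {c : PCtx V α} {W : Finset V} {k k' : ℕ} {σ : Perm V} (h : c.PosA W k σ)
    (hk : k ≤ k') : c.PosA W k' σ := by
  obtain ⟨U, h1, h2, h3, h4⟩ := h
  exact ⟨U, h1, h2, h3.trans hk, fun h5 => h4 (by omega)⟩

/-- Potential for repeated failures on one short cycle. -/
noncomputable def Φ (X W : Finset V) : ℝ :=
  ∑ v ∈ W, c.β ^ (c.hh v - (orb c.F v ∩ (X \ c.X0)).card)

theorem Φ_nonneg (X W : Finset V) : 0 ≤ c.Φ X W :=
  sum_nonneg fun _ _ => pow_nonneg c.β_pos.le _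

theorem one_le_Φ {X W : Finset V} {v : V} (hv : v ∈ W)
    (h : c.hh v ≤ (orb c.F v ∩ (X \ c.X0)).card) : 1 ≤ c.Φ X W := by
  have h1 := single_le_sum (f := fun v => c.β ^ (c.hh v - (orb c.F v ∩ (X \ c.X0)).card))
    (fun _ _ => pow_nonneg c.β_pos.le _) hv
  rwa [Nat.sub_eq_zero_of_le h, pow_zero] at h1

theorem Φ_step {X W U : Finset V} {σ : Perm V} (hV : c.Valid σ U) (hU : U ⊆ W)
    (hX : ∀ v ∈ W, (orb c.F v ∩ (X \ c.X0)).card < c.hh v) :
    ∃ A B : ℝ, 0 ≤ B ∧ A + c.β * B ≤ c.Φ X W ∧ c.Φ (insert (σ⁻¹ c.s) X) U ≤ A ∧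
      c.Φ (insert (σ⁻¹ c.s) X) W ≤ A + B := by
  have hb := c.β_pos
  have hsame : ∀ v, σ⁻¹ c.s ∉ orb c.F v →
      orb c.F v ∩ (insert (σ⁻¹ c.s) X \ c.X0) = orb c.F v ∩ (X \ c.X0) := by
    intro v hv
    ext u
    simp only [mem_inter, mem_sdiff, mem_insert]
    constructor
    · rintro ⟨h1, h2 | h2, h3⟩
      · exact absurd (h2 ▸ h1) hv
      · exact ⟨h1, h2, h3⟩
    · rintro ⟨h1, h2, h3⟩
      exact ⟨h1, Or.inr h2, h3⟩
  refine ⟨∑ v ∈ W.filter fun v => ¬ σ⁻¹ c.s ∈ orb c.F v,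
      c.β ^ (c.hh v - (orb c.F v ∩ (X \ c.X0)).card),
    ∑ v ∈ W.filter fun v => σ⁻¹ c.s ∈ orb c.F v,
      c.β ^ (c.hh v - (orb c.F v ∩ (insert (σ⁻¹ c.s) X \ c.X0)).card),
    sum_nonneg fun _ _ => by positivity, ?_, ?_, ?_⟩
  · unfold Φ
    rw [← sum_filter_add_sum_filter_not W fun v => σ⁻¹ c.s ∈ orb c.F v, add_comm, mul_sum]
    refine add_le_add_left (sum_le_sum fun v hv => ?_) _
    rw [← pow_succ']
    refine pow_le_pow_of_le_one hb.le (by linarith [c.hβ2]) ?_
    have h1 : (orb c.F v ∩ (insert (σ⁻¹ c.s) X \ c.X0)).card ≤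
        (orb c.F v ∩ (X \ c.X0)).card + 1 := by
      refine le_trans (card_le_card fun u hu => ?_) (card_insert_le (σ⁻¹ c.s) _)
      simp only [mem_inter, mem_sdiff, mem_insert] at hu ⊢
      tauto
    omega
  · unfold Φ
    have h1 : ∀ v ∈ U, σ⁻¹ c.s ∉ orb c.F v := fun v hv h =>
      hV.end_notMem (hV.closed hv (mem_orb.1 h))
    rw [sum_congr rfl fun v hv => by rw [hsame v (h1 v hv)]]
    exact sum_le_sum_of_subset_of_nonneg (fun v hv => mem_filter.2 ⟨hU hv, h1 v hv⟩)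
      fun _ _ _ => by positivity
  · unfold Φ
    rw [← sum_filter_add_sum_filter_not W fun v => σ⁻¹ c.s ∈ orb c.F v, add_comm]
    refine add_le_add_left (le_of_eq (sum_congr rfl fun v hv => ?_)) _
    rw [hsame v (mem_filter.1 hv).2]

theorem poolA_update {X W U Y : Finset V} {ω : V × V → α} {σ : Perm V} {k : ℕ}
    (hP : c.Stock X ω (c.PosA W k) Y) (hY : Y.card ≤ c.h) (hX0 : c.X0 ⊆ X)
    (hc : X.card + 1 ≤ c.B) (hV : c.Valid σ U) (hU : U ⊆ W) (hk : c.lev U ≤ k)
    (hR : c.Real X ω σ) (ht : σ⁻¹ c.s ∉ X)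
    (hX : ∀ v ∈ W, (orb c.F v ∩ (X \ c.X0)).card < c.hh v) :
    ∃ (S : (V × V → α) → Prop) (Y' W' : (V × V → α) → Finset V),
      Pr c.w (fun x => ¬ S x) ≤ 1 / 2 ∧
      Ex c.w (fun x => c.β ^ (Y' x).card + c.Φ (insert (σ⁻¹ c.s) X) (W' x)) ≤
        c.β ^ Y.card + c.β ^ c.h + c.Φ X W ∧
      ∀ x, (Y' x).card ≤ c.h ∧ U ⊆ W' x ∧
        c.Stock (insert (σ⁻¹ c.s) X) (pw X ω x) (c.PosA (W' x) k) (Y' x) ∧
        (S x → c.Stock (insert (σ⁻¹ c.s) X) (pw X ω x) (c.PosA (W' x) (c.lev U)) (Y' x)) := by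
  classical
  have hb := c.β_pos
  have h5 := c.expose_opt hV.opt hR hX0 ht hc
  obtain ⟨A, B, hB, hAB, hA1, hA2⟩ := c.Φ_step hV hU hX
  let S : (V × V → α) → Prop := fun x => ∃ Y : Finset V, Y.card = c.h ∧
    c.Stock (insert (σ⁻¹ c.s) X) (pw X ω x) (fun τ => ∃ U' ⊆ U, c.Valid τ U' ∧ c.Rich τ U') Y
  refine ⟨S, fun x => if hx : S x then hx.choose else Y.erase (σ⁻¹ c.s),
    fun x => if S x then U else W, h5.trans c.hβ2, ?_, fun x => ?_⟩
  · calc _ ≤ Ex c.w fun x => ind (¬ S x) * (c.β ^ (Y.erase (σ⁻¹ c.s)).card + B) +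
          (c.β ^ c.h + A) := by
          refine Ex_mono c.hw fun x => ?_
          beta_reduce
          by_cases hx : S x
          · rw [dif_pos hx, if_pos hx, hx.choose_spec.1, ind_neg (not_not.2 hx)]
            linarith
          · rw [dif_neg hx, if_neg hx, ind_pos hx, one_mul]
            have : 0 ≤ c.β ^ c.h := by positivity
            linarith
      _ ≤ _ := by
          rw [Ex_add, Ex_const c.hw, Ex_mul_right]
          have h6 : Ex c.w (fun x => ind (¬ S x)) * (c.β ^ (Y.erase (σ⁻¹ c.s)).card + B) ≤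
              c.β * (c.β ^ (Y.erase (σ⁻¹ c.s)).card + B) :=
            mul_le_mul_of_nonneg_right h5 (by positivity)
          have h7 := c.pow_erase_le Y (σ⁻¹ c.s)
          linarith
  · by_cases hx : S x
    · simp only [dif_pos hx, if_pos hx]
      have h6 : c.Stock (insert (σ⁻¹ c.s) X) (pw X ω x) (c.PosA U (c.lev U)) hx.choose := by
        refine hx.choose_spec.2.imp ?_
        rintro τ ⟨U', h6, h7, h8⟩
        exact ⟨U', h6, h7, c.lev_mono h6, fun _ => h8⟩
      exact ⟨hx.choose_spec.1.le, Subset.rfl, h6.imp fun τ h7 => h7.mono hk, fun _ => h6⟩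
    · simp only [dif_neg hx, if_neg hx]
      exact ⟨card_erase_le.trans hY, hU, hP.erase _ x, fun h => absurd h hx⟩

/-- Lower bound for the expected number of arcs into unused short cycles. -/
noncomputable def u (k : ℕ) : ℝ := c.p * (c.ε / 8 * max (k : ℝ) (c.ℓ * ((k : ℝ) - c.M0)))

/-- Decay rate of the time potential. -/
noncomputable def θ : ℝ := c.p * c.ε / 128

/-- Expected time bound. -/
noncomputable def S (k : ℕ) : ℝ := ∑ j ∈ range k, (1 + 1 / c.u (j + 1))

/-- Time potential. -/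
noncomputable def G (k : ℕ) : ℝ := Real.exp (8 * c.θ * c.S k)

theorem θ_pos : 0 < c.θ := by
  have := c.ppos
  have := c.hε
  unfold θ
  positivity

theorem u_ge (k : ℕ) : c.p * c.ε / 8 ≤ c.u (k + 1) := by
  have h1 : (1 : ℝ) ≤ max ((k + 1 : ℕ) : ℝ) (c.ℓ * (((k + 1 : ℕ) : ℝ) - c.M0)) :=
    le_max_of_le_left (by exact_mod_cast Nat.succ_le_succ (Nat.zero_le k))
  have h2 := mul_pos c.ppos c.hε
  unfold u
  nlinarith

theorem u_pos (k : ℕ) : 0 < c.u (k + 1) :=
  lt_of_lt_of_le (by have := mul_pos c.ppos c.hε; linarith) (c.u_ge k)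

theorem x_le (k : ℕ) : c.θ * (1 + 1 / c.u (k + 1)) ≤ 1 / 8 := by
  have h2 := mul_pos c.ppos c.hε
  have h1 : 1 / c.u (k + 1) ≤ 1 / (c.p * c.ε / 8) :=
    one_div_le_one_div_of_le (by linarith) (c.u_ge k)
  have h3 : c.θ * (1 / (c.p * c.ε / 8)) = 1 / 16 := by
    have := c.ppos.ne'
    have := c.hε.ne'
    unfold θ
    field_simp
    ring
  have h4 := mul_le_mul_of_nonneg_left h1 c.θ_pos.le
  have h5 : c.θ ≤ 1 / 128 := by
    unfold θ
    nlinarith [c.p_le_one, c.hε1, c.ppos, c.hε]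
  linarith

theorem θ_le_x (k : ℕ) : c.θ ≤ c.θ * (1 + 1 / c.u (k + 1)) := by
  have h1 := c.u_pos k
  have h2 : 0 ≤ 1 / c.u (k + 1) := by positivity
  nlinarith [c.θ_pos]

theorem one_le_G (k : ℕ) : 1 ≤ c.G k := by
  refine Real.one_le_exp (mul_nonneg (by linarith [c.θ_pos]) (sum_nonneg fun j _ => ?_))
  have := c.u_pos j
  positivity

theorem G_le (k : ℕ) : c.G k ≤ c.G (k + 1) * (1 - 4 * (c.θ * (1 + 1 / c.u (k + 1)))) := by
  have h1 := c.x_le k
  have h2 := (c.θ_pos.le.trans (c.θ_le_x k))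
  have h3 : c.G (k + 1) = c.G k * Real.exp (8 * (c.θ * (1 + 1 / c.u (k + 1)))) := by
    unfold G S
    rw [sum_range_succ, ← Real.exp_add]
    congr 1
    ring
  rw [h3, mul_assoc]
  refine le_mul_of_one_le_right (by linarith [c.one_le_G k]) ?_
  have h4 := Real.add_one_le_exp (8 * (c.θ * (1 + 1 / c.u (k + 1))))
  generalize c.θ * (1 + 1 / c.u (k + 1)) = x at *
  nlinarith

/-- State of the main stage together with the value `m` of its time potential. -/
def StateA (X : Finset V) (ω : V × V → α) (W : Finset V) (k : ℕ) (m : ℝ) : Prop :=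
  m = c.G k ∨ ∃ k', k = k' + 1 ∧ m = c.G k * (1 - c.θ * (1 + 1 / c.u k)) ∧
    ∃ σ, ∃ U ⊆ W, c.Valid σ U ∧ c.lev U ≤ k' ∧ c.Real X ω σ ∧ σ⁻¹ c.s ∉ X

theorem StateA.one_le {c : PCtx V α} {X : Finset V} {ω : V × V → α} {W : Finset V} {k : ℕ} {m : ℝ}
    (h : c.StateA X ω W k m) : 1 ≤ m := by
  rcases h with rfl | ⟨k', rfl, rfl, -⟩
  · exact c.one_le_G k
  · have h1 := c.G_le k'
    have h2 := c.one_le_G k'
    have h3 := c.one_le_G (k' + 1)
    have h4 := (c.θ_pos.le.trans (c.θ_le_x k'))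
    nlinarith

theorem stageA : ∀ (d : ℕ) (X : Finset V) (ω : V × V → α) (W Y : Finset V) (k : ℕ) (m : ℝ),
    c.X0 ⊆ X → X.card + d ≤ c.TA → c.Stock X ω (c.PosA W k) Y → Y.card ≤ c.h →
    c.StateA X ω W k m →
    c.Fail X ω ≤ c.β ^ Y.card + (d + c.TC) * c.β ^ c.h + c.Φ X W + m * (1 - c.θ) ^ d +
      2 * (1 - c.a (3 * c.K + 2)) ^ c.TC := by
  classical
  intro d
  have hb := c.β_pos
  have hθ := c.θ_pos
  have hθ1 : c.θ ≤ 1 / 8 := (c.θ_le_x 0).trans (c.x_le 0)
  have hC : 0 ≤ 2 * (1 - c.a (3 * c.K + 2)) ^ c.TC :=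
    mul_nonneg zero_le_two (pow_nonneg (by linarith [c.a_le_half (3 * c.K + 2)]) _)
  have hB := c.hB
  induction d with
  | zero =>
    intro X ω W Y k m _ _ _ _ hm
    have h1 := hm.one_le
    have h2 : 0 ≤ c.β ^ Y.card + ((0 : ℕ) + c.TC) * c.β ^ c.h := by positivity
    rw [pow_zero, mul_one]
    linarith [c.Fail_le_one X ω, c.Φ_nonneg X W]
  | succ d ih =>
    intro X ω W Y k m hX0 hc hP hY hm
    have hpow : 0 ≤ (1 - c.θ) ^ d := pow_nonneg (by linarith) _
    have hm0 : 0 ≤ m * (1 - c.θ) ^ (d + 1) :=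
      mul_nonneg (by linarith [hm.one_le]) (pow_nonneg (by linarith) _)
    have hz0 : 0 ≤ c.β ^ Y.card := by positivity
    have hd0 : 0 ≤ (((d + 1 : ℕ) : ℝ) + c.TC) * c.β ^ c.h := by positivity
    by_cases hX : ¬ ∀ v ∈ W, (orb c.F v ∩ (X \ c.X0)).card < c.hh v
    · push Not at hX
      obtain ⟨v, hv, h1⟩ := hX
      linarith [c.Fail_le_one X ω, c.one_le_Φ hv h1]
    rw [not_not] at hX
    have pend : ∀ k', k = k' + 1 → ∀ σ, ∀ U ⊆ W, c.Valid σ U → c.lev U ≤ k' → c.Real X ω σ →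
        σ⁻¹ c.s ∉ X → c.Fail X ω ≤ c.β ^ Y.card + (((d + 1 : ℕ) : ℝ) + c.TC) * c.β ^ c.h +
          c.Φ X W + c.G k * (1 - c.θ * (1 + 1 / c.u k)) * (1 - c.θ) ^ (d + 1) +
          2 * (1 - c.a (3 * c.K + 2)) ^ c.TC := by
      rintro k' rfl σ U hU hV hk hR ht
      obtain ⟨S, Y', W', h1, h2, h3⟩ :=
        c.poolA_update hP hY hX0 (by omega) hV hU (by omega) hR ht hX
      have hG := c.G_le k'
      have hG1 := c.one_le_G (k' + 1)
      have hx1 := c.x_le k'
      have hx2 := c.θ_le_x k'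
      rw [c.Fail_step X ω (σ⁻¹ c.s)]
      calc _ ≤ Ex c.w fun x => (c.β ^ (Y' x).card + c.Φ (insert (σ⁻¹ c.s) X) (W' x)) +
            (ind (¬ S x) * ((c.G (k' + 1) - c.G k') * (1 - c.θ) ^ d) +
            ((d + c.TC) * c.β ^ c.h + c.G k' * (1 - c.θ) ^ d +
              2 * (1 - c.a (3 * c.K + 2)) ^ c.TC)) := by
            refine Ex_mono c.hw fun x => ?_
            obtain ⟨g1, -, g3, g4⟩ := h3 x
            by_cases hx : S x
            · have g5 := ih _ _ _ _ k' _ (hX0.trans (subset_insert _ _))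
                (by rw [card_insert_of_notMem ht]; omega)
                ((g4 hx).imp fun τ h => h.mono hk) g1 (Or.inl rfl)
              rw [ind_neg (not_not.2 hx)]
              linarith
            · have g5 := ih _ _ _ _ (k' + 1) _ (hX0.trans (subset_insert _ _))
                (by rw [card_insert_of_notMem ht]; omega) g3 g1 (Or.inl rfl)
              rw [ind_pos hx]
              linarith
        _ ≤ _ := by
            rw [Ex_add, Ex_add (fun x => ind _ * _), Ex_const c.hw, Ex_mul_right, pow_succ]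
            push_cast
            generalize c.θ * (1 + 1 / c.u (k' + 1)) = x at *
            have g1 : 0 ≤ (c.G (k' + 1) - c.G k') * (1 - c.θ) ^ d :=
              mul_nonneg (by nlinarith) hpow
            have g2 : Ex c.w (fun x => ind (¬ S x)) * ((c.G (k' + 1) - c.G k') * (1 - c.θ) ^ d) ≤
                1 / 2 * ((c.G (k' + 1) - c.G k') * (1 - c.θ) ^ d) :=
              mul_le_mul_of_nonneg_right h1 g1
            have g3 : (c.G k' + c.G (k' + 1)) / 2 ≤ c.G (k' + 1) * (1 - x) * (1 - c.θ) := by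
              have g4 : 1 - 2 * x ≤ (1 - x) * (1 - c.θ) := by nlinarith
              have g5 := mul_le_mul_of_nonneg_left g4 (by linarith : 0 ≤ c.G (k' + 1))
              nlinarith
            have g4 := mul_le_mul_of_nonneg_right g3 hpow
            nlinarith
    rcases hm with rfl | ⟨k', hk', rfl, σ, U, hU, hV, hk, hR, ht⟩
    swap
    · exact pend k' hk' σ U hU hV hk hR ht
    rcases k with _ | k'
    · have h1 := c.stageC (d + 1 + c.TC) X ω Y 0 hX0 (by omega) (hP.imp ?_) hY (Or.inl rfl)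
      · have h2 : (1 - c.a (3 * c.K + 2)) ^ (d + 1 + c.TC) ≤ (1 - c.a (3 * c.K + 2)) ^ c.TC :=
          pow_le_pow_of_le_one (by linarith [c.a_le_half (3 * c.K + 2)])
            (by linarith [c.a_pos (3 * c.K + 2)]) (by omega)
        push_cast at h1 ⊢
        linarith [c.Φ_nonneg X W]
      · rintro σ ⟨U, -, h2, h3, -⟩
        have h4 : U = ∅ := by
          have h5 : (U.image (orb c.F)).card = 0 := Nat.le_zero.1 h3
          rwa [card_eq_zero, image_eq_empty] at h5
        rwa [h4] at h2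
    rcases Y.eq_empty_or_nonempty with rfl | ⟨t, ht⟩
    · simp only [card_empty, pow_zero]
      linarith [c.Fail_le_one X ω, c.Φ_nonneg X W]
    obtain ⟨ht', σ, rfl, hR, U, hU, hV, hk, hr⟩ := hP t ht
    have hG1 := c.one_le_G (k' + 1)
    have hx1 := c.x_le k'
    have hx2 := c.θ_le_x k'
    rcases hk.eq_or_lt with hk | hk
    swap
    · refine (pend k' rfl σ U hU hV (by omega) hR ht').trans ?_
      have h1 : c.G (k' + 1) * (1 - c.θ * (1 + 1 / c.u (k' + 1))) ≤ c.G (k' + 1) := by nlinarith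
      have h2 := mul_le_mul_of_nonneg_right h1 (pow_nonneg (by linarith : 0 ≤ 1 - c.θ) (d + 1))
      linarith
    obtain ⟨S, Y', W', -, h2, h3⟩ :=
      c.poolA_update hP hY hX0 (by omega) hV hU hk.le hR ht' hX
    have h4 := hV.hit_count (hr hk) fun v hv => hX v (hU hv)
    rw [hk] at h4
    set Hs := ((U \ c.X0) \ X).filter fun w => c.D (σ⁻¹ c.s) (c.F w) with hHs
    have hu := c.u_pos k'
    have h5 : Pr c.w (fun x : V × V → α => ∀ e ∈ Hs.image fun w => (σ⁻¹ c.s, c.F w),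
        ¬ c.on (x e)) ≤ 1 / (1 + c.u (k' + 1)) := by
      refine (Pr_none_le c.hw c.on c.hp _).trans ?_
      rw [card_image_of_injective _ fun a b hab => c.F.injective (Prod.mk.inj hab).2]
      have h6 : c.u (k' + 1) ≤ Hs.card * c.p := by
        unfold u
        rw [mul_comm]
        exact mul_le_mul_of_nonneg_right h4 c.ppos.le
      rw [Real.exp_neg, one_div]
      refine inv_anti₀ (by linarith) ?_
      linarith [Real.add_one_le_exp (Hs.card * c.p)]
    rw [c.Fail_step X ω (σ⁻¹ c.s)]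
    calc _ ≤ Ex c.w fun x => (c.β ^ (Y' x).card + c.Φ (insert (σ⁻¹ c.s) X) (W' x)) +
          (ind (∀ e ∈ Hs.image fun w => (σ⁻¹ c.s, c.F w), ¬ c.on (x e)) *
            (c.G (k' + 1) * (c.θ * (1 + 1 / c.u (k' + 1))) * (1 - c.θ) ^ d) +
          ((d + c.TC) * c.β ^ c.h +
            c.G (k' + 1) * (1 - c.θ * (1 + 1 / c.u (k' + 1))) * (1 - c.θ) ^ d +
            2 * (1 - c.a (3 * c.K + 2)) ^ c.TC)) := by
          refine Ex_mono c.hw fun x => ?_
          obtain ⟨g1, g2, g3, -⟩ := h3 x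
          by_cases hx : ∀ e ∈ Hs.image fun w => (σ⁻¹ c.s, c.F w), ¬ c.on (x e)
          · have g5 := ih _ _ _ _ (k' + 1) _ (hX0.trans (subset_insert _ _))
              (by rw [card_insert_of_notMem ht']; omega) g3 g1 (Or.inl rfl)
            rw [ind_pos hx]
            linarith
          · rw [ind_neg hx]
            push Not at hx
            obtain ⟨e, he, hx⟩ := hx
            obtain ⟨w, hw, rfl⟩ := mem_image.1 he
            simp only [hHs, mem_filter, mem_sdiff] at hw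
            obtain ⟨U', g4, g5, g6⟩ := hV.hit hw.1.1.1
            have g7 : σ⁻¹ (c.F w) = w := by
              rw [← (hV.agree w hw.1.1.1).1]
              simp
            have g8 : σ⁻¹ (c.F w) ∉ insert (σ⁻¹ c.s) X := by
              rw [g7, mem_insert, not_or]
              exact ⟨fun h => hV.end_notMem (h ▸ hw.1.1.1), hw.1.2⟩
            have g9 := ih _ _ _ _ (k' + 1) _ (hX0.trans (subset_insert _ _))
              (by rw [card_insert_of_notMem ht']; omega) g3 g1
              (Or.inr ⟨k', rfl, rfl, _, U', g4.trans g2, g5, by omega,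
                hR.move hX0 ht' hw.2 g8 hx, by rwa [c.end_swap]⟩)
            linarith
      _ ≤ _ := by
          rw [Ex_add, Ex_add (fun x => ind _ * _), Ex_const c.hw, Ex_mul_right, pow_succ]
          push_cast
          have g1 : 0 ≤ c.G (k' + 1) * (c.θ * (1 + 1 / c.u (k' + 1))) * (1 - c.θ) ^ d :=
            mul_nonneg (mul_nonneg (by linarith) (by linarith)) hpow
          have g2 := mul_le_mul_of_nonneg_right h5 g1
          have g3 : 1 / (1 + c.u (k' + 1)) *
              (c.G (k' + 1) * (c.θ * (1 + 1 / c.u (k' + 1))) * (1 - c.θ) ^ d) +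
              c.G (k' + 1) * (1 - c.θ * (1 + 1 / c.u (k' + 1))) * (1 - c.θ) ^ d =
              c.G (k' + 1) * ((1 - c.θ) ^ d * (1 - c.θ)) := by
            field_simp
            ring
          unfold Pr at g2
          linarith

theorem S_le (k : ℕ) : c.S k ≤ k + 8 / (c.p * c.ε) *
    (1 + Real.log (2 * c.M0) + 2 / c.ℓ * (1 + Real.log k)) := by
  have hpe := mul_pos c.ppos c.hε
  have hℓ : (0 : ℝ) < c.ℓ := by exact_mod_cast c.ℓpos
  have hH : ∀ n : ℕ, ∑ j ∈ range n, (1 / ((j + 1 : ℕ) : ℝ)) ≤ 1 + Real.log n := by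
    intro n
    have h1 := harmonic_le_one_add_log n
    unfold harmonic at h1
    push_cast at h1 ⊢
    simpa only [one_div] using h1
  have h1 : ∀ j ∈ range k, 1 + 1 / c.u (j + 1) ≤ 1 + 8 / (c.p * c.ε) *
      ((if j ∈ range (2 * c.M0) then 1 / ((j + 1 : ℕ) : ℝ) else 0) +
        2 / c.ℓ * (1 / ((j + 1 : ℕ) : ℝ))) := by
    intro j _
    have hj : (0 : ℝ) < ((j + 1 : ℕ) : ℝ) := by positivity
    refine add_le_add_right ?_ _
    split_ifs with h2
    · have h3 : c.p * c.ε / 8 * ((j + 1 : ℕ) : ℝ) ≤ c.u (j + 1) := by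
        have := le_max_left ((j + 1 : ℕ) : ℝ) (c.ℓ * (((j + 1 : ℕ) : ℝ) - c.M0))
        unfold u
        nlinarith
      refine (one_div_le_one_div_of_le (by positivity) h3).trans ?_
      have h4 : 1 / (c.p * c.ε / 8 * ((j + 1 : ℕ) : ℝ)) =
          8 / (c.p * c.ε) * (1 / ((j + 1 : ℕ) : ℝ)) := by
        field_simp
      rw [h4]
      exact mul_le_mul_of_nonneg_left (le_add_of_nonneg_right (by positivity)) (by positivity)
    · have h5 : (2 * c.M0 : ℝ) ≤ j := by
        rw [mem_range, not_lt] at h2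
        exact_mod_cast h2
      have h3 : c.p * c.ε / 8 * (c.ℓ * ((j + 1 : ℕ) : ℝ) / 2) ≤ c.u (j + 1) := by
        have h6 := le_max_right ((j + 1 : ℕ) : ℝ) (c.ℓ * (((j + 1 : ℕ) : ℝ) - c.M0))
        have h7 : c.ℓ * ((j + 1 : ℕ) : ℝ) / 2 ≤ c.ℓ * (((j + 1 : ℕ) : ℝ) - c.M0) := by
          push_cast
          nlinarith
        unfold u
        nlinarith
      refine (one_div_le_one_div_of_le (by positivity) h3).trans (le_of_eq ?_)
      field_simp
      ring
  refine (sum_le_sum h1).trans ?_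
  rw [sum_add_distrib, sum_const, card_range, nsmul_eq_mul, mul_one, ← mul_sum, sum_add_distrib,
    ← mul_sum, sum_ite_mem]
  refine add_le_add_right (mul_le_mul_of_nonneg_left (add_le_add ?_ ?_) (by positivity)) _
  · refine le_trans (sum_le_sum_of_subset_of_nonneg inter_subset_right
      fun _ _ _ => by positivity) ?_
    have := hH (2 * c.M0)
    push_cast at this ⊢
    exact this
  · exact mul_le_mul_of_nonneg_left (hH k) (by positivity)

theorem Goal_pw (ω y : V × V → α) : c.Goal (pw c.X0 ω y) ↔ c.Goal y := by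
  unfold Goal
  refine exists_congr fun σ => and_congr_right fun _ => forall_congr' fun v =>
    or_congr_right (and_congr_right fun hv => ?_)
  simp only [pw, if_neg hv]

theorem machine [Nonempty α] (hTA : c.X0.card ≤ c.TA) :
    Pr c.w (fun y : V × V → α => ¬ c.Goal y) ≤
      c.β + c.M0 * c.β + (c.TA + c.TC + Fintype.card V) * c.β ^ c.h +
      Real.exp (-(c.θ * (c.TA - c.X0.card - 8 * (c.M0 + Fintype.card V / c.ℓ + 1 +
        8 / (c.p * c.ε) * (1 + Real.log (2 * c.M0) +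
          2 / c.ℓ * (1 + Real.log (Fintype.card V + 1))))))) +
      2 * Real.exp (-(c.a (3 * c.K + 2) * c.TC)) := by
  classical
  obtain ⟨ω⟩ : Nonempty (V × V → α) := inferInstance
  have h0 : Pr c.w (fun y : V × V → α => ¬ c.Goal y) = c.Fail c.X0 ω := by
    unfold Fail
    simp only [c.Goal_pw]
  rw [h0]
  have hb := c.β_pos
  have hθ := c.θ_pos
  have hθ1 : c.θ ≤ 1 / 8 := (c.θ_le_x 0).trans (c.x_le 0)
  have hV := c.valid_init
  set U := univ.filter fun v => ¬ c.F.SameCycle c.s v ∧ (orb c.F v).card ≤ c.L with hU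
  have h1 := c.stageA (c.TA - c.X0.card) c.X0 ω U {c.F⁻¹ c.s} (c.lev U + 1) _ Subset.rfl
    (by omega) (fun t ht => by
      rw [mem_singleton.1 ht]
      exact ⟨c.hX0s, c.F, rfl, fun v _ => Or.inl rfl, U, Subset.rfl, hV, by omega,
        fun h => by omega⟩) (by rw [card_singleton]; exact c.hpos) (Or.inl rfl)
  rw [card_singleton, pow_one, Nat.cast_sub hTA] at h1
  have h2 : c.Φ c.X0 U ≤ c.M0 * c.β + Fintype.card V * c.β ^ c.h := by
    unfold Φ
    simp only [sdiff_self, bot_eq_empty, inter_empty, card_empty, Nat.sub_zero]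
    rw [← sum_filter_add_sum_filter_not U fun v => (orb c.F v \ c.X0).card < c.ℓ]
    refine add_le_add ?_ ?_
    · rw [sum_congr rfl (g := fun _ => c.β) fun v hv => by
        rw [Ctx.hh, if_pos (mem_filter.1 hv).2, pow_one], sum_const, nsmul_eq_mul]
      refine mul_le_mul_of_nonneg_right (Nat.cast_le.2 (le_trans (card_le_card ?_) c.tiny)) hb.le
      intro v hv
      simp only [hU, mem_filter, mem_univ, true_and] at hv ⊢
      exact ⟨hv.1.1, hv.2⟩
    · rw [sum_congr rfl (g := fun _ => c.β ^ c.h) fun v hv => by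
        rw [Ctx.hh, if_neg (mem_filter.1 hv).2], sum_const, nsmul_eq_mul]
      exact mul_le_mul_of_nonneg_right (Nat.cast_le.2 (card_le_univ _)) (by positivity)
  have h3 : (1 - c.a (3 * c.K + 2)) ^ c.TC ≤ Real.exp (-(c.a (3 * c.K + 2) * c.TC)) := by
    refine (pow_le_pow_left₀ (by linarith [c.a_le_half (3 * c.K + 2)])
      (by linarith [Real.add_one_le_exp (-c.a (3 * c.K + 2))] :
        1 - c.a (3 * c.K + 2) ≤ Real.exp (-c.a (3 * c.K + 2))) _).trans (le_of_eq ?_)
    rw [← Real.exp_nat_mul]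
    congr 1
    ring
  have h4 : (1 - c.θ) ^ (c.TA - c.X0.card) ≤ Real.exp (-(c.θ * (c.TA - c.X0.card))) := by
    refine (pow_le_pow_left₀ (by linarith)
      (by linarith [Real.add_one_le_exp (-c.θ)] : 1 - c.θ ≤ Real.exp (-c.θ)) _).trans (le_of_eq ?_)
    rw [← Real.exp_nat_mul, Nat.cast_sub hTA]
    congr 1
    ring
  have h5 : c.S (c.lev U + 1) ≤ c.M0 + Fintype.card V / c.ℓ + 1 +
      8 / (c.p * c.ε) * (1 + Real.log (2 * c.M0) +
        2 / c.ℓ * (1 + Real.log (Fintype.card V + 1))) := by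
    have hpe := mul_pos c.ppos c.hε
    refine (c.S_le _).trans (add_le_add ?_ ?_)
    · push_cast
      linarith [c.lev_le hV]
    · have h6 : c.lev U ≤ Fintype.card V := card_image_le.trans (card_le_univ _)
      have h7 : Real.log ((c.lev U + 1 : ℕ) : ℝ) ≤ Real.log (Fintype.card V + 1) :=
        Real.log_le_log (by positivity) (by exact_mod_cast Nat.succ_le_succ h6)
      gcongr
  have h6 : c.G (c.lev U + 1) * (1 - c.θ) ^ (c.TA - c.X0.card) ≤
      Real.exp (-(c.θ * (c.TA - c.X0.card - 8 * (c.M0 + Fintype.card V / c.ℓ + 1 +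
        8 / (c.p * c.ε) * (1 + Real.log (2 * c.M0) +
          2 / c.ℓ * (1 + Real.log (Fintype.card V + 1))))))) := by
    refine (mul_le_mul_of_nonneg_left h4 (by linarith [c.one_le_G (c.lev U + 1)])).trans ?_
    unfold G
    rw [← Real.exp_add]
    refine Real.exp_le_exp.2 ?_
    nlinarith
  have h7 : 0 ≤ (c.X0.card : ℝ) * c.β ^ c.h := by positivity
  nlinarith

end PCtx

end Pool.Agent.P.MP_11f821_pr
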