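import Pool.Agent.P.MP_11f821_pr.Whp
import Pool.Agent.P.MP_11f821_pr.StageA

/-!
The independent model: every ordered pair receives one of four classes, and with high probability
the arcs of the first two classes together with first arcs at vertices contain a Hamilton cycle.
-/

namespace Pool.Agent.P.MP_11f821_pr

open Finset Equiv Equiv.Perm

/-- Bernoulli weight. -/
def bern (p : ℝ) (b : Bool) : ℝ := cond b p (1 - p)

theorem bern_isW {p : ℝ} (h0 : 0 ≤ p) (h1 : p ≤ 1) : IsW (bern p) :=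
  ⟨fun b => by cases b <;> simp [bern, h0, h1], by simp [bern]⟩

/-- The class of a label. -/
def cl (c : Bool × Bool × Bool) : ℕ := cond c.1 0 (cond c.2.1 1 (cond c.2.2 2 3))

/-- Numerical parameters. -/
structure Par (n : ℕ) (ε : ℝ) where
  p₁ : ℝ
  p₂ : ℝ
  p₃ : ℝ
  p : ℝ
  lam : ℝ
  x : ℝ
  a : ℝ
  q : ℝ
  ν : ℝ
  sm : ℝ
  β : ℝ
  K : ℕ
  L : ℕ
  R : ℕ
  dom : ℕ
  t : ℕ
  ℓ : ℕ
  h : ℕ
  M0 : ℕ
  d : ℕ
  μ : ℕ
  hp₁ : 0 ≤ p₁
  hp₂ : 0 < p₂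
  hp₃ : 0 ≤ p₃
  hp : p₁ + p₂ + p₃ ≤ p
  hp1 : p ≤ 1
  hnp : 1 ≤ n * p
  hlam : 0 ≤ lam
  hR : 2 * K + 1 < R
  hlab : 2 * n * ((2 * K + 1 : ℕ) + 1) * Real.exp (-(ε ^ 2 * (n / R) / 32)) +
    Real.exp (-(n / R / 4)) < 1
  hZ : 2 * ((2 * K + 1 : ℕ) + 1) * ((n : ℝ) / R) ≤ ε * n / 4
  hq : Real.exp (lam * (d + 1) - ((1 / 2 + ε) * n - ε * n / 4 - 25) * p₁ * (1 - Real.exp (-lam)))
    ≤ q
  hν : 0 ≤ ν
  hν1 : ν ≤ ε * n / 2
  hsm : 0 < sm
  hsm1 : 2 * sm ≤ ε * n / 4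
  hsm2 : 2 * sm ≤ t
  hdom : dom + ν + 3 * sm + ((2 * K + 1 : ℕ) + 1) * μ ≤ ε * (n / R)
  hK : n ≤ K * L
  domL : dom ≤ L
  hL : (L : ℝ) ≤ ε ^ 2 * n / 16
  n1 : (3 * t : ℝ) ≤ ε / 2 * dom
  n2 : (L + 1 + 3 * t : ℝ) ≤ ε * n / 4
  tpos : 0 < t
  hℓ : 8 * (h : ℝ) ≤ ε * ℓ
  ℓpos : 0 < ℓ
  hβ : Real.exp (h - t * p₂ / 2) ≤ β
  hβ2 : β ≤ 1 / 2
  hpos : 0 < h
  Mpos : 0 < M0
  hx : n * p₁ ≤ x
  hd : 2 ≤ d
  ha : 0 ≤ a
  hμ : μ * Real.exp a ≤ n
  hda : 3 * x + 2 ≤ (d - 2) * a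

namespace Par

variable {n : ℕ} {ε : ℝ} (c : Par n ε)

/-- Error of the rotation process. -/
noncomputable def err₁ : ℝ :=
  c.β + c.M0 * c.β + (c.t + c.t + n) * c.β ^ c.h +
    Real.exp (-(c.p₂ * ε / 128 * (c.t - 2 * c.sm - 8 * (c.M0 + n / c.ℓ + 1 +
      8 / (c.p₂ * ε) * (1 + Real.log (2 * c.M0) + 2 / c.ℓ * (1 + Real.log (n + 1))))))) +
    2 * Real.exp (-(c.p₂ / (2 * 4 ^ (3 * c.K + 2)) * c.t))

/-- Error of the pseudo-random properties. -/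
noncomputable def err₂ : ℝ :=
  4 ^ n * Real.exp (-(c.μ * c.ν * c.p₁)) + (c.μ * Real.exp (-(2 * c.x)) +
    (100 * Real.exp 26 * (n * c.p) ^ 5 * c.q ^ 2 / c.p + (2 * Real.exp 2 * (n * c.p) ^ 2 * c.q +
    ((3 * c.ℓ : ℕ) * Real.exp ((3 * c.ℓ : ℕ) ^ 2 + 1) * (n * c.p) ^ (3 * c.ℓ) / c.M0 +
    (2 * n * c.q / c.sm + 2 * n * Real.exp (-((1 / 2 + ε) * n * c.p₃)))))))

/-- Error of the statement that some vertex has no early out-arc. -/
noncomputable def err₃ : ℝ := Real.exp (-(n * (1 - (c.p₁ + c.p₂)) ^ n))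

/-- Weight of the second part of a label. -/
def w₂ (b : Bool × Bool) : ℝ := bern c.p₂ b.1 * bern c.p₃ b.2

/-- Weight of a label. -/
def w (b : Bool × Bool × Bool) : ℝ := bern c.p₁ b.1 * c.w₂ b.2

theorem isW₁ : IsW (bern c.p₁) := bern_isW c.hp₁ (by linarith [c.hp, c.hp1, c.hp₂, c.hp₃])

theorem isW₂ : IsW c.w₂ :=
  (bern_isW c.hp₂.le (by linarith [c.hp, c.hp1, c.hp₁, c.hp₃])).prod
    (bern_isW c.hp₃ (by linarith [c.hp, c.hp1, c.hp₁, c.hp₂]))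

theorem isW : IsW c.w := c.isW₁.prod c.isW₂

theorem wt_on : wt c.w₂ (fun b => b.1 = true) = c.p₂ := by
  simp [wt, w₂, bern, ind, Fintype.sum_prod_type]
  ring

theorem wt₁ : wt c.w (fun b => b.1 = true) = c.p₁ := by
  simp [wt, w, w₂, bern, ind, Fintype.sum_prod_type]
  ring

theorem wt₂ : wt c.w (fun b => cl b ≤ 1) ≤ c.p₁ + c.p₂ := by
  simp [wt, w, w₂, bern, ind, cl, Fintype.sum_prod_type]
  nlinarith [mul_nonneg c.hp₁ c.hp₂.le]

theorem wt₃ : wt c.w (fun b => cl b ≤ 2) = 1 - (1 - c.p₁) * (1 - c.p₂) * (1 - c.p₃) := by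
  simp [wt, w, w₂, bern, ind, cl, Fintype.sum_prod_type]
  ring

theorem wt₃_le : wt c.w (fun b => cl b ≤ 2) ≤ c.p := by
  have h1 := c.hp₁
  have h2 := c.hp₂
  have h3 := c.hp₃
  have h4 := c.hp
  have h5 := c.hp1
  rw [c.wt₃]
  have h6 : 1 - c.p₁ - c.p₂ ≤ (1 - c.p₁) * (1 - c.p₂) := by nlinarith
  have h7 := mul_le_mul_of_nonneg_right h6 (by linarith : 0 ≤ 1 - c.p₃)
  nlinarith

theorem le_wt₃ : c.p₃ ≤ wt c.w fun b => cl b ≤ 2 := by
  have h1 := c.hp₁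
  have h2 := c.hp₂
  have h3 := c.hp₃
  have h4 := c.hp
  have h5 := c.hp1
  rw [c.wt₃]
  have h6 : (1 - c.p₁) * (1 - c.p₂) ≤ 1 := by nlinarith
  have h7 := mul_le_mul_of_nonneg_right h6 (by linarith : 0 ≤ 1 - c.p₃)
  nlinarith

end Par

variable {V : Type*} [Fintype V] [DecidableEq V]

theorem fubini {α β : Type*} [Fintype α] [Fintype β] {w₁ : α → ℝ} {w₂ : β → ℝ} (h₁ : IsW w₁)
    (h₂ : IsW w₂) (S : (V → α) → V → Prop) [∀ a, DecidablePred (S a)]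
    (H G : (V → α × β) → Prop) {e : ℝ} (he : 0 ≤ e)
    (h : ∀ (a : V → α) (x y₀ : V → β), G (fun i => (a i, if S a i then x i else y₀ i)) →
      Pr w₂ (fun y : V → β => ¬ H fun i => (a i, if S a i then x i else y i)) ≤ e) :
    Pr (fun c : α × β => w₁ c.1 * w₂ c.2) (fun ω => ¬ H ω) ≤
      Pr (fun c : α × β => w₁ c.1 * w₂ c.2) (fun ω => ¬ G ω) + e := by
  unfold Pr
  rw [Ex_prodSpace, Ex_prodSpace, ← Ex_const (ι := V) h₁ e, ← Ex_add]
  refine Ex_mono h₁ fun a => ?_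
  beta_reduce
  rw [Ex_pw h₂ (S a), Ex_pw h₂ (S a) fun b => ind (¬ G fun i => (a i, b i)),
    ← Ex_const (ι := V) h₂ e, ← Ex_add]
  refine Ex_mono h₂ fun x => ?_
  beta_reduce
  by_cases h3 : ∃ y₀ : V → β, G fun i => (a i, if S a i then x i else y₀ i)
  · obtain ⟨y₀, h3⟩ := h3
    exact (h a x y₀ h3).trans (le_add_of_nonneg_left (Ex_nonneg h₂ fun _ => ind_nonneg _))
  · refine le_add_of_le_of_nonneg (Ex_mono h₂ fun y => ?_) he
    rw [ind_pos fun h4 => h3 ⟨y, h4⟩]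
    exact ind_le_one _

open scoped Classical in
/-- The pseudo-random properties of a labelling. -/
def Good {n : ℕ} {ε : ℝ} (c : Par n ε) (D : V → V → Prop) (Z : Finset V)
    (ω : V × V → Bool × Bool × Bool) : Prop :=
  (∀ A B : Finset V, c.μ * c.ν ≤ arcs D A B →
    ∃ a ∈ A, ∃ b ∈ B, sub D (fun b => b.1 = true) ω a b) ∧
  (∀ A B : Finset V, A.Nonempty → A.card = B.card → A.card ≤ c.μ →
    arcs (sub D (fun b => b.1 = true) ω) A B < c.d * A.card) ∧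
  (∀ Y : Finset V, Y.card ≤ 5 → ∀ v ∈ Y, ∀ v' ∈ Y,
    v ∈ small D Z c.d (fun b => b.1 = true) ω → v' ∈ small D Z c.d (fun b => b.1 = true) ω →
      v ≠ v' → arcs (sub D (fun b => cl b ≤ 2) ω) Y Y + 2 ≤ Y.card) ∧
  (∀ v ∈ small D Z c.d (fun b => b.1 = true) ω, ∀ x, sub D (fun b => cl b ≤ 2) ω v x →
    ¬ sub D (fun b => cl b ≤ 2) ω x v) ∧
  (univ.filter fun v => ∃ Y : Finset V, v ∈ Y ∧ Y.card ≤ 3 * c.ℓ ∧
    Y.card ≤ arcs (sub D (fun b => cl b ≤ 2) ω) Y Y).card ≤ c.M0 ∧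
  ((small D Z c.d (fun b => b.1 = true) ω).card : ℝ) < c.sm ∧
  ∀ v, (∃ y, sub D (fun b => cl b ≤ 2) ω v y) ∧ ∃ y, sub D (fun b => cl b ≤ 2) ω y v

open scoped Classical in
theorem Pr_not_good {ε : ℝ} (c : Par (Fintype.card V) ε) {D : V → V → Prop} (hD : ∀ v, ¬ D v v)
    (hout : ∀ v, (1 / 2 + ε) * Fintype.card V ≤ (univ.filter (D v)).card)
    (hin : ∀ v, (1 / 2 + ε) * Fintype.card V ≤ (univ.filter fun u => D u v).card)
    {Z : Finset V} (hZ : (Z.card : ℝ) ≤ ε * Fintype.card V / 4) :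
    Pr c.w (fun ω => ¬ Good c D Z ω) ≤ c.err₂ := by
  have hw := c.isW
  have hp : 0 < c.p := by linarith [c.hp, c.hp₁, c.hp₂, c.hp₃]
  have ht : ∀ v b, (1 / 2 + ε) * Fintype.card V - ε * Fintype.card V / 4 ≤
      (star D Z v b).card := fun v b => by linarith [le_card_star hout hin Z v b]
  have e1 := Pr_dense hw D _ c.hp₁ c.wt₁.ge (c.μ * c.ν)
  have e2 := Pr_sparse hw D _ c.wt₁.le c.hx c.hd c.ha c.hμ c.hda
  have e3 := Pr_sep hw c.hp₁ c.wt₁.ge c.hlam ht c.hq c.wt₃_le hp c.hp1 c.hnp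
  have e4 := Pr_sep1 hw c.hp₁ c.wt₁.ge c.hlam ht c.hq hD c.wt₃_le hp c.hp1
  have e5 := Pr_cyc hw D _ c.wt₃_le hp c.hp1 c.hnp (k := 3 * c.ℓ)
    (Nat.mul_pos (by norm_num) c.ℓpos) c.Mpos
  have e6 := Pr_size hw c.hp₁ c.wt₁.ge c.hlam ht c.hq c.hsm
  have e7 := Pr_deg hw _ c.hp₃ c.le_wt₃ hout hin
  refine le_trans (Pr_mono hw fun ω hω => ?_) ((Pr_or_le hw _ _).trans (add_le_add e1
    ((Pr_or_le hw _ _).trans (add_le_add e2 ((Pr_or_le hw _ _).trans (add_le_add e3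
    ((Pr_or_le hw _ _).trans (add_le_add e4 ((Pr_or_le hw _ _).trans (add_le_add e5
    ((Pr_or_le hw _ _).trans (add_le_add e6 e7))))))))))))
  by_contra h
  simp only [not_or, not_not] at h
  exact hω ⟨h.1, h.2.1, h.2.2.1, h.2.2.2.1, h.2.2.2.2.1, not_le.1 h.2.2.2.2.2.1, h.2.2.2.2.2.2⟩

/-- A Hamilton cycle made of arcs of the first two classes and of first arcs at vertices. -/
def Ham (D : V → V → Prop) (fo fi : V → (V → Bool × Bool × Bool) → V)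
    (ω : V × V → Bool × Bool × Bool) : Prop :=
  ∃ (σ : Perm V) (s : V), (∀ v, σ.SameCycle s v) ∧ ∀ v, D v (σ v) ∧ (cl (ω (v, σ v)) ≤ 1 ∨
    σ v = fo v (fun y => ω (v, y)) ∨ v = fi (σ v) fun y => ω (y, σ v))

theorem small_pair (D : V → V → Prop) (Z : Finset V) (d : ℕ) (a : V × V → Bool)
    (b : V × V → Bool × Bool) :
    small D Z d (fun c : Bool × Bool × Bool => c.1 = true) (fun i => (a i, b i)) =
      small D Z d (fun c => c = true) a := rfl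

open scoped Classical in
theorem Good.quasi {ε : ℝ} {c : Par (Fintype.card V) ε} {D : V → V → Prop} (hD : ∀ v, ¬ D v v)
    {fo fi : V → (V → Bool × Bool × Bool) → V}
    (hfo : ∀ v r, D v (fo v r) ∧ ∀ y, D v y → cl (r (fo v r)) ≤ cl (r y))
    (hfi : ∀ v r, D (fi v r) v ∧ ∀ y, D y v → cl (r (fi v r)) ≤ cl (r y)) {Z : Finset V}
    {ω : V × V → Bool × Bool × Bool} (hG : Good c D Z ω) :
    Quasi D (sub D (fun b => b.1 = true) ω) (sub D (fun b => cl b ≤ 2) ω) Z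
      (small D Z c.d (fun b => b.1 = true) ω) (fun v => fo v fun y => ω (v, y))
      (fun v => fi v fun y => ω (y, v)) c.d c.μ c.ℓ c.M0 c.ν := by
  obtain ⟨g1, g2, g3, g4, g5, -, g7⟩ := hG
  exact
    { irr := fun v h => hD v h.1
      sub := fun u v h => ⟨h.1, by
        have h2 : (ω (u, v)).1 = true := h.2
        simp [cl, h2]⟩
      hfo := fun v _ => by
        obtain ⟨y, hy⟩ := (g7 v).1
        exact ⟨(hfo v _).1, ((hfo v fun y => ω (v, y)).2 y hy.1).trans hy.2⟩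
      hfi := fun v _ => by
        obtain ⟨y, hy⟩ := (g7 v).2
        exact ⟨(hfi v _).1, ((hfi v fun y => ω (y, v)).2 y hy.1).trans hy.2⟩
      dout := fun v hv => (le_of_notMem_small hv).1
      din := fun v hv => (le_of_notMem_small hv).2
      dense := g1
      sparse := g2
      sep := g3
      sep1 := g4
      cyc := g5 }

open scoped Classical in
theorem cond_fail [Nonempty V] {ε : ℝ} (hε : 0 < ε) (hε1 : ε ≤ 1) (c : Par (Fintype.card V) ε)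
    {D G Gp : V → V → Prop}
    (hout : ∀ v, (1 / 2 + ε) * Fintype.card V ≤ (univ.filter (D v)).card)
    (hin : ∀ v, (1 / 2 + ε) * Fintype.card V ≤ (univ.filter fun u => D u v).card)
    {z : V → ℕ} {Z Sm : Finset V} {fo fi : V → V} (hZ : (Z.card : ℝ) ≤ ε * Fintype.card V / 4)
    (hz1 : ∀ v, z v ≤ 2 * c.K + 1 → v ∈ Z)
    (hz2 : ∀ t, ∀ i ≤ 2 * c.K + 1, (1 / 2 + ε / 2) * (Fintype.card V / c.R) ≤
      (univ.filter fun y => z y = i ∧ D t y).card)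
    (hz3 : ∀ t, ∀ i ≤ 2 * c.K + 1, ((univ.filter fun y => z y = i ∧ ¬ D t y).card : ℝ) ≤
      (1 / 2 - ε / 2) * (Fintype.card V / c.R))
    (hQ : Quasi D G Gp Z Sm fo fi c.d c.μ c.ℓ c.M0 c.ν) (hSm : (Sm.card : ℝ) ≤ c.sm) :
    Pr c.w₂ (fun y : V × V → Bool × Bool => ¬ ∃ (σ : Perm V) (s : V), (∀ v, σ.SameCycle s v) ∧
      ∀ v, G v (σ v) ∨ (v ∈ Sm ∧ σ v = fo v) ∨ (σ v ∈ Sm ∧ v = fi (σ v)) ∨
        (v ∉ Sm ∧ σ v ∉ Sm ∧ D v (σ v) ∧ (y (v, σ v)).1 = true)) ≤ c.err₁ := by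
  have hn0 : (0 : ℝ) ≤ ε * Fintype.card V := by positivity
  have ht0 : (0 : ℝ) < c.t := by exact_mod_cast c.tpos
  have hdom0 : 0 < c.dom := by
    have h1 := c.n1
    by_contra h2
    rw [Nat.eq_zero_of_not_pos h2] at h1
    simp only [Nat.cast_zero, mul_zero] at h1
    linarith
  obtain ⟨F, q, m, X0, b1, b2, b3, b4, b5, b6, b7, b8, b9, b10, b11, b12⟩ :=
    hQ.build c.hν hout hin (by linarith [c.hν1, c.hsm1]) z (2 * c.K + 1) hz1 hz2 hz3 hdom0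
      (by linarith [c.hdom])
  have b1' : (m : ℝ) ≤ Z.card := by exact_mod_cast b1
  have b6' : (X0.card : ℝ) ≤ 2 * Sm.card := by exact_mod_cast b6
  let P : PCtx V (Bool × Bool) :=
    { D := D, s := q 0, F := F, X0 := X0, q := q, lab := fun j => z (q j), ε := ε, mQ := m,
      K := c.K, L := c.L, dom := c.dom, B := c.t + c.t, κ := c.t, ℓ := c.ℓ, h := c.h,
      M0 := c.M0, hε := hε, hε1 := hε1, hout := hout, hin := hin, q0 := rfl, qinj := b2,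
      qF := b3, labmono := b4, hdom := b5, hK := c.hK, domL := c.domL, hL := c.hL,
      hX0 := by linarith [c.hsm1], n1 := by push_cast; linarith [c.n1],
      n2 := by push_cast; linarith [c.n2], κpos := c.tpos, hℓ := c.hℓ, ℓpos := c.ℓpos,
      hX0s := b7, free := b8, tiny := b9, w := c.w₂, on := fun b => b.1 = true, p := c.p₂,
      β := c.β, TA := c.t, TC := c.t, hw := c.isW₂, hp := c.wt_on.ge, ppos := c.hp₂,
      hβ := c.hβ, hβ2 := c.hβ2, hpos := c.hpos, hB := le_rfl }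
  have h1 := P.machine (by
    have h2 : (X0.card : ℝ) ≤ c.t := by linarith [c.hsm2]
    exact_mod_cast h2)
  refine le_trans (Pr_mono c.isW₂ fun y hy => ?_) (h1.trans ?_)
  · rintro ⟨σ, h2, h3⟩
    refine hy ⟨σ, q 0, h2, fun v => ?_⟩
    rcases h3 v with ⟨h4, h5⟩ | ⟨h4, h5, h6, h7⟩
    · have h4' : σ v = F v := h4
      rw [h4']
      rcases b12 v (h4' ▸ h5) with h6 | h6 | h6
      · exact Or.inl h6
      · exact Or.inr (Or.inl h6)
      · exact Or.inr (Or.inr (Or.inl h6))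
    · exact Or.inr (Or.inr (Or.inr ⟨fun h => h4 (b10 h), fun h => h5 (b11 _ h), h6, h7⟩))
  · unfold Par.err₁ PCtx.θ PCtx.a
    refine add_le_add (add_le_add le_rfl (Real.exp_le_exp.2 (neg_le_neg
      (mul_le_mul_of_nonneg_left ?_ (by have := c.hp₂; positivity))))) le_rfl
    exact sub_le_sub_right (sub_le_sub_left (by linarith) _) _

open scoped Classical in
theorem core [Nonempty V] {ε : ℝ} (hε : 0 < ε) (hε1 : ε ≤ 1) (c : Par (Fintype.card V) ε)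
    {D : V → V → Prop} (hD : ∀ v, ¬ D v v)
    (hout : ∀ v, (1 / 2 + ε) * Fintype.card V ≤ (univ.filter (D v)).card)
    (hin : ∀ v, (1 / 2 + ε) * Fintype.card V ≤ (univ.filter fun u => D u v).card)
    (fo fi : V → (V → Bool × Bool × Bool) → V)
    (hfo : ∀ v r, D v (fo v r) ∧ ∀ y, D v y → cl (r (fo v r)) ≤ cl (r y))
    (hfi : ∀ v r, D (fi v r) v ∧ ∀ y, D y v → cl (r (fi v r)) ≤ cl (r y)) :
    Pr c.w (fun ω => ¬ (Ham D fo fi ω ∧ ∃ v, ∀ y, ¬ cl (ω (v, y)) ≤ 1)) ≤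
      c.err₂ + c.err₁ + c.err₃ := by
  obtain ⟨z, hz1, hz2, hz3⟩ := exists_labels hε hε1 hout c.hR c.hlab
  obtain ⟨Z, hZdef⟩ : ∃ Z, Z = univ.filter fun v => z v ≤ 2 * c.K + 1 := ⟨_, rfl⟩
  rw [← hZdef] at hz1
  have hZ : (Z.card : ℝ) ≤ ε * Fintype.card V / 4 := hz1.trans c.hZ
  have hβ : 0 < c.β := (Real.exp_pos _).trans_le c.hβ
  have e1 := Pr_not_good c hD hout hin hZ
  have e3 := Pr_rows (V := V) c.isW (fun b => cl b ≤ 1) c.wt₂ (by linarith [c.hp, c.hp1, c.hp₃])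
  have e2 := fubini c.isW₁ c.isW₂ (fun (a : V × V → Bool) (e : V × V) =>
    e.1 ∈ small D Z c.d (fun b => b = true) a ∨ e.2 ∈ small D Z c.d (fun b => b = true) a)
    (Ham D fo fi) (Good c D Z) (e := c.err₁) (by unfold Par.err₁; positivity) fun a x y₀ hG => by
      have hQ := hG.quasi hD hfo hfi
      have hS := hG.2.2.2.2.2.1.le
      rw [small_pair] at hQ hS
      generalize small D Z c.d (fun b => b = true) a = Sm at hQ hS ⊢
      refine le_trans (Pr_mono c.isW₂ fun y hy => ?_) (cond_fail hε hε1 c hout hin hZ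
        (fun v hv => hZdef ▸ mem_filter.2 ⟨mem_univ _, hv⟩) hz2 hz3 hQ hS)
      rintro ⟨σ, s, h2, h3⟩
      refine hy ⟨σ, s, h2, fun v => ?_⟩
      rcases h3 v with h6 | ⟨h6, h7⟩ | ⟨h6, h7⟩ | ⟨h4, h5, h6, h7⟩
      · have h7 : a (v, σ v) = true := h6.2
        exact ⟨h6.1, Or.inl (by simp [cl, h7])⟩
      · refine ⟨h7 ▸ (hfo v _).1, Or.inr (Or.inl (h7.trans ?_))⟩
        simp only [h6, true_or, if_true]
      · refine ⟨?_, Or.inr (Or.inr (h7.trans ?_))⟩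
        · nth_rewrite 1 [h7]
          exact (hfi _ _).1
        · simp only [h6, or_true, if_true]
      · refine ⟨h6, Or.inl ?_⟩
        simp only [cl, h4, h5, or_self, if_false, h7, cond_true]
        cases a (v, σ v) <;> simp
  exact le_trans (Pr_mono c.isW fun ω hω => not_and_or.1 hω)
    ((Pr_or_le c.isW _ _).trans (add_le_add (e2.trans (add_le_add e1 le_rfl)) e3))

end Pool.Agent.P.MP_11f821_pr
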