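import Mathlib

/-!
The random digraph process restricted to a digraph `D` on `Fin n` and its two hitting times.
-/

namespace Pool.Agent.P.MP_11f821_pr

/-- The arc set of `D_m`: the first `m` arcs of `D` in the ordering `σ`. -/
def stage {n : ℕ} {D : Finset (Fin n × Fin n)} (σ : Fin D.card ≃ D) (m : ℕ) :
    Set (Fin n × Fin n) :=
  {e | ∃ i : Fin D.card, i.val < m ∧ (σ i).val = e}

/-- The first time at which every vertex has out-degree and in-degree at least one. -/
noncomputable def tauOne {n : ℕ} {D : Finset (Fin n × Fin n)} (σ : Fin D.card ≃ D) : ℕ :=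
  sInf {m | ∀ v : Fin n, (∃ u, (v, u) ∈ stage σ m) ∧ ∃ u, (u, v) ∈ stage σ m}

/-- The first time at which there is a directed cycle `f 0, f 1, …, f (n-1), f 0` through all
vertices. -/
noncomputable def tauHam {n : ℕ} {D : Finset (Fin n × Fin n)} (σ : Fin D.card ≃ D) : ℕ :=
  sInf {m | ∃ f : Fin n ≃ Fin n, ∀ i : Fin n, (f i, f (finRotate n i)) ∈ stage σ m}

end Pool.Agent.P.MP_11f821_pr
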