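import Pool.Agent.P.MP_11f821_pr.Core
import Pool.Agent.P.MP_11f821_pr.Defs

/-!
Coupling of a uniformly random ordering of the arcs with independent classes.
-/

namespace Pool.Agent.P.MP_11f821_pr

open Finset Equiv Equiv.Perm

section general

variable {ι α : Type*} [Fintype ι] [DecidableEq ι] [Fintype α] {D : Finset ι}

/-- Sort the elements of `D` by class, breaking ties with `ρ`. -/
def srt (k : α → ℕ) (ρ : Fin D.card ≃ D) (c : ι → α) : Fin D.card ≃ D :=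
  (Tuple.sort fun i => toLex (k (c (ρ i)), i.val)).trans ρ

theorem couple {w : α → ℝ} (hw : IsW w) (k : α → ℕ) (Bad : (Fin D.card ≃ D) → Prop) {e : ℝ}
    (h : ∀ ρ, Pr w (fun c => Bad (srt k ρ c)) ≤ e) :
    ∑ σ, ind (Bad σ) ≤ Fintype.card (Fin D.card ≃ D) * e := by
  let ρ₀ : Fin D.card ≃ D := D.equivFin.symm
  have h1 : ∀ ρ : Fin D.card ≃ D, Pr w (fun c => Bad (srt k ρ c)) = Ex w fun c : ι → α =>
      ind (Bad ((Tuple.sort fun i => toLex (k (c (ρ₀ i)), i.val)).trans ρ)) := by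
    intro ρ
    rw [← Ex_comp_equiv (Perm.ofSubtype (ρ₀.symm.trans ρ))]
    unfold Pr srt
    simp only [Function.comp, Perm.ofSubtype_apply_coe, trans_apply, symm_apply_apply]
  have h2 : ∀ τ : Perm (Fin D.card), ∑ ρ : Fin D.card ≃ D, ind (Bad (τ.trans ρ)) =
      ∑ σ, ind (Bad σ) := fun τ =>
    Fintype.sum_equiv (Equiv.equivCongr τ.symm (Equiv.refl _)) _ _ fun _ => rfl
  have h3 : ∑ σ, ind (Bad σ) = ∑ ρ : Fin D.card ≃ D, Pr w fun c => Bad (srt k ρ c) := by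
    simp only [h1]
    rw [← Ex_sum]
    simp only [h2]
    rw [Ex_const hw]
  rw [h3, ← card_univ, ← nsmul_eq_mul]
  exact sum_le_card_nsmul _ _ _ fun ρ _ => h ρ

/-- Position of an element in the ordering `ρ`. -/
def rk (ρ : Fin D.card ≃ D) (e : ι) : ℕ := if h : e ∈ D then (ρ.symm ⟨e, h⟩).val else 0

omit [Fintype ι] [Fintype α] in
theorem srt_down (k : α → ℕ) (ρ : Fin D.card ≃ D) (c : ι → α) {e : ι} (he : e ∈ D)
    (j : Fin D.card) (h : toLex (k (c e), rk ρ e) ≤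
      toLex (k (c (srt k ρ c j)), rk ρ (srt k ρ c j))) :
    ∃ i ≤ j, (srt k ρ c i).val = e := by
  obtain ⟨i, hi⟩ := (srt k ρ c).surjective ⟨e, he⟩
  have h1 : e = (srt k ρ c i).val := by rw [hi]
  refine ⟨i, ?_, h1.symm⟩
  have h2 : ∀ i, rk ρ (srt k ρ c i) =
      (Tuple.sort (fun i => toLex (k (c (ρ i)), i.val)) i).val := by
    intro i
    rw [rk, dif_pos (srt k ρ c i).2]
    simp [srt]
  rw [h1, h2, h2] at h
  by_contra h3
  have h4 := Tuple.monotone_sort (fun i => toLex (k (c (ρ i)), i.val)) (not_le.1 h3).le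
  have h5 := congrArg (fun x => (ofLex x).2) (le_antisymm h h4)
  exact h3 (Equiv.injective _ (Fin.ext h5)).le

end general

theorem exists_rotate {n : ℕ} (hn : 2 ≤ n) {σ : Perm (Fin n)} {s : Fin n}
    (h : ∀ v, σ.SameCycle s v) (h1 : ∀ v, σ v ≠ v) :
    ∃ f : Fin n ≃ Fin n, ∀ i, f (finRotate n i) = σ (f i) := by
  have h2 : σ.IsCycle := ⟨s, h1 s, fun v _ => h v⟩
  have h3 : σ.support = univ := eq_univ_of_forall fun v => mem_support.2 (h1 v)
  obtain ⟨f, hf⟩ := isConj_iff.1 ((isCycle_finRotate_of_le hn).isConj h2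
    (by rw [h3, support_finRotate_of_le hn]))
  refine ⟨f, fun i => ?_⟩
  rw [← hf]
  simp

theorem tau_eq {n : ℕ} {D : Finset (Fin n × Fin n)} (σ : Fin D.card ≃ D)
    (h : ∃ f : Fin n ≃ Fin n, ∀ i, (f i, f (finRotate n i)) ∈ stage σ (tauOne σ)) :
    tauHam σ = tauOne σ := by
  refine le_antisymm (Nat.sInf_le h) (Nat.sInf_le ?_)
  obtain ⟨f, hf⟩ := Nat.sInf_mem (s := {m | ∃ f : Fin n ≃ Fin n, ∀ i : Fin n,
    (f i, f (finRotate n i)) ∈ stage σ m}) ⟨_, h⟩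
  intro v
  have h1 := hf ((finRotate n).symm (f.symm v))
  have h2 := hf (f.symm v)
  rw [apply_symm_apply] at h2
  rw [apply_symm_apply, apply_symm_apply] at h1
  exact ⟨⟨_, h2⟩, _, h1⟩

theorem count_bad {n : ℕ} (hn : 2 ≤ n) {ε : ℝ} (hε : 0 < ε) (hε1 : ε ≤ 1) (c : Par n ε)
    (D : Finset (Fin n × Fin n)) (hD : ∀ e ∈ D, e.1 ≠ e.2)
    (hout : ∀ v, (1 / 2 + ε) * n ≤ ((D.filter fun e => e.1 = v).card : ℝ))
    (hin : ∀ v, (1 / 2 + ε) * n ≤ ((D.filter fun e => e.2 = v).card : ℝ)) :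
    ∑ σ : Fin D.card ≃ D, ind (¬ tauHam σ = tauOne σ) ≤
      Fintype.card (Fin D.card ≃ D) * (c.err₂ + c.err₁ + c.err₃) := by
  classical
  have : Nonempty (Fin n) := ⟨⟨0, by omega⟩⟩
  have hn0 : (0 : ℝ) < (1 / 2 + ε) * n := by
    have : (0 : ℝ) < n := by exact_mod_cast (by omega : 0 < n)
    positivity
  have hout' : ∀ v, (D.filter fun e => e.1 = v).card ≤ (univ.filter fun u => (v, u) ∈ D).card :=
    fun v => card_le_card_of_injOn Prod.snd (fun e he => by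
      obtain ⟨h1, h2⟩ := mem_filter.1 (mem_coe.1 he)
      exact mem_coe.2 (mem_filter.2 ⟨mem_univ _, h2 ▸ h1⟩)) fun e he e' he' h =>
        Prod.ext ((mem_filter.1 (mem_coe.1 he)).2.trans (mem_filter.1 (mem_coe.1 he')).2.symm) h
  have hin' : ∀ v, (D.filter fun e => e.2 = v).card ≤ (univ.filter fun u => (u, v) ∈ D).card :=
    fun v => card_le_card_of_injOn Prod.fst (fun e he => by
      obtain ⟨h1, h2⟩ := mem_filter.1 (mem_coe.1 he)
      exact mem_coe.2 (mem_filter.2 ⟨mem_univ _, h2 ▸ h1⟩)) fun e he e' he' h =>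
        Prod.ext h ((mem_filter.1 (mem_coe.1 he)).2.trans (mem_filter.1 (mem_coe.1 he')).2.symm)
  have g1 : ∀ v, (univ.filter fun u => (v, u) ∈ D).Nonempty := fun v =>
    card_pos.1 (lt_of_lt_of_le (Nat.cast_pos.1 (hn0.trans_le (hout v))) (hout' v))
  have g2 : ∀ v, (univ.filter fun u => (u, v) ∈ D).Nonempty := fun v =>
    card_pos.1 (lt_of_lt_of_le (Nat.cast_pos.1 (hn0.trans_le (hin v))) (hin' v))
  refine couple c.isW cl (fun σ => ¬ tauHam σ = tauOne σ) fun ρ => ?_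
  choose fo hfo1 hfo2 using fun (v : Fin n) (r : Fin n → Bool × Bool × Bool) =>
    exists_min_image _ (fun y => toLex (cl (r y), rk ρ (v, y))) (g1 v)
  choose fi hfi1 hfi2 using fun (v : Fin n) (r : Fin n → Bool × Bool × Bool) =>
    exists_min_image _ (fun y => toLex (cl (r y), rk ρ (y, v))) (g2 v)
  simp only [mem_filter, mem_univ, true_and] at hfo1 hfo2 hfi1 hfi2
  have key : ∀ c : Par (Fintype.card (Fin n)) ε, Pr c.w (fun ω => ¬ (Ham (fun u v => (u, v) ∈ D)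
      fo fi ω ∧ ∃ v, ∀ y, ¬ cl (ω (v, y)) ≤ 1)) ≤ c.err₂ + c.err₁ + c.err₃ := fun c =>
    core hε hε1 c (fun v h => hD _ h rfl)
      (fun v => by
        rw [Fintype.card_fin]
        exact (hout v).trans (Nat.cast_le.2 ((hout' v).trans (le_of_eq (by congr)))))
      (fun v => by
        rw [Fintype.card_fin]
        exact (hin v).trans (Nat.cast_le.2 ((hin' v).trans (le_of_eq (by congr))))) fo fi
      (fun v r => ⟨hfo1 v r, fun y hy => Prod.Lex.monotone_fst _ _ (hfo2 v r y hy)⟩)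
      (fun v r => ⟨hfi1 v r, fun y hy => Prod.Lex.monotone_fst _ _ (hfi2 v r y hy)⟩)
  rw [Fintype.card_fin] at key
  refine le_trans (Pr_mono c.isW fun ω hω => ?_) (key c)
  rintro ⟨⟨σ, s, h1, h2⟩, v₀, h3⟩
  refine hω (tau_eq _ ?_)
  obtain ⟨f, hf⟩ := exists_rotate hn h1 fun v h => hD _ (h2 v).1 h.symm
  have h4 := Nat.sInf_mem (s := {m | ∀ v : Fin n, (∃ u, (v, u) ∈ stage (srt cl ρ ω) m) ∧
      ∃ u, (u, v) ∈ stage (srt cl ρ ω) m}) ⟨D.card, fun v => by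
    have h5 : ∀ e ∈ D, e ∈ stage (srt cl ρ ω) D.card := fun e he =>
      ⟨(srt cl ρ ω).symm ⟨e, he⟩, Fin.is_lt _, by rw [apply_symm_apply]⟩
    exact ⟨⟨_, h5 _ (hfo1 v fun _ => default)⟩, ⟨_, h5 _ (hfi1 v fun _ => default)⟩⟩⟩
  have h5 : ∀ e ∈ D, ∀ e' ∈ stage (srt cl ρ ω) (tauOne (srt cl ρ ω)),
      (e' ∈ D → toLex (cl (ω e), rk ρ e) ≤ toLex (cl (ω e'), rk ρ e')) →
        e ∈ stage (srt cl ρ ω) (tauOne (srt cl ρ ω)) := by
    rintro e he _ ⟨j, hj, rfl⟩ h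
    obtain ⟨i, h6, h7⟩ := srt_down cl ρ ω he j (h (srt cl ρ ω j).2)
    exact ⟨i, lt_of_le_of_lt h6 hj, h7⟩
  refine ⟨f, fun i => ?_⟩
  rw [hf]
  generalize f i = v
  obtain ⟨h6, h7 | h7 | h7⟩ := h2 v
  · obtain ⟨u, hu⟩ := (h4 v₀).1
    exact h5 _ h6 _ hu fun _ => (Prod.Lex.toLex_lt_toLex.2 (Or.inl
      (h7.trans_lt (not_le.1 (h3 u))))).le
  · obtain ⟨u, hu⟩ := (h4 v).1
    refine h5 _ h6 _ hu fun h => ?_
    rw [h7]
    exact hfo2 v (fun y => ω (v, y)) u h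
  · obtain ⟨u, hu⟩ := (h4 (σ v)).2
    refine h5 _ h6 _ hu fun h => ?_
    have h8 := hfi2 (σ v) (fun y => ω (y, σ v)) u h
    rwa [← h7] at h8

end Pool.Agent.P.MP_11f821_pr
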