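import Pool.Agent.P.MP_11f821_pr.Moves

/-!
A depth-first search producing a path that covers a large part of several vertex classes in turn,
and an extension of a matching to a permutation through Hall's theorem.
-/

namespace Pool.Agent.P.MP_11f821_pr

open Finset Equiv Equiv.Perm

variable {V : Type*} [Fintype V] [DecidableEq V]

/-- A directed path of `G` avoiding `X`, whose labels are nondecreasing and at most `i`. -/
structure IsPath (G : V → V → Prop) (z : V → ℕ) (X : Finset V) (i m : ℕ) (q : ℕ → V) : Prop where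
  inj : ∀ a b, a < m → b < m → q a = q b → a = b
  arc : ∀ j, j + 1 < m → G (q j) (q (j + 1))
  mono : ∀ a b, a ≤ b → b < m → z (q a) ≤ z (q b)
  le : ∀ a, a < m → z (q a) ≤ i
  notMem : ∀ a, a < m → q a ∉ X

variable {G : V → V → Prop} {z : V → ℕ} {X : Finset V} {i m : ℕ} {q : ℕ → V}

omit [Fintype V] in
theorem IsPath.card_image (h : IsPath G z X i m q) : ((range m).image q).card = m := by
  rw [card_image_of_injOn, card_range]
  intro a ha b hb hab
  exact h.inj a b (mem_range.1 (mem_coe.1 ha)) (mem_range.1 (mem_coe.1 hb)) hab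

omit [Fintype V] [DecidableEq V] in
theorem IsPath.pop (h : IsPath G z X i (m + 1) q) : IsPath G z X i m q :=
  ⟨fun a b ha hb => h.inj a b (by omega) (by omega), fun j hj => h.arc j (by omega),
    fun a b hab hb => h.mono a b hab (by omega), fun a ha => h.le a (by omega),
    fun a ha => h.notMem a (by omega)⟩

omit [Fintype V] [DecidableEq V] in
theorem IsPath.push (h : IsPath G z X i m q) {y : V} (h1 : z y = i) (h2 : y ∉ X)
    (h3 : ∀ a, a < m → q a ≠ y) (h4 : ∀ j, j + 1 = m → G (q j) y) :
    IsPath G z X i (m + 1) fun a => if a < m then q a else y := by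
  refine ⟨fun a b ha hb hab => ?_, fun j hj => ?_, fun a b hab hb => ?_, fun a _ => ?_,
    fun a _ => ?_⟩
  · by_cases h5 : a < m <;> by_cases h6 : b < m
    · rw [if_pos h5, if_pos h6] at hab
      exact h.inj a b h5 h6 hab
    · rw [if_pos h5, if_neg h6] at hab
      exact absurd hab (h3 a h5)
    · rw [if_neg h5, if_pos h6] at hab
      exact absurd hab.symm (h3 b h6)
    · omega
  · rw [if_pos (by omega : j < m)]
    split_ifs with h5
    · exact h.arc j h5
    · exact h4 j (by omega)
  · split_ifs with h5 h6 h6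
    · exact h.mono a b hab h6
    · exact h1 ▸ h.le a h5
    · omega
    · exact le_rfl
  · split_ifs with h5
    · exact h.le a h5
    · exact h1.le
  · split_ifs with h5
    · exact h.notMem a h5
    · exact h2

omit [Fintype V] in
theorem image_push (q : ℕ → V) (m : ℕ) (y : V) :
    (range (m + 1)).image (fun a => if a < m then q a else y) = insert y ((range m).image q) := by
  rw [range_add_one, image_insert, if_neg (lt_irrefl m)]
  congr 1
  exact image_congr fun a ha => if_pos (mem_range.1 (mem_coe.1 ha))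

theorem dfs_phase {μ : ℕ} {θ : ℝ} (hθ : 0 ≤ θ)
    (hE : ∀ S T : Finset V, μ ≤ S.card → (∀ y ∈ T, z y = i) → θ < T.card → ∃ a ∈ S, ∃ b ∈ T, G a b)
    {m₀ : ℕ} {q₀ : ℕ → V} (h₀ : IsPath G z X i m₀ q₀) :
    ∃ (m : ℕ) (q : ℕ → V) (S : Finset V), IsPath G z X i m q ∧ S.card ≤ μ ∧
      (range m₀).image q₀ ⊆ (range m).image q ∪ S ∧
      (((univ.filter fun y => z y = i) \ ((range m).image q ∪ S ∪ X)).card : ℝ) ≤ θ := by
  have key : ∀ k : ℕ, ∃ (m : ℕ) (q : ℕ → V) (S : Finset V), IsPath G z X i m q ∧ S.card ≤ μ ∧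
      (range m₀).image q₀ ⊆ (range m).image q ∪ S ∧ (∀ a, a < m → q a ∉ S) ∧
      (∀ a ∈ S, ∀ b ∈ (univ.filter fun y => z y = i) \ ((range m).image q ∪ S ∪ X), ¬ G a b) ∧
      (k ≤ m + 2 * S.card ∨
        (((univ.filter fun y => z y = i) \ ((range m).image q ∪ S ∪ X)).card : ℝ) ≤ θ) := by
    intro k
    induction k with
    | zero => exact ⟨m₀, q₀, ∅, h₀, by simp, by simp, by simp, by simp, Or.inl (Nat.zero_le _)⟩
    | succ k ih =>
      obtain ⟨m, q, S, h1, h2, h3, h4, h5, h6⟩ := ih
      by_cases h7 :
          (((univ.filter fun y => z y = i) \ ((range m).image q ∪ S ∪ X)).card : ℝ) ≤ θ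
      · exact ⟨m, q, S, h1, h2, h3, h4, h5, Or.inr h7⟩
      have h8 := h6.resolve_right h7
      rw [not_le] at h7
      by_cases h9 : ∃ y ∈ (univ.filter fun y => z y = i) \ ((range m).image q ∪ S ∪ X),
          ∀ j, j + 1 = m → G (q j) y
      · obtain ⟨y, hy, h9⟩ := h9
        simp only [mem_sdiff, mem_filter, mem_univ, true_and, mem_union, mem_image, mem_range,
          not_or, not_exists, not_and] at hy
        refine ⟨m + 1, _, S, h1.push hy.1 hy.2.2 hy.2.1.1 h9, h2, ?_, fun a _ => ?_, ?_,
          Or.inl (by omega)⟩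
        · rw [image_push]
          exact h3.trans (union_subset_union (subset_insert _ _) Subset.rfl)
        · split_ifs with h10
          · exact h4 a h10
          · exact hy.2.1.2
        · rw [image_push]
          intro a ha b hb
          refine h5 a ha b (sdiff_subset_sdiff Subset.rfl ?_ hb)
          exact union_subset_union (union_subset_union (subset_insert _ _) Subset.rfl) Subset.rfl
      · push Not at h9
        have h10 : S.card < μ := by
          by_contra h10
          obtain ⟨a, ha, b, hb, hab⟩ := hE S _ (not_lt.1 h10)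
            (fun y hy => (mem_filter.1 (mem_sdiff.1 hy).1).2) h7
          exact h5 a ha b hb hab
        obtain ⟨y, hy⟩ := card_pos.1 (Nat.cast_pos.1 (hθ.trans_lt h7))
        obtain ⟨m, rfl, -⟩ := h9 y hy
        have h11 : (range (m + 1)).image q ∪ S = (range m).image q ∪ insert (q m) S := by
          rw [range_add_one, image_insert, insert_union, union_insert]
        have h12 := card_insert_of_notMem (h4 m (Nat.lt_succ_self m))
        refine ⟨m, q, insert (q m) S, h1.pop, by omega, h11 ▸ h3, fun a ha => ?_, ?_,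
          Or.inl (by omega)⟩
        · rw [mem_insert, not_or]
          exact ⟨fun h => absurd (h1.inj a m (by omega) (by omega) h) (by omega),
            h4 a (by omega)⟩
        · rw [← h11]
          intro a ha b hb
          rcases mem_insert.1 ha with rfl | ha
          · obtain ⟨j, hj, h13⟩ := h9 b hb
            rwa [Nat.succ_injective hj] at h13
          · exact h5 a ha b hb
  obtain ⟨m, q, S, h1, h2, h3, -, -, h6⟩ := key (Fintype.card V + 2 * μ + 1)
  refine ⟨m, q, S, h1, h2, h3, h6.resolve_left ?_⟩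
  have h7 : m ≤ Fintype.card V := h1.card_image ▸ card_le_univ _
  omega

theorem dfs [Nonempty V] {μ : ℕ} {θ : ℝ} (hθ : 0 ≤ θ) (k : ℕ)
    (hE : ∀ i < k, ∀ S T : Finset V, μ ≤ S.card → (∀ y ∈ T, z y = i) → θ < T.card →
      ∃ a ∈ S, ∃ b ∈ T, G a b) :
    ∃ (m : ℕ) (q : ℕ → V), IsPath G z X (k - 1) m q ∧ ∀ i < k,
      (((univ.filter fun y => z y = i) \ (range m).image q).card : ℝ) ≤ θ + X.card + k * μ := by
  induction k with
  | zero =>
    exact ⟨0, fun _ => Classical.arbitrary V, ⟨by simp, by simp, by simp, by simp, by simp⟩,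
      by simp⟩
  | succ k ih =>
    obtain ⟨m₀, q₀, h1, h2⟩ := ih fun i hi => hE i (by omega)
    obtain ⟨m, q, S, h3, h4, h5, h6⟩ := dfs_phase (X := X) hθ (hE k (Nat.lt_succ_self k))
      (⟨h1.inj, h1.arc, h1.mono, fun a ha => (h1.le a ha).trans (Nat.sub_le _ _), h1.notMem⟩ :
        IsPath G z X k m₀ q₀)
    have h7 : (S.card : ℝ) ≤ μ := by exact_mod_cast h4
    refine ⟨m, q, h3, fun i hi => ?_⟩
    push_cast
    rcases (Nat.lt_succ_iff.1 hi).eq_or_lt with rfl | hi
    · have h8 : (univ.filter fun y => z y = i) \ (range m).image q ⊆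
          (univ.filter fun y => z y = i) \ ((range m).image q ∪ S ∪ X) ∪ S ∪ X := by
        intro y hy
        simp only [mem_sdiff, mem_union] at hy ⊢
        tauto
      have h9 := (card_le_card h8).trans ((card_union_le _ _).trans
        (Nat.add_le_add_right (card_union_le _ _) _))
      have h10 : (((univ.filter fun y => z y = i) \ (range m).image q).card : ℝ) ≤
          ((univ.filter fun y => z y = i) \ ((range m).image q ∪ S ∪ X)).card + S.card +
            X.card := by exact_mod_cast h9
      have h11 : (0 : ℝ) ≤ i * μ := by positivity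
      linarith
    · have h8 : (univ.filter fun y => z y = i) \ (range m).image q ⊆
          (univ.filter fun y => z y = i) \ (range m₀).image q₀ ∪ S := by
        intro y hy
        have h9 := @h5 y
        simp only [mem_sdiff, mem_union] at hy h9 ⊢
        tauto
      have h9 := (card_le_card h8).trans (card_union_le _ _)
      have h10 : (((univ.filter fun y => z y = i) \ (range m).image q).card : ℝ) ≤
          ((univ.filter fun y => z y = i) \ (range m₀).image q₀).card + S.card := by
        exact_mod_cast h9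
      linarith [h2 i hi]

theorem hall_extend (M : Finset (V × V)) (h1 : Set.InjOn Prod.fst (M : Set (V × V)))
    (h2 : Set.InjOn Prod.snd (M : Set (V × V))) (G : V → V → Prop)
    (H : ∀ A B : Finset V, Disjoint A (M.image Prod.fst) → Disjoint B (M.image Prod.snd) →
      Fintype.card V < A.card + B.card + M.card → ∃ a ∈ A, ∃ b ∈ B, G a b) :
    ∃ F : Perm V, (∀ e ∈ M, F e.1 = e.2) ∧ ∀ v, (v, F v) ∈ M ∨ G v (F v) := by
  classical
  let t : V → Finset V := fun v => univ.filter fun y =>
    (v, y) ∈ M ∨ (v ∉ M.image Prod.fst ∧ y ∉ M.image Prod.snd ∧ G v y)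
  obtain ⟨f, hf1, hf2⟩ := (all_card_le_biUnion_card_iff_exists_injective t).1 fun A => by
    set N := univ.filter fun y => y ∉ M.image Prod.snd ∧ ∃ a ∈ A \ M.image Prod.fst, G a y with hN
    set M' := M.filter fun e => e.1 ∈ A with hM'
    have h3 : (A \ M.image Prod.fst).card ≤ N.card := by
      by_contra h3
      have h4 : N ⊆ (M.image Prod.snd)ᶜ := fun y hy => mem_compl.2 (mem_filter.1 hy).2.1
      have h5 := card_sdiff_add_card_eq_card h4
      rw [card_compl, card_image_of_injOn h2] at h5
      have h6 : M.card ≤ Fintype.card V := card_image_of_injOn h2 ▸ card_le_univ _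
      obtain ⟨a, ha, b, hb, hab⟩ := H (A \ M.image Prod.fst) ((M.image Prod.snd)ᶜ \ N)
        sdiff_disjoint (disjoint_of_subset_left sdiff_subset disjoint_compl_left) (by omega)
      obtain ⟨h7, h8⟩ := mem_sdiff.1 hb
      exact h8 (mem_filter.2 ⟨mem_univ _, mem_compl.1 h7, a, ha, hab⟩)
    have h4 : (A ∩ M.image Prod.fst).card ≤ (M'.image Prod.snd).card := by
      rw [card_image_of_injOn (h2.mono (coe_subset.2 (filter_subset _ _)))]
      refine le_trans (card_le_card fun a ha => ?_) (card_image_le (f := Prod.fst))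
      obtain ⟨h5, h6⟩ := mem_inter.1 ha
      obtain ⟨e, he, rfl⟩ := mem_image.1 h6
      exact mem_image_of_mem _ (mem_filter.2 ⟨he, h5⟩)
    have h5 : Disjoint N (M'.image Prod.snd) := disjoint_left.2 fun y hy hy' =>
      (mem_filter.1 hy).2.1 (image_subset_image (filter_subset _ _) hy')
    have h6 : N ∪ M'.image Prod.snd ⊆ A.biUnion t := by
      intro y hy
      rcases mem_union.1 hy with hy | hy
      · obtain ⟨h7, a, ha, h8⟩ := (mem_filter.1 hy).2
        exact mem_biUnion.2 ⟨a, (mem_sdiff.1 ha).1,
          mem_filter.2 ⟨mem_univ _, Or.inr ⟨(mem_sdiff.1 ha).2, h7, h8⟩⟩⟩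
      · obtain ⟨e, he, rfl⟩ := mem_image.1 hy
        exact mem_biUnion.2 ⟨e.1, (mem_filter.1 he).2,
          mem_filter.2 ⟨mem_univ _, Or.inl (mem_filter.1 he).1⟩⟩
    have h7 := card_le_card h6
    rw [card_union_of_disjoint h5] at h7
    have h8 := card_sdiff_add_card_inter A (M.image Prod.fst)
    omega
  refine ⟨Equiv.ofBijective f (Finite.injective_iff_bijective.1 hf1), fun e he => ?_, fun v => ?_⟩
  · rcases (mem_filter.1 (hf2 e.1)).2 with h | h
    · exact congrArg Prod.snd (h1 (mem_coe.2 h) (mem_coe.2 he) rfl)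
    · exact absurd (mem_image_of_mem _ he) h.1
  · exact (mem_filter.1 (hf2 v)).2.imp_right fun h => h.2.2

end Pool.Agent.P.MP_11f821_pr
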