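import Pool.Agent.P.MP_11f821_pr.Perm

/-!
Deterministic part of the rotation argument: in a dense digraph every position has linearly many
good moves.
-/

namespace Pool.Agent.P.MP_11f821_pr

open Finset Equiv Equiv.Perm

open scoped Classical in
/-- The data on which the rotation process runs. -/
structure Ctx (V : Type*) [Fintype V] [DecidableEq V] where
  D : V → V → Prop
  s : V
  F : Perm V
  X0 : Finset V
  q : ℕ → V
  lab : ℕ → ℕ
  ε : ℝ
  mQ : ℕ
  K : ℕ
  L : ℕ
  dom : ℕ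
  B : ℕ
  κ : ℕ
  ℓ : ℕ
  h : ℕ
  M0 : ℕ
  hε : 0 < ε
  hε1 : ε ≤ 1
  hout : ∀ v, (1 / 2 + ε) * Fintype.card V ≤ (univ.filter (D v)).card
  hin : ∀ v, (1 / 2 + ε) * Fintype.card V ≤ (univ.filter fun u => D u v).card
  q0 : q 0 = s
  qinj : ∀ i j, i < mQ → j < mQ → q i = q j → i = j
  qF : ∀ j, j + 1 < mQ → F (q j) = q (j + 1)
  labmono : ∀ i j, i ≤ j → j < mQ → lab i ≤ lab j
  hdom : ∀ t i, i ≤ 2 * K + 1 → dom ≤ ((range mQ).filter fun j => lab j = i ∧ D t (q j)).card
  hK : Fintype.card V ≤ K * L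
  domL : dom ≤ L
  hL : (L : ℝ) ≤ ε ^ 2 * Fintype.card V / 16
  hX0 : (X0.card : ℝ) ≤ ε * Fintype.card V / 4
  n1 : (B + κ : ℝ) ≤ ε / 2 * dom
  n2 : (mQ + L + 1 + B + κ : ℝ) ≤ ε * Fintype.card V / 2
  κpos : 0 < κ
  hℓ : 8 * (h : ℝ) ≤ ε * ℓ
  ℓpos : 0 < ℓ
  hX0s : F⁻¹ s ∉ X0
  free : ∀ v, ¬ F.SameCycle s v → (orb F v \ X0).Nonempty
  tiny : (univ.filter fun v => ¬ F.SameCycle s v ∧ (orb F v \ X0).card < ℓ).card ≤ M0

namespace Ctx

variable {V : Type*} [Fintype V] [DecidableEq V] (c : Ctx V)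

/-- There are many moves leading to a position with property `P`, whatever small set of new end
points has to be avoided. -/
def Opt (σ : Perm V) (P : Perm V → Prop) : Prop :=
  ∀ Y : Finset V, Y.card ≤ c.B → σ⁻¹ c.s ∈ Y → ∃ O : Finset V, c.κ ≤ O.card ∧
    ∀ y ∈ O, c.D (σ⁻¹ c.s) y ∧ σ⁻¹ y ∉ Y ∧ P (swap c.s y * σ)

/-- Positions from which at most `j` moves lead to a Hamilton path that can be closed. -/
def Ch : ℕ → Perm V → Prop
  | 0, σ => (∀ v, σ.SameCycle c.s v) ∧ c.D (σ⁻¹ c.s) c.s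
  | j + 1, σ => Ch j σ ∨ c.Opt σ (Ch j)

theorem Ch_mono {i j : ℕ} (h : i ≤ j) {σ : Perm V} (hσ : c.Ch i σ) : c.Ch j σ := by
  induction j, h using Nat.le_induction with
  | base => exact hσ
  | succ j _ ih => exact Or.inl ih

theorem end_swap (σ : Perm V) (y : V) : (swap c.s y * σ)⁻¹ c.s = σ⁻¹ y := by
  simp [mul_inv_rev]

theorem opt_of_card {σ : Perm V} {P : Perm V → Prop} (A : Finset V)
    (hA : (c.B + c.κ : ℝ) ≤ A.card)
    (h : ∀ y ∈ A, c.D (σ⁻¹ c.s) y ∧ (y ≠ c.s → P (swap c.s y * σ))) : c.Opt σ P := by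
  intro Y hY ht
  refine ⟨A \ Y.image σ, ?_, fun y hy => ?_⟩
  · have h1 : c.B + c.κ ≤ A.card := by exact_mod_cast hA
    have h2 := le_card_sdiff (Y.image σ) A
    have h3 : (Y.image σ).card ≤ Y.card := card_image_le
    omega
  · obtain ⟨h1, h2⟩ := mem_sdiff.1 hy
    have h3 : σ⁻¹ y ∉ Y := fun h3 => h2 (mem_image.2 ⟨_, h3, by simp⟩)
    refine ⟨(h y h1).1, h3, (h y h1).2 ?_⟩
    rintro rfl
    exact h3 ht

omit [DecidableEq V] in
theorem card_inter_ge [DecidableEq V] (A B : Finset V) :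
    (A.card : ℝ) + B.card - Fintype.card V ≤ (A ∩ B).card := by
  have h1 := card_union_add_card_inter A B
  have h2 : (A ∪ B).card ≤ Fintype.card V := card_le_univ _
  have h3 : A.card + B.card ≤ Fintype.card V + (A ∩ B).card := by omega
  have h4 : (A.card : ℝ) + B.card ≤ Fintype.card V + (A ∩ B).card := by exact_mod_cast h3
  linarith

omit [Fintype V] in
theorem card_sdiff_ge (A B : Finset V) : (A.card : ℝ) - B.card ≤ (A \ B).card := by
  have h1 := le_card_sdiff B A
  have h3 : A.card ≤ (A \ B).card + B.card := by omega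
  have h4 : (A.card : ℝ) ≤ (A \ B).card + B.card := by exact_mod_cast h3
  linarith

open scoped Classical in
theorem rich_count (C : Finset V) (g : V → V) :
    (1 / 2 + c.ε / 2) * Fintype.card V ≤
      (univ.filter fun t => c.ε / 2 * C.card ≤ (C.filter fun w => c.D t (g w)).card).card := by
  have hε := c.hε
  have hn : (0 : ℝ) ≤ Fintype.card V := Nat.cast_nonneg _
  rcases C.eq_empty_or_nonempty with rfl | hC
  · simp only [card_empty, Nat.cast_zero, mul_zero, filter_empty, le_refl, filter_true, card_univ]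
    nlinarith [c.hε1]
  have hC0 : (0 : ℝ) < C.card := by exact_mod_cast hC.card_pos
  set R := univ.filter fun t => c.ε / 2 * C.card ≤ (C.filter fun w => c.D t (g w)).card with hR
  have h1 : ∑ t : V, ((C.filter fun w => c.D t (g w)).card : ℝ) =
      ∑ w ∈ C, ((univ.filter fun t => c.D t (g w)).card : ℝ) := by
    simp only [card_filter, Nat.cast_sum]
    exact sum_comm
  have h2 : (C.card : ℝ) * ((1 / 2 + c.ε) * Fintype.card V) ≤
      ∑ w ∈ C, ((univ.filter fun t => c.D t (g w)).card : ℝ) := by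
    rw [← nsmul_eq_mul]
    exact card_nsmul_le_sum _ _ _ fun w _ => c.hin (g w)
  have h3 : ∑ t : V, ((C.filter fun w => c.D t (g w)).card : ℝ) ≤
      ∑ t : V, ((if t ∈ R then (C.card : ℝ) else 0) + c.ε / 2 * C.card) := by
    refine sum_le_sum fun t _ => ?_
    split_ifs with ht
    · have h4 : ((C.filter fun w => c.D t (g w)).card : ℝ) ≤ C.card := by
        exact_mod_cast card_filter_le _ _
      nlinarith
    · rw [hR, mem_filter] at ht
      push Not at ht
      linarith [ht (mem_univ _)]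
  rw [sum_add_distrib, sum_ite_mem, univ_inter, sum_const, sum_const, nsmul_eq_mul, nsmul_eq_mul,
    card_univ] at h3
  have h4 : (C.card : ℝ) * ((1 / 2 + c.ε / 2) * Fintype.card V) ≤ C.card * R.card := by
    nlinarith
  exact le_of_mul_le_mul_left h4 hC0

/-- The path still begins with the blocks `0, …, i` of the reserved path. -/
def Pref (σ : Perm V) (i : ℕ) : Prop :=
  ∀ j, j + 1 < c.mQ → c.lab (j + 1) ≤ i → σ (c.q j) = c.q (j + 1)

theorem q_ne_s {j : ℕ} (hj : j + 1 < c.mQ) : c.q (j + 1) ≠ c.s := by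
  rw [← c.q0]
  intro h
  have := c.qinj _ _ hj (by omega) h
  omega

theorem Pref.sameCycle {c : Ctx V} {σ : Perm V} {i : ℕ} (h : c.Pref σ i) :
    ∀ j, j < c.mQ → c.lab j ≤ i → σ.SameCycle c.s (c.q j) := by
  intro j
  induction j with
  | zero => intro _ _; rw [c.q0]
  | succ j ih =>
    intro hj hl
    rw [← h j hj hl]
    exact (ih (by omega) ((c.labmono _ _ (Nat.le_succ j) hj).trans hl)).trans (sameCycle_step _ _)

theorem Pref.merge {c : Ctx V} {σ : Perm V} {i : ℕ} (h : c.Pref σ i) {y : V}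
    (hy : ¬ σ.SameCycle c.s y) : c.Pref (swap c.s y * σ) i := by
  intro j hj hl
  rw [swap_mul_apply_of_ne, h j hj hl]
  · rw [h j hj hl]
    exact c.q_ne_s hj
  · rw [h j hj hl]
    rintro rfl
    exact hy (h.sameCycle _ hj hl)

theorem dom_ge : (c.B + c.κ : ℝ) ≤ c.dom := by
  have h1 := c.n1
  have h2 : (0 : ℝ) ≤ c.dom := Nat.cast_nonneg _
  nlinarith [c.hε1]

theorem dom_pos : 0 < c.dom := by
  have h1 := c.dom_ge
  have h2 : c.B + c.κ ≤ c.dom := by exact_mod_cast h1
  have := c.κpos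
  omega

theorem lab_zero : c.lab 0 = 0 := by
  classical
  have h1 := c.hdom c.s 0 (Nat.zero_le _)
  obtain ⟨j, hj⟩ := card_pos.1 (c.dom_pos.trans_le h1)
  rw [mem_filter, mem_range] at hj
  have := c.labmono 0 j (Nat.zero_le _) hj.1
  omega

/-- Cutting the path at a vertex of block `i` of the reserved path. -/
theorem split_block {σ : Perm V} {i i' j : ℕ} (h : c.Pref σ i') (hi : 1 ≤ i) (hii : i ≤ i')
    (hj : j < c.mQ) (hl : c.lab j = i) :
    c.Pref (swap c.s (c.q j) * σ) (i - 1) ∧ (orb (swap c.s (c.q j) * σ) c.s).card ≤ c.mQ ∧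
      ¬ (swap c.s (c.q j) * σ).SameCycle c.s (c.q j) ∧
      ∀ j', j' < c.mQ → i < c.lab j' → c.lab j' ≤ i' →
        (swap c.s (c.q j) * σ).SameCycle (c.q j) (c.q j') := by
  have hj0 : j ≠ 0 := by
    rintro rfl
    have := c.lab_zero
    omega
  have hstep : ∀ a, a + 1 < c.mQ → c.lab (a + 1) ≤ i' → a + 1 ≠ j →
      (swap c.s (c.q j) * σ) (c.q a) = c.q (a + 1) := by
    intro a ha hla hne
    rw [swap_mul_apply_of_ne, h a ha hla]
    · rw [h a ha hla]
      exact c.q_ne_s ha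
    · rw [h a ha hla]
      exact fun h1 => hne (c.qinj _ _ ha hj h1)
  have hsub : ∀ v, (swap c.s (c.q j) * σ).SameCycle c.s v → ∃ a < j, c.q a = v := by
    intro v hv
    refine sameCycle_induction (fun v => ∃ a < j, c.q a = v) ⟨0, by omega, c.q0⟩ ?_ hv
    rintro _ ⟨a, ha, rfl⟩
    have h1 : c.lab (a + 1) ≤ i' := (c.labmono _ _ ha hj).trans (by omega)
    by_cases h2 : a + 1 = j
    · refine ⟨0, by omega, ?_⟩
      rw [c.q0, swap_mul_apply_right]
      rw [h a (by omega) h1, h2]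
    · exact ⟨a + 1, by omega, (hstep a (by omega) h1 h2).symm⟩
  refine ⟨fun a ha hla => hstep a ha (by omega) ?_, ?_, ?_, ?_⟩
  · rintro rfl
    omega
  · calc (orb (swap c.s (c.q j) * σ) c.s).card ≤ ((range c.mQ).image c.q).card := by
          refine card_le_card fun v hv => ?_
          obtain ⟨a, ha, rfl⟩ := hsub v (mem_orb.1 hv)
          exact mem_image_of_mem _ (mem_range.2 (by omega))
      _ ≤ c.mQ := card_image_le.trans (card_range _).le
  · intro h1
    obtain ⟨a, ha, h2⟩ := hsub _ h1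
    have := c.qinj _ _ (by omega) hj h2
    omega
  · intro j' hj' h1 h2
    have h3 : j ≤ j' := by
      by_contra h3
      have := c.labmono j' j (by omega) hj
      omega
    have h4 : ∀ a, j ≤ a → a ≤ j' → (swap c.s (c.q j) * σ).SameCycle (c.q j) (c.q a) := by
      intro a ha
      induction a, ha using Nat.le_induction with
      | base => exact fun _ => SameCycle.refl _ _
      | succ a ha ih =>
        intro h5
        rw [← hstep a (by omega) ((c.labmono _ _ h5 hj').trans h2) (by omega)]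
        exact (ih (by omega)).trans (sameCycle_step _ _)
    exact h4 j' h3 le_rfl

open scoped Classical in
theorem opt_block {σ : Perm V} {P : Perm V → Prop} {i : ℕ} (hi : i ≤ 2 * c.K + 1)
    (h : ∀ j, j < c.mQ → c.lab j = i → P (swap c.s (c.q j) * σ)) : c.Opt σ P := by
  refine c.opt_of_card (((range c.mQ).filter fun j => c.lab j = i ∧ c.D (σ⁻¹ c.s) (c.q j)).image c.q)
    ?_ ?_
  · rw [card_image_of_injOn]
    · exact c.dom_ge.trans (by exact_mod_cast c.hdom _ i hi)
    · intro a ha b hb hab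
      rw [coe_filter] at ha hb
      exact c.qinj _ _ (mem_range.1 ha.1) (mem_range.1 hb.1) hab
  · intro y hy
    obtain ⟨j, hj, rfl⟩ := mem_image.1 hy
    rw [mem_filter, mem_range] at hj
    exact ⟨hj.2.2, fun _ => h j hj.1 hj.2.1⟩

theorem ch_two {σ : Perm V} (h : c.Pref σ 1) (hc : cyc σ ≤ 1) : c.Ch 2 σ := by
  classical
  refine Or.inr (c.opt_block (i := 1) (by omega) fun j hj hl => Or.inr ?_)
  obtain ⟨-, h2, -, -⟩ := c.split_block h le_rfl le_rfl hj hl
  have h3 := cyc_swap_le σ c.s (c.q j)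
  generalize swap c.s (c.q j) * σ = τ at h2 h3
  refine c.opt_of_card ((univ.filter (c.D (τ⁻¹ c.s)) ∩ (univ.filter fun u => c.D u c.s).image τ) \
    orb τ c.s) ?_ fun z hz => ?_
  · have h4 := card_sdiff_ge (univ.filter (c.D (τ⁻¹ c.s)) ∩
      (univ.filter fun u => c.D u c.s).image τ) (orb τ c.s)
    have h5 := card_inter_ge (univ.filter (c.D (τ⁻¹ c.s))) ((univ.filter fun u => c.D u c.s).image τ)
    rw [card_image_of_injective _ τ.injective] at h5
    have h6 := c.hout (τ⁻¹ c.s)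
    have h7 := c.hin c.s
    have h8 : ((orb τ c.s).card : ℝ) ≤ c.mQ := by exact_mod_cast h2
    have h9 := c.n2
    have h10 : (0 : ℝ) ≤ c.L := Nat.cast_nonneg _
    have h11 : (0 : ℝ) ≤ c.ε * Fintype.card V := mul_nonneg c.hε.le (Nat.cast_nonneg _)
    linarith
  · simp only [mem_sdiff, mem_inter, mem_filter, mem_univ, true_and, mem_image, mem_orb] at hz
    obtain ⟨⟨h4, u, h5, rfl⟩, h6⟩ := hz
    refine ⟨h4, fun _ => ⟨single_of_cyc_le_one ?_ _, ?_⟩⟩
    · have := cyc_swap_merge h6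
      omega
    · rw [c.end_swap]
      simpa using h5

/-- Invariant of the final stage. -/
def Red (k : ℕ) (σ : Perm V) : Prop :=
  c.Pref σ (2 * k + 1) ∧ cyc σ ≤ k + 1 ∧ ∀ v, σ.SameCycle c.s v ∨ c.dom ≤ (orb σ v).card

theorem long_merge {σ : Perm V} {y : V} {b : ℕ} (hy : ¬ σ.SameCycle c.s y)
    (h : ∀ v, σ.SameCycle c.s v ∨ b ≤ (orb σ v).card) :
    ∀ v, (swap c.s y * σ).SameCycle c.s v ∨ b ≤ (orb (swap c.s y * σ) v).card := by
  intro v
  by_cases h1 : σ.SameCycle c.s v ∨ σ.SameCycle y v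
  · left
    rcases sameCycle_swap_or h1 with h2 | h2
    · exact h2
    · exact (sameCycle_swap_merge hy).trans h2
  · push Not at h1
    rw [orb_swap_other h1.1 h1.2]
    exact Or.inr ((h v).resolve_left h1.1)

theorem orb_swap_subset (σ : Perm V) (y : V) :
    orb (swap c.s y * σ) c.s ⊆ orb σ c.s ∪ orb σ y := by
  intro v hv
  rw [mem_union, mem_orb, mem_orb]
  exact sameCycle_or_of_swap (Or.inl (mem_orb.1 hv))

theorem two_merges {τ : Perm V} {P : Perm V → Prop} {x : V} (hs : (orb τ c.s).card ≤ c.mQ)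
    (hx : ¬ τ.SameCycle c.s x) (hx1 : c.dom ≤ (orb τ x).card)
    (hx2 : 2 * (orb τ x).card ≤ Fintype.card V)
    (hP : ∀ z u, ¬ τ.SameCycle c.s z → ¬ (swap c.s z * τ).SameCycle c.s u →
      P (swap c.s u * (swap c.s z * τ))) :
    c.Opt τ fun τ' => c.Opt τ' P := by
  classical
  have h8 : ((orb τ c.s).card : ℝ) ≤ c.mQ := by exact_mod_cast hs
  have h9 := c.n2
  have h10 : (0 : ℝ) ≤ c.L := Nat.cast_nonneg _
  have h11 : (0 : ℝ) ≤ c.ε * Fintype.card V := mul_nonneg c.hε.le (Nat.cast_nonneg _)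
  have h12 : (0 : ℝ) ≤ c.mQ := Nat.cast_nonneg _
  by_cases ha : c.ε * Fintype.card V / 2 ≤ (univ.filter (c.D (τ⁻¹ c.s)) ∩ orb τ x).card
  · refine c.opt_of_card _ (le_trans (by linarith) ha) fun z hz => ?_
    simp only [mem_inter, mem_filter, mem_univ, true_and, mem_orb] at hz
    have hz' : ¬ τ.SameCycle c.s z := fun h => hx (h.trans hz.2.symm)
    refine ⟨hz.1, fun _ => ?_⟩
    refine c.opt_of_card (univ.filter (c.D ((swap c.s z * τ)⁻¹ c.s)) \ orb (swap c.s z * τ) c.s)
      ?_ fun u hu => ?_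
    · have h1 := card_sdiff_ge (univ.filter (c.D ((swap c.s z * τ)⁻¹ c.s)))
        (orb (swap c.s z * τ) c.s)
      have h2 := c.hout ((swap c.s z * τ)⁻¹ c.s)
      have h3 := (card_le_card (c.orb_swap_subset τ z)).trans (card_union_le _ _)
      rw [← orb_eq hz.2] at h3
      have h4 : ((orb (swap c.s z * τ) c.s).card : ℝ) ≤ (orb τ c.s).card + (orb τ x).card := by
        exact_mod_cast h3
      have h5 : 2 * ((orb τ x).card : ℝ) ≤ Fintype.card V := by exact_mod_cast hx2
      linarith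
    · simp only [mem_sdiff, mem_filter, mem_univ, true_and, mem_orb] at hu
      exact ⟨hu.1, fun _ => hP z u hz' hu.2⟩
  · let R := univ.filter fun t => c.ε / 2 * (orb τ x).card ≤
      (((orb τ x).filter fun w => c.D t (id w)).card : ℝ)
    refine c.opt_of_card (((univ.filter (c.D (τ⁻¹ c.s)) ∩ R.image τ) \
      (univ.filter (c.D (τ⁻¹ c.s)) ∩ orb τ x)) \ orb τ c.s) ?_ fun z hz => ?_
    · have h1 := card_sdiff_ge ((univ.filter (c.D (τ⁻¹ c.s)) ∩ R.image τ) \
        (univ.filter (c.D (τ⁻¹ c.s)) ∩ orb τ x)) (orb τ c.s)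
      have h2 := card_sdiff_ge (univ.filter (c.D (τ⁻¹ c.s)) ∩ R.image τ)
        (univ.filter (c.D (τ⁻¹ c.s)) ∩ orb τ x)
      have h3 := card_inter_ge (univ.filter (c.D (τ⁻¹ c.s))) (R.image τ)
      rw [card_image_of_injective _ τ.injective] at h3
      have h4 := c.hout (τ⁻¹ c.s)
      have h5 : (1 / 2 + c.ε / 2) * Fintype.card V ≤ R.card := c.rich_count (orb τ x) id
      push Not at ha
      linarith
    · simp only [mem_sdiff, mem_inter, mem_filter, mem_univ, true_and, mem_image, mem_orb] at hz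
      obtain ⟨⟨⟨h1, t, ht, rfl⟩, h2⟩, h3⟩ := hz
      have h4 : ¬ τ.SameCycle x (τ t) := fun h => h2 ⟨h1, h⟩
      refine ⟨h1, fun _ => ?_⟩
      refine c.opt_of_card ((orb τ x).filter fun w => c.D t (id w)) ?_ fun u hu => ?_
      · have h5 := (mem_filter.1 ht).2
        have h6 : (c.dom : ℝ) ≤ (orb τ x).card := by exact_mod_cast hx1
        have h7 := c.n1
        nlinarith [c.hε]
      · rw [mem_filter, mem_orb] at hu
        refine ⟨?_, fun _ => hP _ u h3 fun h5 => ?_⟩
        · rw [c.end_swap]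
          simpa using hu.2
        · rcases sameCycle_or_of_swap (Or.inl h5) with h6 | h6
          · exact hx (h6.trans hu.1.symm)
          · exact h4 (hu.1.trans h6.symm)

theorem ch_of_red : ∀ k, k ≤ c.K → ∀ σ, c.Red k σ → c.Ch (3 * k + 2) σ := by
  classical
  intro k
  induction k with
  | zero => exact fun _ σ h => c.ch_two h.1 h.2.1
  | succ k ih =>
    intro hk σ ⟨h1, h2, h3⟩
    by_cases hc : cyc σ ≤ k + 1
    · exact c.Ch_mono (by omega) (ih (by omega) σ
        ⟨fun j hj hl => h1 j hj (by omega), hc, h3⟩)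
    obtain ⟨x₀, hx₀⟩ : ∃ x₀, ¬ σ.SameCycle c.s x₀ := by
      by_contra h4
      push Not at h4
      have := cyc_le_one_of_single h4
      omega
    refine Or.inr (c.opt_block (i := 2 * k + 2) (by omega) fun j hj hl => ?_)
    obtain ⟨g1, g2, g3, g4⟩ := c.split_block h1 (by omega) (by omega) hj hl
    have g5 := cyc_swap_le σ c.s (c.q j)
    have g6 : σ.SameCycle c.s (c.q j) := h1.sameCycle j hj (by omega)
    have g7 : c.dom ≤ (orb (swap c.s (c.q j) * σ) (c.q j)).card := by
      refine (c.hdom c.s (2 * k + 3) (by omega)).trans (card_le_card_of_injOn c.q ?_ ?_)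
      · intro a ha
        rw [coe_filter, Set.mem_ofPred_eq, mem_range] at ha
        exact mem_coe.2 (mem_orb.2 (g4 a ha.1 (by omega) (by omega)))
      · intro a ha b hb hab
        rw [coe_filter] at ha hb
        exact c.qinj _ _ (mem_range.1 ha.1) (mem_range.1 hb.1) hab
    have g8 : ∀ v, (swap c.s (c.q j) * σ).SameCycle c.s v ∨
        c.dom ≤ (orb (swap c.s (c.q j) * σ) v).card := by
      intro v
      by_cases h4 : σ.SameCycle c.s v
      · rcases sameCycle_swap_or (y := c.q j) (Or.inl h4) with h5 | h5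
        · exact Or.inl h5
        · rw [← orb_eq h5]
          exact Or.inr g7
      · rw [orb_swap_other h4 fun h5 => h4 (g6.trans h5)]
        exact Or.inr ((h3 v).resolve_left h4)
    have g9 : ¬ (swap c.s (c.q j) * σ).SameCycle c.s x₀ ∧
        ¬ (swap c.s (c.q j) * σ).SameCycle (c.q j) x₀ := by
      rw [← not_or]
      intro h4
      rcases sameCycle_or_of_swap h4 with h5 | h5
      · exact hx₀ h5
      · exact hx₀ (g6.trans h5)
    generalize swap c.s (c.q j) * σ = τ at g1 g2 g3 g5 g7 g8 g9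
    obtain ⟨x, hx, hx2⟩ : ∃ x, ¬ τ.SameCycle c.s x ∧ 2 * (orb τ x).card ≤ Fintype.card V := by
      have h4 := card_union_of_disjoint (orb_disjoint g9.2)
      have h5 : (orb τ (c.q j) ∪ orb τ x₀).card ≤ Fintype.card V := card_le_univ _
      rcases le_total (orb τ (c.q j)).card (orb τ x₀).card with h6 | h6
      · exact ⟨_, g3, by omega⟩
      · exact ⟨_, g9.1, by omega⟩
    have g10 := c.two_merges (P := c.Ch (3 * k + 2)) g2 hx ((g8 x).resolve_left hx) hx2
      fun z u hz hu => ih (by omega) _ ⟨(Pref.merge g1 hz).merge hu, by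
        have a1 := cyc_swap_merge hz
        have a2 := cyc_swap_merge hu
        omega, c.long_merge hu (c.long_merge hz g8)⟩
    refine Or.inr fun Y hY ht => ?_
    obtain ⟨O, hO, hO'⟩ := g10 Y hY ht
    exact ⟨O, hO, fun y hy => ⟨(hO' y hy).1, (hO' y hy).2.1, Or.inr (hO' y hy).2.2⟩⟩

/-- Invariant of the main stage: `U` is the set of vertices on short cycles of `F` not yet used. -/
structure Valid (σ : Perm V) (U : Finset V) : Prop where
  pref : ∀ j, j + 1 < c.mQ → σ (c.q j) = c.q (j + 1)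
  agree : ∀ v ∈ U, σ v = c.F v ∧ c.F v ∈ U
  sU : c.s ∉ U
  short : ∀ v ∈ U, (orb c.F v).card ≤ c.L
  long : ∀ v, v ∉ U → σ.SameCycle c.s v ∨ c.L ≤ (orb σ v).card

open scoped Classical in
/-- The end of the path has many arcs of `D` into the unused short cycles. -/
def Rich (σ : Perm V) (U : Finset V) : Prop :=
  c.ε / 4 * ((U \ c.X0).card : ℝ) ≤ ((U \ c.X0).filter fun w => c.D (σ⁻¹ c.s) (c.F w)).card

/-- The number of unused short cycles. -/
def lev (U : Finset V) : ℕ := (U.image (orb c.F)).card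

theorem lev_mono {U U' : Finset V} (h : U' ⊆ U) : c.lev U' ≤ c.lev U :=
  card_le_card (image_subset_image h)

theorem Valid.ch {c : Ctx V} {σ : Perm V} (h : c.Valid σ ∅) : c.Ch (3 * c.K + 2) σ := by
  have h1 : ∀ v, σ.SameCycle c.s v ∨ c.L ≤ (orb σ v).card := fun v => h.long v (notMem_empty v)
  refine c.ch_of_red _ le_rfl σ ⟨fun j hj _ => h.pref j hj,
    cyc_le_of_long c.hK (c.dom_pos.trans_le c.domL) h1, fun v => ?_⟩
  exact (h1 v).imp id fun h2 => c.domL.trans h2

theorem Valid.closed {c : Ctx V} {σ : Perm V} {U : Finset V} (h : c.Valid σ U) {v u : V}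
    (hv : v ∈ U) (hu : c.F.SameCycle v u) : u ∈ U :=
  sameCycle_induction (fun x => x ∈ U) hv (fun x hx => (h.agree x hx).2) hu

theorem Valid.closed' {c : Ctx V} {σ : Perm V} {U : Finset V} (h : c.Valid σ U) {v u : V}
    (hv : v ∈ U) (hu : σ.SameCycle v u) : u ∈ U :=
  sameCycle_induction (fun x => x ∈ U) hv (fun x hx => by
    rw [(h.agree x hx).1]
    exact (h.agree x hx).2) hu

theorem Valid.end_notMem {c : Ctx V} {σ : Perm V} {U : Finset V} (h : c.Valid σ U) :
    σ⁻¹ c.s ∉ U := fun h1 => h.sU (h.closed' h1 (by simpa using sameCycle_step σ (σ⁻¹ c.s)))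

theorem Valid.move {c : Ctx V} {σ : Perm V} {U : Finset V} (h : c.Valid σ U) {y : V}
    (h1 : ∀ j, j < c.mQ → c.q j ≠ y)
    (h2 : σ.SameCycle c.s y → ∀ i ≤ c.L, (σ⁻¹ ^ i) c.s ≠ y) :
    c.Valid (swap c.s y * σ) (U.filter fun v => ¬ c.F.SameCycle y v) := by
  refine ⟨fun j hj => ?_, fun v hv => ?_, fun h3 => h.sU (mem_filter.1 h3).1,
    fun v hv => h.short v (mem_filter.1 hv).1, fun v hv => ?_⟩
  · rw [swap_mul_apply_of_ne, h.pref j hj]
    · rw [h.pref j hj]
      exact c.q_ne_s hj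
    · rw [h.pref j hj]
      exact h1 _ hj
  · obtain ⟨h3, h4⟩ := mem_filter.1 hv
    obtain ⟨h5, h6⟩ := h.agree v h3
    have h7 : ¬ c.F.SameCycle y (c.F v) := fun h7 => h4 (h7.trans (sameCycle_step _ _).symm)
    refine ⟨?_, mem_filter.2 ⟨h6, h7⟩⟩
    rw [swap_mul_apply_of_ne, h5]
    · rw [h5]
      exact fun h8 => h.sU (h8 ▸ h6)
    · rw [h5]
      exact fun h8 => h7 (h8 ▸ SameCycle.refl _ _)
  · by_cases h3 : σ.SameCycle c.s v ∨ σ.SameCycle y v
    · rcases sameCycle_swap_or h3 with h4 | h4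
      · exact Or.inl h4
      · by_cases h5 : σ.SameCycle c.s y
        · rw [← orb_eq h4]
          exact Or.inr (le_card_orb_split h5 (h2 h5))
        · exact Or.inl ((sameCycle_swap_merge h5).trans h4)
    · push Not at h3
      rw [orb_swap_other h3.1 h3.2]
      refine Or.inr ((h.long v fun h4 => hv (mem_filter.2 ⟨h4, fun h5 => h3.2 ?_⟩)).resolve_left
        h3.1)
      exact (sameCycle_of_agree (fun x => x ∈ U) h.agree h4 h5.symm).symm

theorem Valid.hit {c : Ctx V} {σ : Perm V} {U : Finset V} (h : c.Valid σ U) {w : V} (hw : w ∈ U) :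
    ∃ U' ⊆ U, c.Valid (swap c.s (c.F w) * σ) U' ∧ c.lev U' < c.lev U := by
  have h1 := (h.agree w hw).2
  have h2 : ¬ σ.SameCycle c.s (c.F w) := fun h2 => h.sU (h.closed' h1 h2.symm)
  refine ⟨_, filter_subset _ _, h.move (fun j hj h3 => h2 ?_) fun h3 => absurd h3 h2, ?_⟩
  · rw [← h3]
    exact Pref.sameCycle (i := c.lab j) (fun j hj _ => h.pref j hj) j hj le_rfl
  · refine card_lt_card ⟨image_subset_image (filter_subset _ _), fun h3 => ?_⟩
    obtain ⟨v, hv, h4⟩ := mem_image.1 (h3 (mem_image_of_mem _ h1))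
    exact (mem_filter.1 hv).2 (orb_eq_iff.1 h4).symm

theorem Valid.opt {c : Ctx V} {σ : Perm V} {U : Finset V} (h : c.Valid σ U) :
    c.Opt σ fun τ => ∃ U' ⊆ U, c.Valid τ U' ∧ c.Rich τ U' := by
  classical
  let R := univ.filter fun t => c.ε / 2 * ((U \ c.X0).card : ℝ) ≤
    ((U \ c.X0).filter fun w => c.D t (c.F w)).card
  let Z : Finset V := if (U.card : ℝ) ≤ c.ε * Fintype.card V / 2 then U else ∅
  have hε := c.hε
  refine c.opt_of_card ((((univ.filter (c.D (σ⁻¹ c.s)) ∩ R.image σ) \ (range c.mQ).image c.q) \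
    (range (c.L + 1)).image fun i => (σ⁻¹ ^ i) c.s) \ Z) ?_ fun y hy => ?_
  · have h1 := card_sdiff_ge (((univ.filter (c.D (σ⁻¹ c.s)) ∩ R.image σ) \
      (range c.mQ).image c.q) \ (range (c.L + 1)).image fun i => (σ⁻¹ ^ i) c.s) Z
    have h2 := card_sdiff_ge ((univ.filter (c.D (σ⁻¹ c.s)) ∩ R.image σ) \
      (range c.mQ).image c.q) ((range (c.L + 1)).image fun i => (σ⁻¹ ^ i) c.s)
    have h3 := card_sdiff_ge (univ.filter (c.D (σ⁻¹ c.s)) ∩ R.image σ) ((range c.mQ).image c.q)
    have h4 := card_inter_ge (univ.filter (c.D (σ⁻¹ c.s))) (R.image σ)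
    rw [card_image_of_injective _ σ.injective] at h4
    have h5 := c.hout (σ⁻¹ c.s)
    have h6 : (1 / 2 + c.ε / 2) * Fintype.card V ≤ R.card := c.rich_count (U \ c.X0) c.F
    have h7 : (((range c.mQ).image c.q).card : ℝ) ≤ c.mQ := by
      exact_mod_cast card_image_le.trans (card_range _).le
    have h8 : (((range (c.L + 1)).image fun i => (σ⁻¹ ^ i) c.s).card : ℝ) ≤ c.L + 1 := by
      exact_mod_cast card_image_le.trans (card_range _).le
    have h11 : (0 : ℝ) ≤ c.ε * Fintype.card V := mul_nonneg c.hε.le (Nat.cast_nonneg _)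
    have h9 : (Z.card : ℝ) ≤ c.ε * Fintype.card V / 2 := by
      simp only [Z]
      split_ifs with h10
      · exact h10
      · simp only [card_empty, Nat.cast_zero]
        linarith
    linarith [c.n2]
  · simp only [mem_sdiff, mem_inter, mem_filter, mem_univ, true_and, mem_image, mem_range,
      not_exists, not_and] at hy
    obtain ⟨⟨⟨⟨h1, t, ht, rfl⟩, h2⟩, h3⟩, h4⟩ := hy
    refine ⟨h1, fun _ => ⟨_, filter_subset _ _, h.move h2 fun _ i hi => h3 i (by omega), ?_⟩⟩
    have h5 := (mem_filter.1 ht).2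
    unfold Rich
    rw [c.end_swap, show σ⁻¹ (σ t) = t by simp]
    by_cases hy : σ t ∈ U
    · have h6 : c.ε * Fintype.card V / 2 < U.card := by
        by_contra h6
        simp only [Z, if_pos (not_lt.1 h6)] at h4
        exact h4 hy
      have h7 := card_sdiff_ge U c.X0
      have h8 : (((U.filter fun v => ¬ c.F.SameCycle (σ t) v) \ c.X0).card : ℝ) ≤
          (U \ c.X0).card := by
        exact_mod_cast card_le_card (sdiff_subset_sdiff (filter_subset _ _) Subset.rfl)
      have h9 := card_sdiff_ge ((U \ c.X0).filter fun w => c.D t (c.F w)) (orb c.F (σ t))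
      have h10 : ((orb c.F (σ t)).card : ℝ) ≤ c.L := by exact_mod_cast h.short _ hy
      have h11 : ((((U \ c.X0).filter fun w => c.D t (c.F w)) \ orb c.F (σ t)).card : ℝ) ≤
          (((U.filter fun v => ¬ c.F.SameCycle (σ t) v) \ c.X0).filter
            fun w => c.D t (c.F w)).card := by
        refine Nat.cast_le.2 (card_le_card fun x hx => ?_)
        simp only [mem_sdiff, mem_filter, mem_orb] at hx ⊢
        tauto
      have h12 := c.hL
      have h13 := c.hX0
      have h14 : c.ε * Fintype.card V / 4 ≤ (U \ c.X0).card := by linarith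
      nlinarith
    · have h6 : (U.filter fun v => ¬ c.F.SameCycle (σ t) v) = U :=
        filter_true_of_mem fun v hv h6 => hy (h.closed hv h6.symm)
      rw [h6]
      have h7 : (0 : ℝ) ≤ (U \ c.X0).card := Nat.cast_nonneg _
      nlinarith

/-- The number of failures that the cycle through `v` can afford. -/
def hh (v : V) : ℕ := if (orb c.F v \ c.X0).card < c.ℓ then 1 else c.h

open scoped Classical in
theorem Valid.hit_count {c : Ctx V} {σ : Perm V} {U : Finset V} (h : c.Valid σ U)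
    (hr : c.Rich σ U) {X : Finset V}
    (hX : ∀ v ∈ U, (orb c.F v ∩ (X \ c.X0)).card < c.hh v) :
    c.ε / 8 * max (c.lev U : ℝ) (c.ℓ * ((c.lev U : ℝ) - c.M0)) ≤
      (((U \ c.X0) \ X).filter fun w => c.D (σ⁻¹ c.s) (c.F w)).card := by
  have hcl : ∀ v ∈ U, ∀ u, c.F.SameCycle v u → u ∈ U := fun v hv u hu => h.closed hv hu
  have hns : ∀ v ∈ U, ¬ c.F.SameCycle c.s v := fun v hv h1 => h.sU (hcl v hv _ h1.symm)
  have e1 : (U \ c.X0).card = ∑ C ∈ U.image (orb c.F), (C \ c.X0).card := by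
    have h1 := card_inter_eq_sum c.F U c.X0ᶜ hcl
    simpa only [← sdiff_eq_inter_compl] using h1
  have e2 := card_inter_eq_sum c.F U (X \ c.X0) hcl
  have b1 : c.lev U ≤ (U \ c.X0).card := by
    rw [e1, lev, card_eq_sum_ones]
    refine sum_le_sum fun C hC => ?_
    obtain ⟨v, hv, rfl⟩ := mem_image.1 hC
    exact (c.free v (hns v hv)).card_pos
  have b2 : c.ℓ * c.lev U ≤ (U \ c.X0).card + c.ℓ * c.M0 := by
    have h1 : ((U.image (orb c.F)).filter fun C => (C \ c.X0).card < c.ℓ).card ≤ c.M0 := by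
      refine le_trans (card_le_card (t := (univ.filter fun v => ¬ c.F.SameCycle c.s v ∧
        (orb c.F v \ c.X0).card < c.ℓ).image (orb c.F)) fun C hC => ?_)
        (card_image_le.trans c.tiny)
      obtain ⟨h2, h3⟩ := mem_filter.1 hC
      obtain ⟨v, hv, rfl⟩ := mem_image.1 h2
      exact mem_image_of_mem _ (mem_filter.2 ⟨mem_univ _, hns v hv, h3⟩)
    have h2 : ((U.image (orb c.F)).filter fun C => ¬ (C \ c.X0).card < c.ℓ).card * c.ℓ ≤
        (U \ c.X0).card := by
      rw [e1, ← smul_eq_mul]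
      exact le_trans (card_nsmul_le_sum _ (fun C => (C \ c.X0).card) _
        fun C hC => not_lt.1 (mem_filter.1 hC).2) (sum_le_sum_of_subset (filter_subset _ _))
    have h3 := card_filter_add_card_filter_not (s := U.image (orb c.F))
      fun C => (C \ c.X0).card < c.ℓ
    unfold lev
    rw [← h3, mul_add]
    nlinarith
  have b3 : c.ℓ * (U ∩ (X \ c.X0)).card ≤ c.h * (U \ c.X0).card := by
    rw [e1, e2, mul_sum, mul_sum]
    refine sum_le_sum fun C hC => ?_
    obtain ⟨v, hv, rfl⟩ := mem_image.1 hC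
    have h1 := hX v hv
    unfold hh at h1
    split_ifs at h1 with h2
    · rw [Nat.lt_one_iff.1 h1]
      simp
    · rw [mul_comm]
      exact Nat.mul_le_mul h1.le (not_lt.1 h2)
  have b4 := card_sdiff_ge ((U \ c.X0).filter fun w => c.D (σ⁻¹ c.s) (c.F w)) (U ∩ (X \ c.X0))
  have b5 : ((((U \ c.X0).filter fun w => c.D (σ⁻¹ c.s) (c.F w)) \ (U ∩ (X \ c.X0))).card : ℝ) ≤
      (((U \ c.X0) \ X).filter fun w => c.D (σ⁻¹ c.s) (c.F w)).card := by
    refine Nat.cast_le.2 (card_le_card fun x hx => ?_)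
    simp only [mem_sdiff, mem_filter, mem_inter] at hx ⊢
    tauto
  have hε := c.hε
  have hℓ : (0 : ℝ) < c.ℓ := by exact_mod_cast c.ℓpos
  have r1 : (c.lev U : ℝ) ≤ (U \ c.X0).card := by exact_mod_cast b1
  have r2 : (c.ℓ : ℝ) * c.lev U ≤ (U \ c.X0).card + c.ℓ * c.M0 := by exact_mod_cast b2
  have r3 : (c.ℓ : ℝ) * (U ∩ (X \ c.X0)).card ≤ c.h * (U \ c.X0).card := by exact_mod_cast b3
  have r0 : (0 : ℝ) ≤ (U \ c.X0).card := Nat.cast_nonneg _
  have r4 : ((U ∩ (X \ c.X0)).card : ℝ) ≤ c.ε / 8 * (U \ c.X0).card := by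
    refine le_of_mul_le_mul_left (r3.trans ?_) hℓ
    nlinarith [c.hℓ]
  have r5 : max (c.lev U : ℝ) (c.ℓ * ((c.lev U : ℝ) - c.M0)) ≤ (U \ c.X0).card :=
    max_le r1 (by linarith)
  unfold Rich at hr
  nlinarith

theorem valid_init : c.Valid c.F
    (univ.filter fun v => ¬ c.F.SameCycle c.s v ∧ (orb c.F v).card ≤ c.L) := by
  refine ⟨c.qF, fun v hv => ⟨rfl, ?_⟩, by simp [SameCycle.refl], fun v hv => (mem_filter.1 hv).2.2,
    fun v hv => ?_⟩
  · simp only [mem_filter, mem_univ, true_and] at hv ⊢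
    rw [← orb_eq (sameCycle_step c.F v)]
    exact ⟨fun h => hv.1 (h.trans (sameCycle_step _ _).symm), hv.2⟩
  · simp only [mem_filter, mem_univ, true_and, not_and, not_le] at hv
    by_cases h : c.F.SameCycle c.s v
    · exact Or.inl h
    · exact Or.inr (hv h).le

theorem lev_le {σ : Perm V} {U : Finset V} (h : c.Valid σ U) :
    (c.lev U : ℝ) ≤ c.M0 + Fintype.card V / c.ℓ := by
  classical
  have hcl : ∀ v ∈ U, ∀ u, c.F.SameCycle v u → u ∈ U := fun v hv u hu => h.closed hv hu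
  have hns : ∀ v ∈ U, ¬ c.F.SameCycle c.s v := fun v hv h1 => h.sU (hcl v hv _ h1.symm)
  have e1 : (U \ c.X0).card = ∑ C ∈ U.image (orb c.F), (C \ c.X0).card := by
    have h1 := card_inter_eq_sum c.F U c.X0ᶜ hcl
    simpa only [← sdiff_eq_inter_compl] using h1
  have h1 : ((U.image (orb c.F)).filter fun C => (C \ c.X0).card < c.ℓ).card ≤ c.M0 := by
    refine le_trans (card_le_card (t := (univ.filter fun v => ¬ c.F.SameCycle c.s v ∧
      (orb c.F v \ c.X0).card < c.ℓ).image (orb c.F)) fun C hC => ?_)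
      (card_image_le.trans c.tiny)
    obtain ⟨h2, h3⟩ := mem_filter.1 hC
    obtain ⟨v, hv, rfl⟩ := mem_image.1 h2
    exact mem_image_of_mem _ (mem_filter.2 ⟨mem_univ _, hns v hv, h3⟩)
  have h2 : ((U.image (orb c.F)).filter fun C => ¬ (C \ c.X0).card < c.ℓ).card * c.ℓ ≤
      Fintype.card V := by
    refine le_trans ?_ (card_le_univ (U \ c.X0))
    rw [e1, ← smul_eq_mul]
    exact le_trans (card_nsmul_le_sum _ (fun C => (C \ c.X0).card) _
      fun C hC => not_lt.1 (mem_filter.1 hC).2) (sum_le_sum_of_subset (filter_subset _ _))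
  have h3 := card_filter_add_card_filter_not (s := U.image (orb c.F))
    fun C => (C \ c.X0).card < c.ℓ
  have hℓ : (0 : ℝ) < c.ℓ := by exact_mod_cast c.ℓpos
  have r2 : ((((U.image (orb c.F)).filter fun C => ¬ (C \ c.X0).card < c.ℓ).card : ℝ)) ≤
      Fintype.card V / c.ℓ := by
    rw [le_div_iff₀ hℓ]
    exact_mod_cast h2
  have r1 : (((U.image (orb c.F)).filter fun C => (C \ c.X0).card < c.ℓ).card : ℝ) ≤ c.M0 := by
    exact_mod_cast h1
  unfold lev
  rw [← h3]
  push_cast
  linarith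

end Ctx

end Pool.Agent.P.MP_11f821_pr
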