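import Pool.Agent.P.MP_11f821_pr.Prob
import Pool.Agent.P.MP_11f821_pr.Moves

/-!
The adaptive exposure process: out-arcs of one vertex at a time are revealed, and potential
functions bound the conditional probability that no Hamilton cycle is found.
-/

namespace Pool.Agent.P.MP_11f821_pr

open Finset Equiv Equiv.Perm

/-- Probabilistic data of the process. -/
structure PCtx (V : Type*) [Fintype V] [DecidableEq V] (α : Type*) [Fintype α] extends Ctx V where
  w : α → ℝ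
  on : α → Prop
  p : ℝ
  β : ℝ
  TA : ℕ
  TC : ℕ
  hw : IsW w
  hp : p ≤ wt w on
  ppos : 0 < p
  hβ : Real.exp (h - κ * p / 2) ≤ β
  hβ2 : β ≤ 1 / 2
  hpos : 0 < h
  hB : TA + TC ≤ B

namespace PCtx

variable {V : Type*} [Fintype V] [DecidableEq V] {α : Type*} [Fintype α] (c : PCtx V α)

/-- A Hamilton cycle made of arcs of `F` (other than the one entering `s`) and revealed arcs. -/
def Goal (ω : V × V → α) : Prop :=
  ∃ σ : Perm V, (∀ v, σ.SameCycle c.s v) ∧ ∀ v, (σ v = c.F v ∧ σ v ≠ c.s) ∨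
    (v ∉ c.X0 ∧ c.F⁻¹ (σ v) ∉ c.X0 ∧ c.D v (σ v) ∧ c.on (ω (v, σ v)))

/-- Keep the out-arcs of vertices of `X` as in `ω` and take the others from `x`. -/
def pw (X : Finset V) (ω x : V × V → α) : V × V → α := fun e => if e.1 ∈ X then ω e else x e

/-- Conditional probability of failure given the out-arcs of the vertices of `X`. -/
noncomputable def Fail (X : Finset V) (ω : V × V → α) : ℝ := Pr c.w fun y => ¬ c.Goal (pw X ω y)

/-- All arcs of `σ` except the one entering `s` are known to be present. -/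
def Real (X : Finset V) (ω : V × V → α) (σ : Perm V) : Prop :=
  ∀ v, σ v ≠ c.s → σ v = c.F v ∨
    (v ∈ X ∧ v ∉ c.X0 ∧ c.F⁻¹ (σ v) ∉ c.X0 ∧ c.D v (σ v) ∧ c.on (ω (v, σ v)))

/-- A set of unexposed end points of realised positions with property `P`. -/
def Stock (X : Finset V) (ω : V × V → α) (P : Perm V → Prop) (Y : Finset V) : Prop :=
  ∀ t ∈ Y, t ∉ X ∧ ∃ σ, σ⁻¹ c.s = t ∧ c.Real X ω σ ∧ P σ

theorem β_pos : 0 < c.β := (Real.exp_pos _).trans_le c.hβ

theorem p_le_one : c.p ≤ 1 := c.hp.trans (wt_le_one c.hw _)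

theorem Fail_le_one (X : Finset V) (ω : V × V → α) : c.Fail X ω ≤ 1 := Pr_le_one c.hw _

theorem Fail_step (X : Finset V) (ω : V × V → α) (t : V) :
    c.Fail X ω = Ex c.w fun x => c.Fail (insert t X) (pw X ω x) := by
  unfold Fail Pr
  rw [Ex_pw c.hw (fun e : V × V => e.1 = t)]
  congr 1
  funext x
  congr 1
  funext y
  congr 3
  funext e
  by_cases h1 : e.1 ∈ X <;> by_cases h2 : e.1 = t <;> simp [pw, h1, h2]

theorem Real.mono {c : PCtx V α} {X : Finset V} {ω : V × V → α} {σ : Perm V} (h : c.Real X ω σ)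
    (t : V) (x : V × V → α) : c.Real (insert t X) (pw X ω x) σ := by
  intro v hv
  rcases h v hv with h1 | ⟨h1, h2, h3, h4, h5⟩
  · exact Or.inl h1
  · refine Or.inr ⟨mem_insert_of_mem h1, h2, h3, h4, ?_⟩
    simpa [pw, h1] using h5

theorem Real.move {c : PCtx V α} {X : Finset V} {ω : V × V → α} {σ : Perm V} (h : c.Real X ω σ)
    (hX : c.X0 ⊆ X) (ht : σ⁻¹ c.s ∉ X) {y : V} (hD : c.D (σ⁻¹ c.s) y)
    (hy : σ⁻¹ y ∉ insert (σ⁻¹ c.s) X) {x : V × V → α} (hx : c.on (x (σ⁻¹ c.s, y))) :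
    c.Real (insert (σ⁻¹ c.s) X) (pw X ω x) (swap c.s y * σ) := by
  rw [mem_insert, not_or] at hy
  have hys : y ≠ c.s := fun h1 => hy.1 (by rw [h1])
  intro v hv
  by_cases h1 : σ v = c.s
  · have h2 : v = σ⁻¹ c.s := by rw [← h1]; simp
    have h3 : c.F⁻¹ y = σ⁻¹ y := by
      rcases h (σ⁻¹ y) (by simpa using hys) with h3 | h3
      · have h4 : y = c.F (σ⁻¹ y) := by simpa using h3
        nth_rewrite 1 [h4]
        simp
      · exact absurd h3.1 hy.2
    rw [swap_mul_apply_left h1, h2]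
    refine Or.inr ⟨mem_insert_self _ _, fun h4 => ht (hX h4), ?_, hD, ?_⟩
    · rw [h3]
      exact fun h4 => hy.2 (hX h4)
    · simp only [pw, if_neg ht]
      exact hx
  · have h2 : σ v ≠ y := fun h2 => hv (swap_mul_apply_right h2)
    rw [swap_mul_apply_of_ne h1 h2]
    exact h.mono _ x v h1

theorem Fail_win {X : Finset V} {ω : V × V → α} {σ : Perm V} (h : c.Real X ω σ)
    (hX : c.X0 ⊆ X) (ht : σ⁻¹ c.s ∉ X) (h0 : c.Ch 0 σ) {x : V × V → α}
    (hx : c.on (x (σ⁻¹ c.s, c.s))) : c.Fail (insert (σ⁻¹ c.s) X) (pw X ω x) ≤ 0 := by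
  refine Ex_le_const c.hw fun y => (ind_neg (not_not.2 ⟨σ, h0.1, fun v => ?_⟩)).le
  by_cases h1 : σ v = c.s
  · have h2 : v = σ⁻¹ c.s := by rw [← h1]; simp
    rw [h1, h2]
    refine Or.inr ⟨fun h4 => ht (hX h4), c.hX0s, h0.2, ?_⟩
    simp only [pw, if_neg ht, mem_insert_self, if_true]
    exact hx
  · rcases h v h1 with h2 | ⟨h2, h3, h4, h5, h6⟩
    · exact Or.inl ⟨h2, h1⟩
    · refine Or.inr ⟨h3, h4, h5, ?_⟩
      simpa [pw, h2] using h6

theorem Stock.erase {c : PCtx V α} {X : Finset V} {ω : V × V → α} {P : Perm V → Prop} {Y : Finset V}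
    (h : c.Stock X ω P Y) (t : V) (x : V × V → α) :
    c.Stock (insert t X) (pw X ω x) P (Y.erase t) := by
  intro u hu
  obtain ⟨h1, h2⟩ := mem_erase.1 hu
  obtain ⟨h3, σ, h4, h5, h6⟩ := h u h2
  exact ⟨by simp [h1, h3], σ, h4, h5.mono t x, h6⟩

theorem Stock.imp {c : PCtx V α} {X : Finset V} {ω : V × V → α} {P Q : Perm V → Prop}
    {Y : Finset V} (h : c.Stock X ω P Y) (hPQ : ∀ σ, P σ → Q σ) : c.Stock X ω Q Y := by
  intro u hu
  obtain ⟨h3, σ, h4, h5, h6⟩ := h u hu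
  exact ⟨h3, σ, h4, h5, hPQ σ h6⟩

theorem expose_opt {X : Finset V} {ω : V × V → α} {σ : Perm V} {P : Perm V → Prop}
    (hO : c.Opt σ P) (h : c.Real X ω σ) (hX : c.X0 ⊆ X) (ht : σ⁻¹ c.s ∉ X)
    (hc : X.card + 1 ≤ c.B) :
    Pr c.w (fun x => ¬ ∃ Y : Finset V, Y.card = c.h ∧
      c.Stock (insert (σ⁻¹ c.s) X) (pw X ω x) P Y) ≤ c.β := by
  classical
  obtain ⟨O, hO1, hO2⟩ := hO (insert (σ⁻¹ c.s) X) ((card_insert_le _ _).trans hc)
    (mem_insert_self _ _)
  have hinj : Function.Injective fun y : V => (σ⁻¹ c.s, y) := fun a b hab => (Prod.mk.inj hab).2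
  have h1 := chernoff_lower c.hw c.on c.hp (O.image fun y => (σ⁻¹ c.s, y)) zero_le_one c.h
  refine le_trans (Pr_mono c.hw fun x hx => ?_) (h1.trans (le_trans ?_ c.hβ))
  · rw [filter_image, card_image_of_injective _ hinj]
    by_contra h2
    have h3 : c.h ≤ (O.filter fun y => c.on (x (σ⁻¹ c.s, y))).card := by
      have := not_le.1 h2
      exact_mod_cast this.le
    obtain ⟨O', hO', hc'⟩ := exists_subset_card_eq h3
    refine hx ⟨O'.image (σ⁻¹ : Perm V), by rw [card_image_of_injective _ σ⁻¹.injective, hc'], ?_⟩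
    intro t ht'
    obtain ⟨y, hy, rfl⟩ := mem_image.1 ht'
    obtain ⟨h4, h5⟩ := mem_filter.1 (hO' hy)
    obtain ⟨h6, h7, h8⟩ := hO2 y h4
    exact ⟨h7, _, c.end_swap σ y, h.move hX ht h6 h7 h5, h8⟩
  · rw [card_image_of_injective _ hinj]
    refine Real.exp_le_exp.2 ?_
    have h2 : (c.κ : ℝ) ≤ O.card := by exact_mod_cast hO1
    have h3 : Real.exp (-1) ≤ 1 / 2 := by
      rw [Real.exp_neg, inv_le_comm₀ (Real.exp_pos _) (by norm_num)]
      linarith [Real.add_one_le_exp 1]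
    have h4 : (0 : ℝ) ≤ c.κ := Nat.cast_nonneg _
    have h5 : c.κ * c.p ≤ O.card * c.p := mul_le_mul_of_nonneg_right h2 c.ppos.le
    have h6 : 0 ≤ c.κ * c.p := mul_nonneg h4 c.ppos.le
    nlinarith

theorem pow_erase_le (Y : Finset V) (t : V) : c.β * c.β ^ (Y.erase t).card ≤ c.β ^ Y.card := by
  rw [← pow_succ']
  refine pow_le_pow_of_le_one c.β_pos.le (by linarith [c.hβ2]) ?_
  have := pred_card_le_card_erase (s := Y) (a := t)
  omega

/-- The gain of a chain position. -/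
noncomputable def a (j : ℕ) : ℝ := c.p / (2 * 4 ^ j)

theorem a_pos (j : ℕ) : 0 < c.a j := by
  have := c.ppos
  unfold a
  positivity

theorem a_succ (j : ℕ) : c.a j = 4 * c.a (j + 1) := by
  unfold a
  field_simp
  ring

theorem a_anti {i j : ℕ} (h : i ≤ j) : c.a j ≤ c.a i := by
  induction j, h using Nat.le_induction with
  | base => exact le_rfl
  | succ j _ ih => linarith [c.a_succ j, c.a_pos (j + 1)]

theorem a_le_half (j : ℕ) : c.a j ≤ 1 / 2 := by
  refine (c.a_anti (Nat.zero_le j)).trans ?_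
  unfold a
  simp only [pow_zero, mul_one]
  linarith [c.p_le_one]

/-- State of the side branch in the final stage. -/
def Gain (X : Finset V) (ω : V × V → α) (g : ℝ) : Prop :=
  g = 0 ∨ ∃ j ≤ 3 * c.K + 2, g = c.a j ∧ ∃ σ, c.Ch j σ ∧ c.Real X ω σ ∧ σ⁻¹ c.s ∉ X

theorem expose_ch {X : Finset V} {ω : V × V → α} {σ : Perm V} (h : c.Real X ω σ) (hX : c.X0 ⊆ X)
    (ht : σ⁻¹ c.s ∉ X) (hc : X.card + 1 ≤ c.B) : ∀ j, j ≤ 3 * c.K + 2 → c.Ch j σ →
    ∃ γ : (V × V → α) → ℝ, 2 * c.a j ≤ Ex c.w γ ∧ ∀ x,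
      (γ x = 1 ∧ c.Fail (insert (σ⁻¹ c.s) X) (pw X ω x) ≤ 0) ∨
        c.Gain (insert (σ⁻¹ c.s) X) (pw X ω x) (γ x) := by
  intro j
  induction j with
  | zero =>
    intro _ h0
    refine ⟨fun x => ind (c.on (x (σ⁻¹ c.s, c.s))), ?_, fun x => ?_⟩
    · have h1 := Ex_prod c.hw {(σ⁻¹ c.s, c.s)} fun _ a => ind (c.on a)
      simp only [prod_singleton] at h1
      rw [h1]
      have h2 : 2 * c.a 0 = c.p := by
        unfold a
        ring
      rw [h2]
      exact c.hp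
    · by_cases hx : c.on (x (σ⁻¹ c.s, c.s))
      · exact Or.inl ⟨ind_pos hx, c.Fail_win h hX ht h0 hx⟩
      · exact Or.inr (Or.inl (ind_neg hx))
  | succ j ih =>
    intro hj h0
    rcases h0 with h0 | h0
    · obtain ⟨γ, h1, h2⟩ := ih (by omega) h0
      exact ⟨γ, by linarith [c.a_anti (Nat.le_succ j)], h2⟩
    · have h1 := c.expose_opt h0 h hX ht hc
      rw [Pr_not c.hw] at h1
      refine ⟨fun x => c.a j * ind (∃ Y : Finset V, Y.card = c.h ∧
        c.Stock (insert (σ⁻¹ c.s) X) (pw X ω x) (c.Ch j) Y), ?_, fun x => Or.inr ?_⟩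
      · rw [Ex_mul_left]
        change _ ≤ c.a j * Pr c.w _
        nlinarith [c.a_succ j, c.a_pos (j + 1), c.hβ2]
      · by_cases hx : ∃ Y : Finset V, Y.card = c.h ∧
            c.Stock (insert (σ⁻¹ c.s) X) (pw X ω x) (c.Ch j) Y
        · refine Or.inr ⟨j, by omega, by simp only [ind_pos hx, mul_one], ?_⟩
          obtain ⟨Y, hY, hP⟩ := hx
          obtain ⟨t, ht'⟩ := card_pos.1 (hY ▸ c.hpos)
          obtain ⟨h3, τ, h4, h5, h6⟩ := hP t ht'
          exact ⟨τ, h6, h5, h4 ▸ h3⟩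
        · exact Or.inl (by simp only [ind_neg hx, mul_zero])

theorem pool_update {X : Finset V} {ω : V × V → α} {Y : Finset V}
    (hP : c.Stock X ω (fun σ => c.Valid σ ∅) Y) (hY : Y.card ≤ c.h) (hX : c.X0 ⊆ X)
    (hc : X.card + 1 ≤ c.B) (t : V) :
    ∃ Y' : (V × V → α) → Finset V, Ex c.w (fun x => c.β ^ (Y' x).card) ≤ c.β ^ Y.card + c.β ^ c.h ∧
      ∀ x, (Y' x).card ≤ c.h ∧ c.Stock (insert t X) (pw X ω x) (fun σ => c.Valid σ ∅) (Y' x) := by
  classical
  have hb := c.β_pos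
  by_cases ht : t ∈ Y
  · obtain ⟨h1, σ, rfl, h3, h4⟩ := hP t ht
    have h5 := c.expose_opt h4.opt h3 hX h1 hc
    let S : (V × V → α) → Prop := fun x => ∃ Y : Finset V, Y.card = c.h ∧
      c.Stock (insert (σ⁻¹ c.s) X) (pw X ω x) (fun τ => ∃ U' ⊆ ∅, c.Valid τ U' ∧ c.Rich τ U') Y
    refine ⟨fun x => if hx : S x then hx.choose else Y.erase (σ⁻¹ c.s), ?_, fun x => ?_⟩
    · calc _ ≤ Ex c.w fun x => ind (¬ S x) * c.β ^ (Y.erase (σ⁻¹ c.s)).card + c.β ^ c.h := by
            refine Ex_mono c.hw fun x => ?_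
            beta_reduce
            by_cases hx : S x
            · rw [dif_pos hx, hx.choose_spec.1, ind_neg (not_not.2 hx)]
              simp
            · rw [dif_neg hx, ind_pos hx, one_mul]
              exact le_add_of_nonneg_right (by positivity)
        _ ≤ _ := by
            rw [Ex_add, Ex_const c.hw, Ex_mul_right]
            refine add_le_add_left (le_trans ?_ (c.pow_erase_le Y (σ⁻¹ c.s))) _
            exact mul_le_mul_of_nonneg_right h5 (by positivity)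
    · by_cases hx : S x
      · simp only [dif_pos hx]
        refine ⟨hx.choose_spec.1.le, hx.choose_spec.2.imp ?_⟩
        rintro τ ⟨U', h6, h7, -⟩
        rwa [subset_empty.1 h6] at h7
      · simp only [dif_neg hx]
        exact ⟨(card_erase_le).trans hY, hP.erase _ x⟩
  · refine ⟨fun _ => Y, ?_, fun x => ⟨hY, ?_⟩⟩
    · rw [Ex_const c.hw]
      exact le_add_of_nonneg_right (by positivity)
    · have h1 := hP.erase t x
      rwa [erase_eq_of_notMem ht] at h1

theorem stageC : ∀ (d : ℕ) (X : Finset V) (ω : V × V → α) (Y : Finset V) (g : ℝ), c.X0 ⊆ X →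
    X.card + d ≤ c.B → c.Stock X ω (fun σ => c.Valid σ ∅) Y → Y.card ≤ c.h → c.Gain X ω g →
    c.Fail X ω ≤ c.β ^ Y.card + d * c.β ^ c.h + 2 * (1 - g) * (1 - c.a (3 * c.K + 2)) ^ d := by
  intro d
  have hb := c.β_pos
  have hθ := c.a_pos (3 * c.K + 2)
  have hθ2 := c.a_le_half (3 * c.K + 2)
  induction d with
  | zero =>
    intro X ω Y g _ _ _ _ hg
    have h1 : g ≤ 1 / 2 := by
      rcases hg with rfl | ⟨j, -, rfl, -⟩
      · norm_num
      · exact c.a_le_half j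
    have h2 : 0 ≤ c.β ^ Y.card := by positivity
    simp only [Nat.cast_zero, zero_mul, pow_zero]
    linarith [c.Fail_le_one X ω]
  | succ d ih =>
    intro X ω Y g hX hc hP hY hg
    have hpow : 0 ≤ (1 - c.a (3 * c.K + 2)) ^ d := pow_nonneg (by linarith) _
    rcases Y.eq_empty_or_nonempty with rfl | ⟨t₀, ht₀⟩
    · have h1 : g ≤ 1 / 2 := by
        rcases hg with rfl | ⟨j, -, rfl, -⟩
        · norm_num
        · exact c.a_le_half j
      have h2 : 0 ≤ 2 * (1 - g) * (1 - c.a (3 * c.K + 2)) ^ (d + 1) :=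
        mul_nonneg (by linarith) (pow_nonneg (by linarith) _)
      have h3 : 0 ≤ ((d + 1 : ℕ) : ℝ) * c.β ^ c.h := by positivity
      simp only [card_empty, pow_zero]
      linarith [c.Fail_le_one X ω]
    obtain ⟨j, hj, σ, h1, h2, h3, h4, h5⟩ : ∃ j ≤ 3 * c.K + 2, ∃ σ, c.Ch j σ ∧ c.Real X ω σ ∧
        σ⁻¹ c.s ∉ X ∧ g + c.a (3 * c.K + 2) ≤ 2 * c.a j ∧ 0 ≤ g := by
      rcases hg with rfl | ⟨j, hj, rfl, σ, h1, h2, h3⟩
      · obtain ⟨h1, σ, rfl, h3, h4⟩ := hP t₀ ht₀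
        exact ⟨_, le_rfl, σ, h4.ch, h3, h1, by linarith, le_rfl⟩
      · exact ⟨j, hj, σ, h1, h2, h3, by linarith [c.a_anti hj], (c.a_pos j).le⟩
    obtain ⟨γ, hγ1, hγ2⟩ := c.expose_ch h2 hX h3 (by omega) j hj h1
    obtain ⟨Y', hY1, hY2⟩ := c.pool_update hP hY hX (by omega) (σ⁻¹ c.s)
    rw [c.Fail_step X ω (σ⁻¹ c.s)]
    calc _ ≤ Ex c.w fun x => c.β ^ (Y' x).card + (d * c.β ^ c.h +
          2 * (1 - c.a (3 * c.K + 2)) ^ d) - γ x * (2 * (1 - c.a (3 * c.K + 2)) ^ d) := by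
          refine Ex_mono c.hw fun x => ?_
          rcases hγ2 x with ⟨h6, h7⟩ | h6
          · rw [h6]
            have : 0 ≤ c.β ^ (Y' x).card + d * c.β ^ c.h := by positivity
            linarith
          · have h7 := ih _ _ _ _ (hX.trans (subset_insert _ _))
              (by rw [card_insert_of_notMem h3]; omega) (hY2 x).2 (hY2 x).1 h6
            linarith
      _ ≤ _ := by
          rw [Ex_sub, Ex_add, Ex_const c.hw, Ex_mul_right, pow_succ]
          push_cast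
          have h6 : 2 * c.a j * (2 * (1 - c.a (3 * c.K + 2)) ^ d) ≤
              Ex c.w γ * (2 * (1 - c.a (3 * c.K + 2)) ^ d) :=
            mul_le_mul_of_nonneg_right hγ1 (by linarith)
          have h7 : (1 - 2 * c.a j) * (1 - c.a (3 * c.K + 2)) ^ d ≤
              ((1 - g) * (1 - c.a (3 * c.K + 2))) * (1 - c.a (3 * c.K + 2)) ^ d :=
            mul_le_mul_of_nonneg_right (by nlinarith) hpow
          nlinarith

end PCtx

end Pool.Agent.P.MP_11f821_pr
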