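import Pool.Agent.P.MP_11f821_pr.Couple
import Pool.Agent.P.MP_11f821_pr.Asym

/-!
The hitting time theorem.
-/

namespace Pool.Agent.P.MP_11f821_pr

open Finset Filter

theorem main (ε : ℝ) (hε : 0 < ε) (η : ℝ) (hη : 0 < η) :
    ∃ n₀ : ℕ, ∀ n ≥ n₀, ∀ D : Finset (Fin n × Fin n), (∀ e ∈ D, e.1 ≠ e.2) →
      (∀ v, (1 / 2 + ε) * n ≤ ((D.filter fun e => e.1 = v).card : ℝ)) →
      (∀ v, (1 / 2 + ε) * n ≤ ((D.filter fun e => e.2 = v).card : ℝ)) →
      1 - η ≤ (Nat.card {σ : Fin D.card ≃ D // tauHam σ = tauOne σ} : ℝ) /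
        Nat.card (Fin D.card ≃ D) := by
  classical
  obtain ⟨n₀, h₀⟩ := eventually_atTop.1 ((ev_par (lt_min hε one_pos) (min_le_right ε 1) hη).and
    (eventually_ge_atTop 2))
  refine ⟨n₀, fun n hn D hD hout hin => ?_⟩
  obtain ⟨⟨c, hc⟩, h2⟩ := h₀ n hn
  have h3 : (1 / 2 + min ε 1) * n ≤ (1 / 2 + ε) * n :=
    mul_le_mul_of_nonneg_right (by linarith [min_le_left ε 1]) (Nat.cast_nonneg _)
  have h4 := count_bad h2 (lt_min hε one_pos) (min_le_right ε 1) c D hD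
    (fun v => h3.trans (hout v)) fun v => h3.trans (hin v)
  have : Nonempty (Fin D.card ≃ D) := ⟨D.equivFin.symm⟩
  have h5 : (0 : ℝ) < Fintype.card (Fin D.card ≃ D) := by exact_mod_cast Fintype.card_pos
  simp only [ind_not, sum_sub_distrib, sum_const, card_univ, nsmul_eq_mul, mul_one] at h4
  rw [Nat.card_eq_fintype_card, Nat.card_eq_fintype_card, Fintype.card_subtype,
    card_filter_eq_sum_ind', le_div_iff₀ h5]
  nlinarith [mul_le_mul_of_nonneg_left hc h5.le]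

end Pool.Agent.P.MP_11f821_pr
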