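import Mathlib

/-!
Orbits of a permutation and how they change under multiplication by a transposition.
-/

namespace Pool.Agent.P.MP_11f821_pr

open Finset Equiv Equiv.Perm

variable {V : Type*} [Fintype V] [DecidableEq V]

/-- The orbit of `v` under `σ`. -/
def orb (σ : Perm V) (v : V) : Finset V := univ.filter fun u => σ.SameCycle v u

/-- The number of orbits of `σ`. -/
def cyc (σ : Perm V) : ℕ := (univ.image (orb σ)).card

theorem mem_orb {σ : Perm V} {v u : V} : u ∈ orb σ v ↔ σ.SameCycle v u := by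
  simp [orb]

theorem self_mem_orb (σ : Perm V) (v : V) : v ∈ orb σ v := mem_orb.2 (SameCycle.refl σ v)

theorem orb_eq {σ : Perm V} {v u : V} (h : σ.SameCycle v u) : orb σ v = orb σ u := by
  ext x
  rw [mem_orb, mem_orb]
  exact ⟨fun h1 => h.symm.trans h1, fun h1 => h.trans h1⟩

theorem orb_eq_iff {σ : Perm V} {v u : V} : orb σ v = orb σ u ↔ σ.SameCycle v u :=
  ⟨fun h => mem_orb.1 (h ▸ self_mem_orb σ u), orb_eq⟩

theorem orb_disjoint {σ : Perm V} {v u : V} (h : ¬ σ.SameCycle v u) :
    Disjoint (orb σ v) (orb σ u) :=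
  disjoint_left.2 fun _ h1 h2 => h ((mem_orb.1 h1).trans (mem_orb.1 h2).symm)

omit [DecidableEq V] in
theorem sameCycle_induction {σ : Perm V} {v : V} (W : V → Prop) (hv : W v)
    (hW : ∀ u, W u → W (σ u)) {u : V} (h : σ.SameCycle v u) : W u := by
  obtain ⟨i, -, rfl⟩ := h.exists_pow_eq'
  induction i with
  | zero => exact hv
  | succ i ih =>
    rw [pow_succ', Perm.mul_apply]
    exact hW _ (ih ⟨i, rfl⟩)

omit [Fintype V] [DecidableEq V] in
theorem sameCycle_step (σ : Perm V) (v : V) : σ.SameCycle v (σ v) := ⟨1, rfl⟩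

omit [DecidableEq V] in
theorem sameCycle_of_agree {σ τ : Perm V} (W : V → Prop) (hW : ∀ u, W u → τ u = σ u ∧ W (σ u))
    {v u : V} (hv : W v) (h : σ.SameCycle v u) : τ.SameCycle v u := by
  refine (sameCycle_induction (fun x => W x ∧ τ.SameCycle v x) ⟨hv, SameCycle.refl _ _⟩ ?_ h).2
  rintro x ⟨h1, h2⟩
  refine ⟨(hW x h1).2, ?_⟩
  rw [← (hW x h1).1]
  exact h2.trans (sameCycle_step τ x)

omit [Fintype V] in
theorem swap_mul_apply_of_ne {σ : Perm V} {s y v : V} (h1 : σ v ≠ s) (h2 : σ v ≠ y) :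
    (swap s y * σ) v = σ v := by
  rw [Perm.mul_apply, swap_apply_of_ne_of_ne h1 h2]

omit [Fintype V] in
theorem swap_mul_apply_left {σ : Perm V} {s y v : V} (h1 : σ v = s) : (swap s y * σ) v = y := by
  rw [Perm.mul_apply, h1, swap_apply_left]

omit [Fintype V] in
theorem swap_mul_apply_right {σ : Perm V} {s y v : V} (h1 : σ v = y) : (swap s y * σ) v = s := by
  rw [Perm.mul_apply, h1, swap_apply_right]

theorem orb_swap_other {σ : Perm V} {s y v : V} (h1 : ¬ σ.SameCycle s v)
    (h2 : ¬ σ.SameCycle y v) : orb (swap s y * σ) v = orb σ v := by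
  have h3 : ∀ u, σ.SameCycle v u → (swap s y * σ) u = σ u := by
    intro u hu
    refine swap_mul_apply_of_ne ?_ ?_
    · rintro rfl
      exact h1 (hu.trans (sameCycle_step σ u)).symm
    · rintro rfl
      exact h2 (hu.trans (sameCycle_step σ u)).symm
  ext u
  rw [mem_orb, mem_orb]
  constructor
  · refine sameCycle_of_agree (fun x => σ.SameCycle v x) (fun x hx => ?_) (SameCycle.refl _ _)
    rw [h3 x hx]
    exact ⟨rfl, hx.trans (sameCycle_step σ x)⟩
  · exact sameCycle_of_agree (fun x => σ.SameCycle v x)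
      (fun x hx => ⟨h3 x hx, hx.trans (sameCycle_step σ x)⟩) (SameCycle.refl _ _)

theorem sameCycle_swap_or {σ : Perm V} {s y v : V} (h : σ.SameCycle s v ∨ σ.SameCycle y v) :
    (swap s y * σ).SameCycle s v ∨ (swap s y * σ).SameCycle y v := by
  have hW : ∀ u, ((swap s y * σ).SameCycle s u ∨ (swap s y * σ).SameCycle y u) →
      ((swap s y * σ).SameCycle s (σ u) ∨ (swap s y * σ).SameCycle y (σ u)) := by
    intro u hu
    by_cases h1 : σ u = s
    · rw [h1]
      exact Or.inl (SameCycle.refl _ _)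
    by_cases h2 : σ u = y
    · rw [h2]
      exact Or.inr (SameCycle.refl _ _)
    rw [← swap_mul_apply_of_ne h1 h2]
    exact hu.imp (fun h3 => h3.trans (sameCycle_step _ u)) fun h3 => h3.trans (sameCycle_step _ u)
  rcases h with h | h
  · exact sameCycle_induction
      (fun u => (swap s y * σ).SameCycle s u ∨ (swap s y * σ).SameCycle y u)
      (Or.inl (SameCycle.refl _ _)) hW h
  · exact sameCycle_induction
      (fun u => (swap s y * σ).SameCycle s u ∨ (swap s y * σ).SameCycle y u)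
      (Or.inr (SameCycle.refl _ _)) hW h

theorem sameCycle_or_of_swap {σ : Perm V} {s y v : V}
    (h : (swap s y * σ).SameCycle s v ∨ (swap s y * σ).SameCycle y v) :
    σ.SameCycle s v ∨ σ.SameCycle y v := by
  have h1 := sameCycle_swap_or (σ := swap s y * σ) h
  rwa [← mul_assoc, swap_mul_self, one_mul] at h1

theorem sameCycle_swap_merge {σ : Perm V} {s y : V} (h : ¬ σ.SameCycle s y) :
    (swap s y * σ).SameCycle s y := by
  have h1 : σ.SameCycle s (σ⁻¹ s) := (sameCycle_step σ⁻¹ s).of_inv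
  have h2 := sameCycle_induction
    (fun u => σ.SameCycle s u ∧ (swap s y * σ).SameCycle s u)
    ⟨SameCycle.refl _ _, SameCycle.refl _ _⟩ (fun u hu => by
      refine ⟨hu.1.trans (sameCycle_step σ u), ?_⟩
      by_cases h3 : σ u = s
      · rw [h3]
      have h4 : σ u ≠ y := by
        rintro rfl
        exact h (hu.1.trans (sameCycle_step σ u))
      rw [← swap_mul_apply_of_ne h3 h4]
      exact hu.2.trans (sameCycle_step _ u)) h1
  have h3 : (swap s y * σ) (σ⁻¹ s) = y := swap_mul_apply_left (by simp)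
  have h4 := h2.2.trans (sameCycle_step _ _)
  rwa [h3] at h4

theorem le_card_orb_split {σ : Perm V} {s y : V} {L : ℕ} (h : σ.SameCycle s y)
    (hy : ∀ i ≤ L, (σ⁻¹ ^ i) s ≠ y) : L ≤ (orb (swap s y * σ) y).card := by
  have hne : ∀ i, 1 ≤ i → i ≤ L → (σ⁻¹ ^ i) s ≠ s := by
    intro i hi hiL hs
    obtain ⟨j, -, hj⟩ := (sameCycle_inv.2 h).exists_pow_eq'
    have h1 : ∀ m, ((σ⁻¹ ^ i) ^ m) s = s := fun m => by
      induction m with
      | zero => rfl
      | succ m ih => rw [pow_succ, Perm.mul_apply, hs, ih]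
    have h2 : (σ⁻¹ ^ (j % i)) s = y := by
      rw [← hj]
      conv_rhs => rw [← Nat.mod_add_div j i, pow_add, pow_mul, Perm.mul_apply, h1]
    exact hy _ ((Nat.mod_lt j hi).le.trans hiL) h2
  have hstep : ∀ i, σ ((σ⁻¹ ^ (i + 1)) s) = (σ⁻¹ ^ i) s := by
    intro i
    rw [pow_succ', Perm.mul_apply]
    simp
  have hmem : ∀ i, i < L → (swap s y * σ).SameCycle y ((σ⁻¹ ^ (i + 1)) s) := by
    intro i
    induction i with
    | zero =>
      intro _
      have h1 : (swap s y * σ) ((σ⁻¹ ^ (0 + 1)) s) = y := swap_mul_apply_left (hstep 0)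
      have h2 := sameCycle_step (swap s y * σ) ((σ⁻¹ ^ (0 + 1)) s)
      rw [h1] at h2
      exact h2.symm
    | succ i ih =>
      intro hi
      have h1 : (swap s y * σ) ((σ⁻¹ ^ (i + 1 + 1)) s) = (σ⁻¹ ^ (i + 1)) s := by
        rw [swap_mul_apply_of_ne, hstep]
        · rw [hstep]
          exact hne _ (by omega) hi.le
        · rw [hstep]
          exact hy _ hi.le
      have h2 := sameCycle_step (swap s y * σ) ((σ⁻¹ ^ (i + 1 + 1)) s)
      rw [h1] at h2
      exact (ih (by omega)).trans h2.symm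
  have hinj : Set.InjOn (fun i => (σ⁻¹ ^ (i + 1)) s) (range L : Set ℕ) := by
    have h1 : ∀ i j, i < j → j < L → (σ⁻¹ ^ (i + 1)) s ≠ (σ⁻¹ ^ (j + 1)) s := by
      intro i j hij hj h2
      obtain ⟨d, rfl⟩ := Nat.exists_eq_add_of_lt hij
      have h3 : i + d + 1 + 1 = (i + 1) + (d + 1) := by ring
      rw [h3, pow_add _ (i + 1) (d + 1), Perm.mul_apply] at h2
      exact hne (d + 1) (by omega) (by omega) ((σ⁻¹ ^ (i + 1)).injective h2).symm
    intro i hi j hj hij
    rw [coe_range, Set.mem_Iio] at hi hj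
    rcases lt_trichotomy i j with h2 | h2 | h2
    · exact absurd hij (h1 i j h2 hj)
    · exact h2
    · exact absurd hij.symm (h1 j i h2 hi)
  calc L = (range L).card := (card_range L).symm
    _ ≤ (orb (swap s y * σ) y).card :=
      card_le_card_of_injOn _ (fun i hi => mem_coe.2 (mem_orb.2 (hmem i
        (by simpa using hi)))) hinj

theorem cyc_swap_le (σ : Perm V) (s y : V) : cyc (swap s y * σ) ≤ cyc σ + 1 := by
  have h1 : univ.image (orb (swap s y * σ)) ⊆
      insert (orb (swap s y * σ) s) (insert (orb (swap s y * σ) y)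
        ((univ.image (orb σ)).erase (orb σ s))) := by
    intro C hC
    obtain ⟨v, -, rfl⟩ := mem_image.1 hC
    by_cases h : σ.SameCycle s v ∨ σ.SameCycle y v
    · rcases sameCycle_swap_or h with h2 | h2
      · rw [← orb_eq h2]
        exact mem_insert_self _ _
      · rw [← orb_eq h2]
        exact mem_insert_of_mem (mem_insert_self _ _)
    · push Not at h
      rw [orb_swap_other h.1 h.2]
      refine mem_insert_of_mem (mem_insert_of_mem (mem_erase.2 ⟨?_, mem_image_of_mem _ (mem_univ _)⟩))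
      exact fun h2 => h.1 (orb_eq_iff.1 h2).symm
  have h2 := card_le_card h1
  have h3 := card_insert_le (orb (swap s y * σ) s) (insert (orb (swap s y * σ) y)
        ((univ.image (orb σ)).erase (orb σ s)))
  have h4 := card_insert_le (orb (swap s y * σ) y) ((univ.image (orb σ)).erase (orb σ s))
  have h5 := card_erase_add_one (mem_image_of_mem (orb σ) (mem_univ s))
  unfold cyc
  omega

theorem cyc_swap_merge {σ : Perm V} {s y : V} (hsy : ¬ σ.SameCycle s y) :
    cyc (swap s y * σ) + 1 ≤ cyc σ := by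
  have h1 : univ.image (orb (swap s y * σ)) ⊆
      insert (orb (swap s y * σ) s) (((univ.image (orb σ)).erase (orb σ s)).erase (orb σ y)) := by
    intro C hC
    obtain ⟨v, -, rfl⟩ := mem_image.1 hC
    by_cases h : σ.SameCycle s v ∨ σ.SameCycle y v
    · rcases sameCycle_swap_or h with h2 | h2
      · rw [← orb_eq h2]
        exact mem_insert_self _ _
      · rw [← orb_eq ((sameCycle_swap_merge hsy).trans h2)]
        exact mem_insert_self _ _
    · push Not at h
      rw [orb_swap_other h.1 h.2]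
      refine mem_insert_of_mem (mem_erase.2 ⟨?_, mem_erase.2 ⟨?_, mem_image_of_mem _ (mem_univ _)⟩⟩)
      · exact fun h2 => h.2 (orb_eq_iff.1 h2).symm
      · exact fun h2 => h.1 (orb_eq_iff.1 h2).symm
  have h2 := card_le_card h1
  have h3 := card_insert_le (orb (swap s y * σ) s)
    (((univ.image (orb σ)).erase (orb σ s)).erase (orb σ y))
  have h5 := card_erase_add_one (mem_image_of_mem (orb σ) (mem_univ s))
  have h6 : orb σ y ∈ (univ.image (orb σ)).erase (orb σ s) :=
    mem_erase.2 ⟨fun h2 => hsy (orb_eq_iff.1 h2).symm, mem_image_of_mem _ (mem_univ _)⟩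
  have h7 := card_erase_add_one h6
  unfold cyc
  omega

theorem single_of_cyc_le_one {σ : Perm V} (h : cyc σ ≤ 1) (s v : V) : σ.SameCycle s v :=
  orb_eq_iff.1 (card_le_one.1 h _ (mem_image_of_mem _ (mem_univ _)) _
    (mem_image_of_mem _ (mem_univ _)))

theorem cyc_le_one_of_single {σ : Perm V} {s : V} (h : ∀ v, σ.SameCycle s v) : cyc σ ≤ 1 := by
  refine card_le_one.2 fun a ha b hb => ?_
  obtain ⟨u, -, rfl⟩ := mem_image.1 ha
  obtain ⟨v, -, rfl⟩ := mem_image.1 hb
  exact orb_eq ((h u).symm.trans (h v))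

/-- Summing over the orbits inside an invariant set. -/
theorem card_inter_eq_sum (σ : Perm V) (U A : Finset V)
    (hU : ∀ v ∈ U, ∀ u, σ.SameCycle v u → u ∈ U) :
    (U ∩ A).card = ∑ C ∈ U.image (orb σ), (C ∩ A).card := by
  rw [card_eq_sum_card_fiberwise (f := orb σ) (t := U.image (orb σ))
    fun v hv => mem_coe.2 (mem_image_of_mem _ (mem_inter.1 (mem_coe.1 hv)).1)]
  refine sum_congr rfl fun C hC => ?_
  obtain ⟨v, hv, rfl⟩ := mem_image.1 hC
  congr 1
  ext u
  simp only [mem_filter, mem_inter, orb_eq_iff, mem_orb]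
  exact ⟨fun h => ⟨h.2.symm, h.1.2⟩, fun h => ⟨⟨hU v hv u h.1, h.2⟩, h.1.symm⟩⟩

theorem cyc_le_of_long {σ : Perm V} {s : V} {L K : ℕ} (hK : Fintype.card V ≤ K * L) (hL : 0 < L)
    (h : ∀ v, σ.SameCycle s v ∨ L ≤ (orb σ v).card) : cyc σ ≤ K + 1 := by
  have h1 := card_inter_eq_sum σ univ univ fun _ _ _ _ => mem_univ _
  simp only [inter_univ, card_univ] at h1
  have h2 : ((univ.image (orb σ)).erase (orb σ s)).card * L ≤ K * L := by
    refine le_trans ?_ hK
    rw [h1, ← smul_eq_mul]
    refine le_trans (card_nsmul_le_sum _ (fun C => C.card) _ fun C hC => ?_)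
      (sum_le_sum_of_subset (erase_subset _ _))
    obtain ⟨h3, h4⟩ := mem_erase.1 hC
    obtain ⟨v, -, rfl⟩ := mem_image.1 h4
    exact (h v).resolve_left fun h5 => h3 (orb_eq h5).symm
  have h3 := Nat.le_of_mul_le_mul_right h2 hL
  have h5 := card_erase_add_one (mem_image_of_mem (orb σ) (mem_univ s))
  unfold cyc
  omega

end Pool.Agent.P.MP_11f821_pr
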