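import Pool.Agent.P.MP_11f821_pr.Build

/-!
Probability bounds for the pseudo-random properties.
-/

namespace Pool.Agent.P.MP_11f821_pr

open Finset

variable {V α : Type*} [Fintype V] [DecidableEq V] [Fintype α] {w : α → ℝ}

theorem card_filter_eq_sum_ind' {κ : Type*} (S : Finset κ) (P : κ → Prop) [DecidablePred P] :
    ((S.filter P).card : ℝ) = ∑ j ∈ S, ind (P j) := by
  convert card_filter_eq_sum_ind S P

theorem Pr_card_le' {ι : Type*} [Fintype ι] [DecidableEq ι] (hw : IsW w) {κ : Type*}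
    (S : Finset κ) (P : κ → (ι → α) → Prop) [∀ j ω, Decidable (P j ω)] {M : ℝ} (hM : 0 < M) :
    Pr w (fun ω => M ≤ ((S.filter fun j => P j ω).card : ℝ)) ≤ (∑ j ∈ S, Pr w (P j)) / M := by
  convert Pr_card_le hw S P hM

theorem chernoff_lower' {ι : Type*} [Fintype ι] [DecidableEq ι] (hw : IsW w) (P : α → Prop)
    [DecidablePred P] {p : ℝ} (h : p ≤ wt w P) (T : Finset ι) {lam : ℝ} (hlam : 0 ≤ lam) (k : ℝ) :
    Pr w (fun ω => ((T.filter fun i => P (ω i)).card : ℝ) ≤ k) ≤
      Real.exp (lam * k - T.card * p * (1 - Real.exp (-lam))) := by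
  convert chernoff_lower hw P h T hlam k

theorem chernoff_upper' {ι : Type*} [Fintype ι] [DecidableEq ι] (hw : IsW w) (P : α → Prop)
    [DecidablePred P] {p : ℝ} (h : wt w P ≤ p) (R : Finset ι) {ν : ℝ} (hν : 0 ≤ ν) (m : ℝ) :
    Pr w (fun ω => m ≤ ((R.filter fun i => P (ω i)).card : ℝ)) ≤
      Real.exp (R.card * p * (Real.exp ν - 1) - ν * m) := by
  convert chernoff_upper hw P h R hν m

open scoped Classical in
theorem Pr_config {ι : Type*} [Fintype ι] [DecidableEq ι] (hw : IsW w) (P₁ P₃ : α → Prop)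
    {p₁ p : ℝ} (h₁ : p₁ ≤ wt w P₁) (h₃ : wt w P₃ ≤ p) (hp : 0 < p) (hp1 : p ≤ 1) (T R : Finset ι)
    (hTR : Disjoint T R) {lam : ℝ} (hlam : 0 ≤ lam) (j : ℝ) (m : ℕ) :
    Pr w (fun ω => ((T.filter fun i => P₁ (ω i)).card : ℝ) ≤ j ∧
        (m : ℝ) ≤ ((R.filter fun i => P₃ (ω i)).card : ℝ)) ≤
      Real.exp (lam * j - T.card * p₁ * (1 - Real.exp (-lam))) * p ^ m * Real.exp R.card := by
  have hν : 0 ≤ -Real.log p := neg_nonneg.2 (Real.log_nonpos hp.le hp1)
  refine (chernoff hw P₁ P₃ h₁ h₃ T R hTR hlam hν j m).trans ?_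
  have h1 : p ^ m = Real.exp (m * Real.log p) := by rw [Real.exp_nat_mul, Real.exp_log hp]
  rw [h1, ← Real.exp_add, ← Real.exp_add, Real.exp_neg (Real.log p), Real.exp_log hp]
  refine Real.exp_le_exp.2 ?_
  have h2 : (R.card : ℝ) * p * (p⁻¹ - 1) = R.card - R.card * p := by field_simp
  have h3 : 0 ≤ (R.card : ℝ) * p := by positivity
  linarith

omit [DecidableEq V] in
theorem sum_small_sets {p : ℝ} (hp : 0 < p) (h1 : 1 ≤ Fintype.card V * p) (k : ℕ) :
    ∑ Y ∈ univ.filter fun Y : Finset V => Y.card ≤ k, p ^ Y.card ≤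
      Real.exp 1 * (Fintype.card V * p) ^ k := by
  have hn : (0 : ℝ) < Fintype.card V := by
    by_contra h
    rw [le_antisymm (not_lt.1 h) (Nat.cast_nonneg _)] at h1
    linarith
  have h2 : ∀ Y ∈ univ.filter fun Y : Finset V => Y.card ≤ k,
      p ^ Y.card ≤ (1 / (Fintype.card V : ℝ)) ^ Y.card * (Fintype.card V * p) ^ k := by
    intro Y hY
    have h3 : p ^ Y.card = (1 / (Fintype.card V : ℝ)) ^ Y.card * (Fintype.card V * p) ^ Y.card := by
      rw [← mul_pow]
      congr 1
      field_simp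
    rw [h3]
    exact mul_le_mul_of_nonneg_left (pow_le_pow_right₀ h1 (mem_filter.1 hY).2) (by positivity)
  refine (sum_le_sum h2).trans ?_
  rw [← sum_mul]
  refine mul_le_mul_of_nonneg_right ?_ (by positivity)
  refine (sum_le_sum_of_subset_of_nonneg (filter_subset _ _) fun _ _ _ => by positivity).trans ?_
  have h3 := sum_pow_mul_eq_add_pow (1 / (Fintype.card V : ℝ)) 1 (univ : Finset V)
  simp only [one_pow, mul_one, powerset_univ, card_univ] at h3
  rw [h3]
  refine (pow_le_pow_left₀ (by positivity) (Real.add_one_le_exp _) _).trans (le_of_eq ?_)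
  rw [← Real.exp_nat_mul]
  congr 1
  field_simp

/-- The arcs of `D` whose label has property `P`. -/
def sub (D : V → V → Prop) (P : α → Prop) (ω : V × V → α) (u v : V) : Prop :=
  D u v ∧ P (ω (u, v))

open scoped Classical in
omit [Fintype V] [DecidableEq V] [Fintype α] in
theorem arcs_sub_le (D : V → V → Prop) (P : α → Prop) (ω : V × V → α) (A B : Finset V) :
    arcs (sub D P ω) A B ≤ ((A ×ˢ B).filter fun e => P (ω e)).card :=
  card_le_card fun _ he => mem_filter.2 ⟨(mem_filter.1 he).1, (mem_filter.1 he).2.2⟩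

theorem Pr_dense (hw : IsW w) (D : V → V → Prop) (P : α → Prop) {p : ℝ} (hp : 0 ≤ p)
    (h : p ≤ wt w P) (E : ℝ) :
    Pr w (fun ω : V × V → α => ¬ ∀ A B : Finset V, E ≤ arcs D A B →
      ∃ a ∈ A, ∃ b ∈ B, sub D P ω a b) ≤ 4 ^ Fintype.card V * Real.exp (-(E * p)) := by
  classical
  have h1 := Pr_exists_le_card hw (univ.filter fun c : Finset V × Finset V => E ≤ arcs D c.1 c.2)
    (fun c (ω : V × V → α) => ∀ e ∈ (c.1 ×ˢ c.2).filter fun e => D e.1 e.2, ¬ P (ω e))
    (c := Real.exp (-(E * p))) fun c hc => (Pr_none_le hw P h _).trans (Real.exp_le_exp.2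
      (neg_le_neg (mul_le_mul_of_nonneg_right (by
        have h1 := (mem_filter.1 hc).2
        unfold arcs at h1
        convert h1) hp)))
  refine (Pr_mono hw fun ω hω => ?_).trans (h1.trans ?_)
  · push Not at hω
    obtain ⟨A, B, h2, h3⟩ := hω
    refine ⟨(A, B), mem_filter.2 ⟨mem_univ _, h2⟩, fun e he h4 => ?_⟩
    obtain ⟨h5, h6⟩ := mem_filter.1 he
    exact h3 _ (mem_product.1 h5).1 _ (mem_product.1 h5).2 ⟨h6, h4⟩
  · refine mul_le_mul_of_nonneg_right ?_ (Real.exp_pos _).le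
    have h2 := card_le_univ (univ.filter fun c : Finset V × Finset V => E ≤ arcs D c.1 c.2)
    rw [Fintype.card_prod, Fintype.card_finset, ← mul_pow] at h2
    exact_mod_cast h2

theorem choose_le_exp (n k : ℕ) (hk : 0 < k) (hn : 0 < n) :
    (n.choose k : ℝ) ≤ Real.exp (k * (1 + Real.log (n / k))) := by
  have hk' : (0 : ℝ) < k := by exact_mod_cast hk
  have hn' : (0 : ℝ) < n := by exact_mod_cast hn
  refine (Nat.choose_le_pow_div k n).trans ?_
  have h1 := Real.pow_div_factorial_le_exp (k : ℝ) hk'.le k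
  have h2 : (n : ℝ) ^ k / k.factorial = (k : ℝ) ^ k / k.factorial * (n / k) ^ k := by
    rw [div_pow]
    field_simp
  rw [h2, mul_add, mul_one, Real.exp_add, Real.exp_nat_mul (Real.log _),
    Real.exp_log (by positivity)]
  exact mul_le_mul_of_nonneg_right h1 (by positivity)

theorem Pr_sparse (hw : IsW w) (D : V → V → Prop) (P : α → Prop) {p x a : ℝ} (h : wt w P ≤ p)
    (hx : Fintype.card V * p ≤ x) {d μ : ℕ} (hd : 2 ≤ d) (ha : 0 ≤ a)
    (hμ : μ * Real.exp a ≤ Fintype.card V) (hda : 3 * x + 2 ≤ (d - 2) * a) :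
    Pr w (fun ω : V × V → α => ¬ ∀ A B : Finset V, A.Nonempty → A.card = B.card → A.card ≤ μ →
      arcs (sub D P ω) A B < d * A.card) ≤ μ * Real.exp (-(2 * x)) := by
  classical
  have hp : 0 ≤ p := (wt_nonneg hw P).trans h
  have hx0 : 0 ≤ x := le_trans (by positivity) hx
  have h1 := Pr_exists_le_card hw (Icc 1 μ) (fun k (ω : V × V → α) =>
    ∃ c ∈ powersetCard k (univ : Finset V) ×ˢ powersetCard k (univ : Finset V),
      (d * k : ℝ) ≤ ((c.1 ×ˢ c.2).filter fun e => P (ω e)).card)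
    (c := Real.exp (-(2 * x))) fun k hk => by
      obtain ⟨hk1, hk2⟩ := mem_Icc.1 hk
      have hk' : (1 : ℝ) ≤ k := by exact_mod_cast hk1
      have hk3 : (k : ℝ) * Real.exp a ≤ Fintype.card V :=
        (mul_le_mul_of_nonneg_right (by exact_mod_cast hk2) (Real.exp_pos _).le).trans hμ
      have hn : (0 : ℝ) < Fintype.card V := lt_of_lt_of_le (by positivity) hk3
      have hν : a ≤ Real.log (Fintype.card V / k) := by
        rw [Real.le_log_iff_exp_le (by positivity), le_div_iff₀ (by positivity), mul_comm]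
        exact hk3
      refine (Pr_exists_le_card hw _ _ (c := Real.exp (k * x - Real.log (Fintype.card V / k) *
        (d * k))) fun c hc => ?_).trans ?_
      · refine (chernoff_upper hw P h _ (ha.trans hν) _).trans (Real.exp_le_exp.2 ?_)
        obtain ⟨h2, h3⟩ := mem_product.1 hc
        rw [card_product, (mem_powersetCard.1 h2).2, (mem_powersetCard.1 h3).2,
          Real.exp_log (by positivity)]
        push_cast
        have h4 : (k : ℝ) * k * p * (Fintype.card V / k - 1) =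
            k * (Fintype.card V * p) - k * k * p := by field_simp
        have h5 : 0 ≤ (k : ℝ) * k * p := by positivity
        have h6 := mul_le_mul_of_nonneg_left hx (by linarith : (0 : ℝ) ≤ k)
        linarith
      · rw [card_product, card_powersetCard, card_univ]
        push_cast
        have h2 := choose_le_exp (Fintype.card V) k hk1 (by exact_mod_cast hn)
        refine (mul_le_mul_of_nonneg_right (mul_le_mul h2 h2 (by positivity) (by positivity))
          (Real.exp_pos _).le).trans ?_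
        rw [← Real.exp_add, ← Real.exp_add]
        refine Real.exp_le_exp.2 ?_
        have hd' : (0 : ℝ) ≤ d - 2 := by
          have : (2 : ℝ) ≤ d := by exact_mod_cast hd
          linarith
        have h3 := mul_le_mul_of_nonneg_left hν hd'
        generalize Real.log (Fintype.card V / k) = y at *
        have h4 : (k : ℝ) * (3 * x + 2) ≤ k * ((d - 2) * y) :=
          mul_le_mul_of_nonneg_left (by linarith) (by linarith)
        nlinarith
  rw [Nat.card_Icc, Nat.add_sub_cancel] at h1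
  refine (Pr_mono hw fun ω hω => ?_).trans h1
  push Not at hω
  obtain ⟨A, B, h2, h3, h4, h5⟩ := hω
  refine ⟨A.card, mem_Icc.2 ⟨h2.card_pos, h4⟩, (A, B), mem_product.2
    ⟨mem_powersetCard.2 ⟨subset_univ _, rfl⟩, mem_powersetCard.2 ⟨subset_univ _, h3.symm⟩⟩, ?_⟩
  exact_mod_cast h5.trans (arcs_sub_le D P ω A B)

/-- The arc between `v` and `y`, leaving `v` if `b` is true and entering `v` otherwise. -/
def arc (b : Bool) (v y : V) : V × V := cond b (v, y) (y, v)

open scoped Classical in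
/-- Arcs of `D` between `v` and the complement of `Z`, in the direction given by `b`. -/
noncomputable def star (D : V → V → Prop) (Z : Finset V) (v : V) (b : Bool) : Finset (V × V) :=
  (univ.filter fun y => y ∉ Z ∧ D (arc b v y).1 (arc b v y).2).image (arc b v)

omit [Fintype V] [DecidableEq V] in
theorem arc_injective (b : Bool) (v : V) : Function.Injective (arc b v) := by
  intro y y' h
  cases b
  · exact (Prod.mk.inj h).1
  · exact (Prod.mk.inj h).2

open scoped Classical in
/-- Vertices with few good arcs to or from the complement of `Z`. -/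
noncomputable def small (D : V → V → Prop) (Z : Finset V) (d : ℕ) (P : α → Prop)
    (ω : V × V → α) : Finset V :=
  univ.filter fun v => ∃ b, ((star D Z v b).filter fun e => P (ω e)).card ≤ d + 1

open scoped Classical in
omit [Fintype α] in
theorem le_of_notMem_small {D : V → V → Prop} {Z : Finset V} {d : ℕ} {P : α → Prop}
    {ω : V × V → α} {v : V} (hv : v ∉ small D Z d P ω) :
    d + 2 ≤ (univ.filter fun y => y ∉ Z ∧ sub D P ω v y).card ∧
      d + 2 ≤ (univ.filter fun y => y ∉ Z ∧ sub D P ω y v).card := by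
  simp only [small, mem_filter, mem_univ, true_and, not_exists, not_le] at hv
  have h1 := hv true
  have h2 := hv false
  rw [star, filter_image, card_image_of_injective _ (arc_injective _ _), filter_filter] at h1 h2
  exact ⟨Nat.succ_le_of_lt (h1.trans_le (card_le_card fun y hy =>
      mem_filter.2 ⟨mem_univ _, and_assoc.1 (mem_filter.1 hy).2⟩)),
    Nat.succ_le_of_lt (h2.trans_le (card_le_card fun y hy =>
      mem_filter.2 ⟨mem_univ _, and_assoc.1 (mem_filter.1 hy).2⟩))⟩

open scoped Classical in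
theorem le_card_star {D : V → V → Prop} {r : ℝ} (hout : ∀ v, r ≤ (univ.filter (D v)).card)
    (hin : ∀ v, r ≤ (univ.filter fun u => D u v).card) (Z : Finset V) (v : V) (b : Bool) :
    r - Z.card ≤ (star D Z v b).card := by
  rw [star, card_image_of_injective _ (arc_injective _ _)]
  cases b
  · refine le_trans (by linarith [hin v]) ((Ctx.card_sdiff_ge (univ.filter fun u => D u v) Z).trans
      (Nat.cast_le.2 (card_le_card fun y hy => ?_)))
    exact mem_filter.2 ⟨mem_univ _, (mem_sdiff.1 hy).2, (mem_filter.1 (mem_sdiff.1 hy).1).2⟩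
  · refine le_trans (by linarith [hout v]) ((Ctx.card_sdiff_ge (univ.filter (D v)) Z).trans
      (Nat.cast_le.2 (card_le_card fun y hy => ?_)))
    exact mem_filter.2 ⟨mem_univ _, (mem_sdiff.1 hy).2, (mem_filter.1 (mem_sdiff.1 hy).1).2⟩

section small

variable (hw : IsW w) {D : V → V → Prop} {Z : Finset V} {d : ℕ} {P₁ P₃ : α → Prop}
  {p₁ p lam t q : ℝ} (hp₁ : 0 ≤ p₁) (h₁ : p₁ ≤ wt w P₁) (hlam : 0 ≤ lam)
  (ht : ∀ v b, t ≤ (star D Z v b).card)
  (hq : Real.exp (lam * (d + 1) - (t - 25) * p₁ * (1 - Real.exp (-lam))) ≤ q)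
include hw hp₁ h₁ hlam ht hq

theorem Pr_size {M : ℝ} (hM : 0 < M) :
    Pr w (fun ω : V × V → α => M ≤ (small D Z d P₁ ω).card) ≤ 2 * Fintype.card V * q / M := by
  classical
  refine (Pr_card_le' hw univ (fun v (ω : V × V → α) =>
    ∃ b, ((star D Z v b).filter fun e => P₁ (ω e)).card ≤ d + 1) hM).trans
    (div_le_div_of_nonneg_right ?_ hM.le)
  have h1 : 0 ≤ p₁ * (1 - Real.exp (-lam)) :=
    mul_nonneg hp₁ (sub_nonneg.2 (Real.exp_le_one_iff.2 (by linarith)))
  have h2 : ∀ v ∈ (univ : Finset V), Pr w (fun ω : V × V → α =>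
      ∃ b, ((star D Z v b).filter fun e => P₁ (ω e)).card ≤ d + 1) ≤ 2 * q := by
    intro v _
    have h3 := Pr_exists_le_card hw (univ : Finset Bool) (fun b (ω : V × V → α) =>
      (((star D Z v b).filter fun e => P₁ (ω e)).card : ℝ) ≤ d + 1) (c := q) fun b _ => by
        refine (chernoff_lower hw P₁ h₁ _ hlam _).trans (le_trans (Real.exp_le_exp.2 ?_) hq)
        have h4 := mul_le_mul_of_nonneg_right (by linarith [ht v b] :
          t - 25 ≤ (star D Z v b).card) h1
        linarith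
    rw [card_univ, Fintype.card_bool] at h3
    refine (Pr_mono hw fun ω hω => ?_).trans h3
    obtain ⟨b, hb⟩ := hω
    exact ⟨b, mem_univ _, by exact_mod_cast hb⟩
  refine (sum_le_sum h2).trans (le_of_eq ?_)
  rw [sum_const, card_univ, nsmul_eq_mul]
  ring

theorem Pr_sep1 (hD : ∀ v, ¬ D v v) (h₃ : wt w P₃ ≤ p) (hp : 0 < p) (hp1 : p ≤ 1) :
    Pr w (fun ω : V × V → α => ¬ ∀ v ∈ small D Z d P₁ ω, ∀ x, sub D P₃ ω v x → ¬ sub D P₃ ω x v)
      ≤ 2 * Real.exp 2 * (Fintype.card V * p) ^ 2 * q := by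
  classical
  have h1 : 0 ≤ p₁ * (1 - Real.exp (-lam)) :=
    mul_nonneg hp₁ (sub_nonneg.2 (Real.exp_le_one_iff.2 (by linarith)))
  have h2 := Pr_exists_le_card hw (univ : Finset (V × V × Bool)) (fun c (ω : V × V → α) =>
    (((star D Z c.1 c.2.2 \ {(c.1, c.2.1), (c.2.1, c.1)}).filter fun e => P₁ (ω e)).card : ℝ)
      ≤ d + 1 ∧ ((2 : ℕ) : ℝ) ≤ ((({(c.1, c.2.1), (c.2.1, c.1)} : Finset (V × V)).filter
        fun e => P₃ (ω e)).card : ℝ)) (c := q * p ^ 2 * Real.exp 2) fun c _ => by
    refine (Pr_config hw P₁ P₃ h₁ h₃ hp hp1 _ _ sdiff_disjoint hlam _ _).trans ?_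
    have h3 : (({(c.1, c.2.1), (c.2.1, c.1)} : Finset (V × V)).card : ℝ) ≤ 2 := by
      exact_mod_cast card_le_two
    have h4 := le_card_sdiff {(c.1, c.2.1), (c.2.1, c.1)} (star D Z c.1 c.2.2)
    have h5 : ((star D Z c.1 c.2.2).card : ℝ) ≤
        (star D Z c.1 c.2.2 \ {(c.1, c.2.1), (c.2.1, c.1)}).card +
          ({(c.1, c.2.1), (c.2.1, c.1)} : Finset (V × V)).card := by
      exact_mod_cast (by omega : _ ≤ _ + _)
    refine mul_le_mul (mul_le_mul_of_nonneg_right (le_trans (Real.exp_le_exp.2 ?_) hq)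
      (by positivity)) (Real.exp_le_exp.2 h3) (by positivity)
      (mul_nonneg ((Real.exp_pos _).le.trans hq) (by positivity))
    nlinarith [ht c.1 c.2.2]
  refine (Pr_mono hw fun ω hω => ?_).trans (h2.trans (le_of_eq ?_))
  · push Not at hω
    obtain ⟨v, hv, x, h3, h4⟩ := hω
    obtain ⟨b, hb⟩ := (mem_filter.1 hv).2
    refine ⟨(v, x, b), mem_univ _, ?_, ?_⟩
    · exact_mod_cast (card_le_card (filter_subset_filter _ sdiff_subset)).trans hb
    · rw [filter_true_of_mem, card_pair]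
      · intro h
        obtain rfl : v = x := (Prod.mk.inj h).1
        exact hD v h3.1
      · intro e he
        rcases mem_insert.1 he with rfl | he
        · exact h3.2
        · rw [mem_singleton.1 he]
          exact h4.2
  · simp only [card_univ, Fintype.card_prod, Fintype.card_bool]
    push_cast
    ring

theorem Pr_sep (h₃ : wt w P₃ ≤ p) (hp : 0 < p) (hp1 : p ≤ 1) (hnp : 1 ≤ Fintype.card V * p) :
    Pr w (fun ω : V × V → α => ¬ ∀ Y : Finset V, Y.card ≤ 5 → ∀ v ∈ Y, ∀ v' ∈ Y,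
      v ∈ small D Z d P₁ ω → v' ∈ small D Z d P₁ ω → v ≠ v' → arcs (sub D P₃ ω) Y Y + 2 ≤ Y.card)
      ≤ 100 * Real.exp 26 * (Fintype.card V * p) ^ 5 * q ^ 2 / p := by
  classical
  have h1 : 0 ≤ p₁ * (1 - Real.exp (-lam)) :=
    mul_nonneg hp₁ (sub_nonneg.2 (Real.exp_le_one_iff.2 (by linarith)))
  have h2 := Pr_exists_le hw (univ.filter fun Y : Finset V => Y.card ≤ 5) fun Y (ω : V × V → α) =>
    ∃ c ∈ Y.offDiag ×ˢ (univ : Finset (Bool × Bool)),
      (((star D Z c.1.1 c.2.1 \ Y ×ˢ Y ∪ star D Z c.1.2 c.2.2 \ Y ×ˢ Y).filter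
        fun e => P₁ (ω e)).card : ℝ) ≤ 2 * (d + 1) ∧
      ((Y.card - 1 : ℕ) : ℝ) ≤ (((Y ×ˢ Y).filter fun e => P₃ (ω e)).card : ℝ)
  refine (Pr_mono hw fun ω hω => ?_).trans (h2.trans ?_)
  · push Not at hω
    obtain ⟨Y, h3, v, hv, v', hv', h4, h5, h6, h7⟩ := hω
    obtain ⟨b, hb⟩ := (mem_filter.1 h4).2
    obtain ⟨b', hb'⟩ := (mem_filter.1 h5).2
    refine ⟨Y, mem_filter.2 ⟨mem_univ _, h3⟩, ((v, v'), b, b'),
      mem_product.2 ⟨mem_offDiag.2 ⟨hv, hv', h6⟩, mem_univ _⟩, ?_, ?_⟩
    · rw [filter_union]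
      have h8 := (card_union_le _ _).trans (add_le_add
        ((card_le_card (filter_subset_filter _ (sdiff_subset (t := Y ×ˢ Y)))).trans hb)
        ((card_le_card (filter_subset_filter _ (sdiff_subset (t := Y ×ˢ Y)))).trans hb'))
      exact_mod_cast h8.trans (by omega)
    · have h8 := arcs_sub_le D P₃ ω Y Y
      exact_mod_cast (by omega : Y.card - 1 ≤ _)
  have h3 : ∀ Y ∈ univ.filter fun Y : Finset V => Y.card ≤ 5, Pr w (fun ω : V × V → α =>
      ∃ c ∈ Y.offDiag ×ˢ (univ : Finset (Bool × Bool)),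
        (((star D Z c.1.1 c.2.1 \ Y ×ˢ Y ∪ star D Z c.1.2 c.2.2 \ Y ×ˢ Y).filter
          fun e => P₁ (ω e)).card : ℝ) ≤ 2 * (d + 1) ∧
        ((Y.card - 1 : ℕ) : ℝ) ≤ (((Y ×ˢ Y).filter fun e => P₃ (ω e)).card : ℝ)) ≤
      100 * Real.exp 25 * q ^ 2 / p * p ^ Y.card := by
    intro Y hY
    have h4 : Y.card ≤ 5 := (mem_filter.1 hY).2
    have h5 : (Y ×ˢ Y).card ≤ 25 := by
      rw [card_product]
      exact Nat.mul_le_mul h4 h4
    have h5' : ((Y ×ˢ Y).card : ℝ) ≤ 25 := by exact_mod_cast h5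
    refine (Pr_exists_le_card hw _ _ (c := q ^ 2 * (p ^ Y.card / p) * Real.exp 25)
      fun c hc => ?_).trans ?_
    · obtain ⟨g1, g2, g3⟩ := mem_offDiag.1 (mem_product.1 hc).1
      refine (Pr_config hw P₁ P₃ h₁ h₃ hp hp1 _ _
        (disjoint_union_left.2 ⟨sdiff_disjoint, sdiff_disjoint⟩) hlam _ _).trans ?_
      have g4 : Disjoint (star D Z c.1.1 c.2.1 \ Y ×ˢ Y) (star D Z c.1.2 c.2.2 \ Y ×ˢ Y) := by
        refine disjoint_left.2 fun e he he' => ?_
        obtain ⟨y, -, g5⟩ := mem_image.1 (mem_sdiff.1 he).1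
        obtain ⟨y', -, g6⟩ := mem_image.1 (mem_sdiff.1 he').1
        have g7 := (mem_sdiff.1 he).2
        rw [← g6] at g5
        rw [← g6] at g7
        revert g5 g7
        cases c.2.1 <;> cases c.2.2 <;> simp only [arc, cond, Prod.mk.injEq, mem_product] <;>
          rintro ⟨g5, g6⟩ g7
        · exact g3 g6
        · exact g7 ⟨g2, g6 ▸ g1⟩
        · exact g7 ⟨g5 ▸ g1, g2⟩
        · exact g3 g5
      have g5 := Ctx.card_sdiff_ge (star D Z c.1.1 c.2.1) (Y ×ˢ Y)
      have g6 := Ctx.card_sdiff_ge (star D Z c.1.2 c.2.2) (Y ×ˢ Y)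
      have g7 : p ^ (Y.card - 1) = p ^ Y.card / p := by
        rw [eq_div_iff hp.ne', ← pow_succ, Nat.sub_add_cancel (card_pos.2 ⟨_, g1⟩)]
      rw [card_union_of_disjoint g4, g7]
      refine mul_le_mul (mul_le_mul_of_nonneg_right ?_ (by positivity)) (Real.exp_le_exp.2 h5')
        (by positivity) (by positivity)
      refine le_trans ?_ (pow_le_pow_left₀ (Real.exp_pos _).le hq 2)
      rw [← Real.exp_nat_mul]
      refine Real.exp_le_exp.2 ?_
      push_cast
      nlinarith [ht c.1.1 c.2.1, ht c.1.2 c.2.2]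
    · have h6 : ((Y.offDiag ×ˢ (univ : Finset (Bool × Bool))).card : ℝ) ≤ 100 := by
        have h7 : Y.offDiag.card ≤ 25 := by
          rw [offDiag_card]
          rw [card_product] at h5
          omega
        rw [card_product, card_univ, Fintype.card_prod, Fintype.card_bool]
        exact_mod_cast (by omega : Y.offDiag.card * (2 * 2) ≤ 100)
      refine (mul_le_mul_of_nonneg_right h6 (by positivity)).trans (le_of_eq ?_)
      ring
  refine (sum_le_sum h3).trans ?_
  rw [← mul_sum]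
  refine (mul_le_mul_of_nonneg_left (sum_small_sets hp hnp 5) (by positivity)).trans (le_of_eq ?_)
  rw [show (26 : ℝ) = 25 + 1 by norm_num, Real.exp_add]
  ring

end small

open scoped Classical in
theorem Pr_cyc (hw : IsW w) (D : V → V → Prop) (P : α → Prop) {p : ℝ} (h : wt w P ≤ p)
    (hp : 0 < p) (hp1 : p ≤ 1) (hnp : 1 ≤ Fintype.card V * p) {k M : ℕ} (hk : 0 < k) (hM : 0 < M) :
    Pr w (fun ω : V × V → α => ¬ (univ.filter fun v => ∃ Y : Finset V, v ∈ Y ∧ Y.card ≤ k ∧
      Y.card ≤ arcs (sub D P ω) Y Y).card ≤ M) ≤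
        k * Real.exp (k ^ 2 + 1) * (Fintype.card V * p) ^ k / M := by
  have hk' : (0 : ℝ) < k := by exact_mod_cast hk
  have hM' : (0 : ℝ) < M := by exact_mod_cast hM
  have h1 := Pr_card_le' hw (univ.filter fun Y : Finset V => Y.card ≤ k) (fun Y (ω : V × V → α) =>
    Y.card ≤ arcs (sub D P ω) Y Y) (M := M / k) (by positivity)
  refine (Pr_mono hw fun ω hω => ?_).trans (h1.trans ?_)
  · rw [div_le_iff₀ hk']
    set S := (univ.filter fun Y : Finset V => Y.card ≤ k).filter fun Y =>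
      Y.card ≤ arcs (sub D P ω) Y Y with hS
    have h2 : (univ.filter fun v => ∃ Y : Finset V, v ∈ Y ∧ Y.card ≤ k ∧
        Y.card ≤ arcs (sub D P ω) Y Y) ⊆ S.biUnion id := by
      intro v hv
      obtain ⟨Y, h3, h4, h5⟩ := (mem_filter.1 hv).2
      exact mem_biUnion.2 ⟨Y, mem_filter.2 ⟨mem_filter.2 ⟨mem_univ _, h4⟩, h5⟩, h3⟩
    have h3 := (card_le_card h2).trans (card_biUnion_le_card_mul S id k fun Y hY =>
      (mem_filter.1 (mem_filter.1 hY).1).2)
    exact_mod_cast (not_le.1 hω).le.trans h3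
  · rw [div_div_eq_mul_div]
    refine div_le_div_of_nonneg_right ?_ hM'.le
    have h2 : ∀ Y ∈ univ.filter fun Y : Finset V => Y.card ≤ k, Pr w (fun ω : V × V → α =>
        Y.card ≤ arcs (sub D P ω) Y Y) ≤ Real.exp (k ^ 2) * p ^ Y.card := by
      intro Y hY
      have h3 := Pr_config hw P P le_rfl h hp hp1 ∅ (Y ×ˢ Y) (disjoint_empty_left _) le_rfl 0 Y.card
      refine le_trans (Pr_mono hw fun ω hω => ?_) (h3.trans ?_)
      · exact ⟨by simp, by exact_mod_cast hω.trans (arcs_sub_le D P ω Y Y)⟩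
      · simp only [mul_zero, card_empty, Nat.cast_zero, zero_mul, sub_zero, Real.exp_zero, one_mul]
        rw [mul_comm]
        refine mul_le_mul_of_nonneg_right (Real.exp_le_exp.2 ?_) (by positivity)
        rw [card_product, sq]
        exact_mod_cast Nat.mul_le_mul (mem_filter.1 hY).2 (mem_filter.1 hY).2
    refine (mul_le_mul_of_nonneg_right (sum_le_sum h2) hk'.le).trans ?_
    rw [← mul_sum]
    refine (mul_le_mul_of_nonneg_right (mul_le_mul_of_nonneg_left (sum_small_sets hp hnp k)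
      (by positivity)) hk'.le).trans (le_of_eq ?_)
    rw [Real.exp_add]
    ring

open scoped Classical in
theorem Pr_deg (hw : IsW w) {D : V → V → Prop} (P : α → Prop) {p r : ℝ} (hp : 0 ≤ p)
    (h : p ≤ wt w P) (hout : ∀ v, r ≤ (univ.filter (D v)).card)
    (hin : ∀ v, r ≤ (univ.filter fun u => D u v).card) :
    Pr w (fun ω : V × V → α => ¬ ∀ v, (∃ y, sub D P ω v y) ∧ ∃ y, sub D P ω y v) ≤
      2 * Fintype.card V * Real.exp (-(r * p)) := by
  have h1 := Pr_exists_le_card hw (univ : Finset (V × Bool)) (fun c (ω : V × V → α) =>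
    ∀ e ∈ star D ∅ c.1 c.2, ¬ P (ω e)) (c := Real.exp (-(r * p))) fun c _ =>
      (Pr_none_le hw P h _).trans (Real.exp_le_exp.2 (neg_le_neg (mul_le_mul_of_nonneg_right
        (by simpa using le_card_star hout hin ∅ c.1 c.2) hp)))
  refine (Pr_mono hw fun ω hω => ?_).trans (h1.trans (le_of_eq ?_))
  · rw [not_forall] at hω
    obtain ⟨v, hv⟩ := hω
    rcases not_and_or.1 hv with hv | hv
    · refine ⟨(v, true), mem_univ _, fun e he h2 => ?_⟩
      obtain ⟨y, hy, rfl⟩ := mem_image.1 he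
      exact hv ⟨y, (mem_filter.1 hy).2.2, h2⟩
    · refine ⟨(v, false), mem_univ _, fun e he h2 => ?_⟩
      obtain ⟨y, hy, rfl⟩ := mem_image.1 he
      exact hv ⟨y, (mem_filter.1 hy).2.2, h2⟩
  · simp only [card_univ, Fintype.card_prod, Fintype.card_bool]
    push_cast
    ring

theorem IsW.pi (hw : IsW w) : IsW fun r : V → α => ∏ j, w (r j) :=
  ⟨fun _ => prod_nonneg fun _ _ => hw.nonneg _, by
    simpa only [Ex, mul_one] using Ex_const (ι := V) hw 1⟩

theorem Ex_curry (f : (V × V → α) → ℝ) :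
    Ex w f = Ex (fun r : V → α => ∏ j, w (r j)) fun ω : V → V → α => f fun e => ω e.1 e.2 := by
  unfold Ex
  rw [← (Equiv.curry V V α).symm.sum_comp]
  refine sum_congr rfl fun ω _ => ?_
  rw [Fintype.prod_prod_type]
  rfl

theorem Pr_rows (hw : IsW w) (P : α → Prop) {p : ℝ} (h : wt w P ≤ p) (hp : p ≤ 1) :
    Pr w (fun ω : V × V → α => ¬ ∃ v, ∀ y, ¬ P (ω (v, y))) ≤
      Real.exp (-(Fintype.card V * (1 - p) ^ Fintype.card V)) := by
  have h1 : (1 - p) ^ Fintype.card V ≤
      wt (fun r : V → α => ∏ j, w (r j)) fun r => ∀ y, ¬ P (r y) := by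
    have h2 := Pr_none (ι := V) hw P univ
    simp only [mem_univ, forall_const, card_univ] at h2
    refine le_trans (pow_le_pow_left₀ (by linarith) (by linarith) _) h2.ge
  have h2 := Pr_none_le (ι := V) hw.pi _ h1 univ
  simp only [mem_univ, forall_const, card_univ] at h2
  unfold Pr at h2 ⊢
  rw [Ex_curry]
  simpa only [not_exists] using h2

open scoped Classical in
theorem exists_labels {D : V → V → Prop} {ε : ℝ} (hε : 0 < ε) (hε1 : ε ≤ 1)
    (hout : ∀ v, (1 / 2 + ε) * Fintype.card V ≤ (univ.filter (D v)).card) {R k : ℕ}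
    (hk : k < R) (hn : 2 * Fintype.card V * (k + 1) *
      Real.exp (-(ε ^ 2 * (Fintype.card V / R) / 32)) + Real.exp (-(Fintype.card V / R / 4)) < 1) :
    ∃ z : V → ℕ, ((univ.filter fun v => z v ≤ k).card : ℝ) ≤ 2 * (k + 1) * (Fintype.card V / R) ∧
      (∀ t, ∀ i ≤ k, (1 / 2 + ε / 2) * (Fintype.card V / R) ≤
        (univ.filter fun y => z y = i ∧ D t y).card) ∧
      ∀ t, ∀ i ≤ k, ((univ.filter fun y => z y = i ∧ ¬ D t y).card : ℝ) ≤
        (1 / 2 - ε / 2) * (Fintype.card V / R) := by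
  have hR : (0 : ℝ) < R := by exact_mod_cast (by omega : 0 < R)
  let w : Fin R → ℝ := fun _ => 1 / R
  have hw : IsW w := ⟨fun _ => by positivity, by
    simp only [w, sum_const, card_univ, Fintype.card_fin, nsmul_eq_mul]
    field_simp⟩
  have hwt : ∀ (P : Fin R → Prop) [DecidablePred P], wt w P = (univ.filter P).card / R := by
    intro P _
    rw [card_filter_eq_sum_ind', sum_div]
    exact sum_congr rfl fun a _ => by simp only [w]; ring
  have hw1 : ∀ i ≤ k, wt w (fun a => a.1 = i) = 1 / R := by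
    intro i hi
    rw [hwt, card_eq_one.2 ⟨⟨i, by omega⟩, by ext a; simp [Fin.ext_iff]⟩, Nat.cast_one]
  have hw2 : wt w (fun a => a.1 ≤ k) ≤ (k + 1) / R := by
    rw [hwt]
    refine div_le_div_of_nonneg_right ?_ hR.le
    have h1 := card_le_card_of_injOn (s := univ.filter fun a : Fin R => a.1 ≤ k)
      (t := range (k + 1)) Fin.val (fun a ha => by simpa [Nat.lt_succ_iff] using ha)
      Fin.val_injective.injOn
    rw [card_range] at h1
    exact_mod_cast h1
  set ζ : ℝ := Fintype.card V / R with hζ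
  have hζ0 : 0 ≤ ζ := by positivity
  have e1 : Pr w (fun ω : V → Fin R => 2 * (k + 1) * ζ ≤
      ((univ.filter fun v => (ω v).1 ≤ k).card : ℝ)) ≤ Real.exp (-(ζ / 4)) := by
    refine (chernoff_upper' hw (fun a => a.1 ≤ k) hw2 univ zero_le_one _).trans (Real.exp_le_exp.2 ?_)
    have h1 : ((univ : Finset V).card : ℝ) * ((k + 1) / R) = (k + 1) * ζ := by
      rw [card_univ, hζ]
      ring
    have h2 : ζ ≤ (k + 1) * ζ := le_mul_of_one_le_left hζ0 (by linarith [Nat.cast_nonneg (α := ℝ) k])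
    rw [h1]
    nlinarith [Real.exp_one_lt_d9]
  have e2 := Pr_exists_le_card hw ((univ : Finset V) ×ˢ range (k + 1))
    (fun c (ω : V → Fin R) => (((univ.filter (D c.1)).filter fun y => (ω y).1 = c.2).card : ℝ) ≤
      (1 / 2 + ε / 2) * ζ) (c := Real.exp (-(ε ^ 2 * ζ / 32))) fun c hc => by
      have h1 := hw1 c.2 (Nat.lt_succ_iff.1 (mem_range.1 (mem_product.1 hc).2))
      refine (chernoff_lower' hw (fun a => a.1 = c.2) h1.ge _ (lam := ε / 4) (by positivity) _).trans
        (Real.exp_le_exp.2 ?_)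
      have h2 : (1 / 2 + ε) * ζ ≤ (univ.filter (D c.1)).card * (1 / R) := by
        rw [hζ, ← mul_div_assoc, mul_one_div]
        exact div_le_div_of_nonneg_right (hout c.1) hR.le
      have h3 := abs_le.1 (Real.abs_exp_sub_one_sub_id_le (x := -(ε / 4))
        (abs_le.2 ⟨by linarith, by linarith⟩))
      have h4 : ε / 4 * (1 - ε / 4) ≤ 1 - Real.exp (-(ε / 4)) := by nlinarith [h3.2]
      have h5 := mul_le_mul h2 h4 (by nlinarith) (by positivity)
      have h6 : 0 ≤ ε ^ 2 * (1 - ε) * ζ := mul_nonneg (mul_nonneg (by positivity) (by linarith)) hζ0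
      have h7 : 0 ≤ ε ^ 2 * ζ := by positivity
      nlinarith
  have e3 := Pr_exists_le_card hw ((univ : Finset V) ×ˢ range (k + 1))
    (fun c (ω : V → Fin R) => (1 / 2 - ε / 2) * ζ ≤
      (((univ.filter fun y => ¬ D c.1 y).filter fun y => (ω y).1 = c.2).card : ℝ))
      (c := Real.exp (-(ε ^ 2 * ζ / 32))) fun c hc => by
      have h1 := hw1 c.2 (Nat.lt_succ_iff.1 (mem_range.1 (mem_product.1 hc).2))
      refine (chernoff_upper' hw (fun a => a.1 = c.2) h1.le _ (ν := ε / 2) (by positivity) _).trans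
        (Real.exp_le_exp.2 ?_)
      have h0 : ((univ.filter (D c.1)).card : ℝ) + (univ.filter fun y => ¬ D c.1 y).card =
          Fintype.card V := by
        exact_mod_cast card_filter_add_card_filter_not (s := univ) (D c.1)
      have h2 : (univ.filter fun y => ¬ D c.1 y).card * (1 / R) ≤ (1 / 2 - ε) * ζ := by
        rw [hζ, mul_one_div, ← mul_div_assoc]
        exact div_le_div_of_nonneg_right (by linarith [hout c.1]) hR.le
      have h3 := abs_le.1 (Real.abs_exp_sub_one_sub_id_le (x := ε / 2)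
        (abs_le.2 ⟨by linarith, by linarith⟩))
      have h4 : Real.exp (ε / 2) - 1 ≤ ε / 2 * (1 + ε / 2) := by nlinarith [h3.2]
      have h5 := mul_le_mul h2 h4 (by linarith [Real.add_one_le_exp (ε / 2)])
        (le_trans (by positivity) h2)
      have h6 : 0 ≤ ε ^ 3 * ζ := by positivity
      have h7 : 0 ≤ ε ^ 2 * ζ := by positivity
      nlinarith
  rw [card_product, card_univ, card_range] at e2 e3
  push_cast at e2 e3
  by_contra hno
  have e4 := (Pr_or_le hw _ _).trans (add_le_add e1 ((Pr_or_le hw _ _).trans (add_le_add e2 e3)))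
  have e5 : Pr w (fun _ : V → Fin R => True) = 1 := by
    unfold Pr
    simp only [ind_pos trivial, Ex_const hw]
  refine absurd (e5.ge.trans ((Pr_mono hw fun ω _ => ?_).trans e4)) (not_le.2 (by linarith))
  by_contra h1
  simp only [not_or, not_exists, not_and, not_le, mem_product, mem_univ, true_and, mem_range,
    filter_filter, Prod.forall] at h1
  refine hno ⟨fun v => (ω v).1, h1.1.le, fun t i hi => ?_, fun t i hi => ?_⟩
  · simpa only [and_comm] using (h1.2.1 t i (by omega)).le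
  · simpa only [and_comm] using (h1.2.2 t i (by omega)).le

end Pool.Agent.P.MP_11f821_pr
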